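import Pool.Agent.Run7.h739.GlueC

/-!
Group actions on pyramids, bipyramids and glued polytopes; transfer of certificates.
-/

namespace Run7.h739

open Module Function Run7.h249

/-- A homomorphism to permutations from an action. -/
def mkHom {G X : Type} [Group G] (A : G → X → X) (h1 : ∀ x, A 1 x = x)
    (h2 : ∀ g h x, A (g * h) x = A g (A h x)) : G →* Equiv.Perm X :=
  @MulAction.toPermHom G X _ { smul := A, one_smul := h1, mul_smul := h2 }

lemma mkHom_apply {G X : Type} [Group G] (A : G → X → X) (h1 : ∀ x, A 1 x = x)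
    (h2 : ∀ g h x, A (g * h) x = A g (A h x)) (g : G) (x : X) : mkHom A h1 h2 g x = A g x := rfl

section cert

variable {ι ι' V V' : Type} [AddCommGroup V] [Module ℝ V] [AddCommGroup V'] [Module ℝ V']
variable {a : ι → V} {a' : ι' → V'} {T : ι → ι} {T' : ι' → ι'} {Q : Set ι → Prop}
  {Q' : Set ι' → Prop} {d d' : ℕ}

lemma Half.map (j : ι → ι') (hj : Injective j) (U : Set ι') (hU : U.Finite)
    (hUc : d + U.ncard = d') (hUr : ∀ x ∈ U, x ∉ Set.range j) (hT : ∀ i, T' (j i) = j (T i))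
    (hTU : ∀ x ∈ U, T' x = x) (hmono : ∀ S S1, S ⊆ S1 → Q S1 → Q S)
    (hface : ∀ S, IsFace a S → Q S → ∀ S0 ⊆ U, IsFace a' (j '' S ∪ S0))
    (hQ : ∀ S, IsFace a S → Q S → Q' (j '' S ∪ U)) {W : Set ι} {c b y z : ι}
    (h : Half a d T Q W c b y z) : Half a' d' T' Q' (j '' W ∪ U) (j c) (j b) (j y) (j z) := by
  have hset : ∀ u v : ι, (j '' W ∪ U) ∪ {j u, j v} = j '' (W ∪ {u, v}) ∪ U := by
    intro u v
    rw [Set.image_union, Set.image_pair]
    ext x
    simp only [Set.mem_union]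
    tauto
  have hW : IsFace a (W ∪ {b, y}) := h.hered _ (subset_refl _)
  refine ⟨?_, (h.fin.image j).union hU, ?_, ?_, ?_, ?_, ?_, ?_, ?_, ?_, ?_, ?_, ?_⟩
  · have hdisj : Disjoint (j '' W) U := by
      rw [Set.disjoint_left]
      rintro _ ⟨i, -, rfl⟩ hx
      exact hUr _ hx ⟨i, rfl⟩
    rw [Set.ncard_union_eq hdisj (h.fin.image j) hU, Set.ncard_image_of_injective _ hj]
    have := h.card
    omega
  · rintro x (⟨i, hi, rfl⟩ | hx)
    · rw [hT, h.fix i hi]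
    · exact hTU x hx
  · rw [hT, h.fixc]
  · rw [hT, hT, hT]
    have := h.nd.map hj
    simpa using this
  · rw [hT, hT, hT]
    intro x hx
    have hx' : x ∈ ([c, b, y, z, T b, T y, T z] : List ι).map j := by simpa using hx
    obtain ⟨i, hi, rfl⟩ := List.mem_map.1 hx'
    rintro (⟨k, hk, hk'⟩ | hU')
    · rw [hj hk'] at hk
      exact h.nm i hi hk
    · exact hUr _ hU' ⟨i, rfl⟩
  · intro x hx
    have hx' : x ∈ ([b, y, z] : List ι).map j := by simpa using hx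
    obtain ⟨i, hi, rfl⟩ := List.mem_map.1 hx'
    rw [hT, hT, h.tt i hi]
  · intro S' hS'
    rw [hset] at hS'
    have e : S' = j '' (j ⁻¹' S') ∪ (S' ∩ U) := by
      ext x
      constructor
      · intro hx
        rcases hS' hx with ⟨i, -, rfl⟩ | h1
        · exact Or.inl ⟨i, hx, rfl⟩
        · exact Or.inr ⟨hx, h1⟩
      · rintro (⟨i, hi, rfl⟩ | ⟨hx, -⟩)
        · exact hi
        · exact hx
    have hsub : j ⁻¹' S' ⊆ W ∪ {b, y} := by
      intro i hi
      rcases hS' hi with ⟨k, hk, hk'⟩ | h1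
      · rw [← hj hk']
        exact hk
      · exact absurd ⟨i, rfl⟩ (hUr _ h1)
    rw [e]
    exact hface _ (h.hered _ hsub) (hmono _ _ hsub h.q1) _ Set.inter_subset_right
  · rw [hset]
    exact hface _ h.f2 h.q2 _ (subset_refl _)
  · rw [hT, hset]
    exact hface _ h.f3 h.q3 _ (subset_refl _)
  · rw [hset]
    exact hQ _ hW h.q1
  · rw [hset]
    exact hQ _ h.f2 h.q2
  · rw [hT, hset]
    exact hQ _ h.f3 h.q3

lemma Cert.map (j : ι → ι') (hj : Injective j) (U : Set ι') (hU : U.Finite)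
    (hUc : d + U.ncard = d') (hUr : ∀ x ∈ U, x ∉ Set.range j) (hT : ∀ i, T' (j i) = j (T i))
    (hTU : ∀ x ∈ U, T' x = x) (hmono : ∀ S S1, S ⊆ S1 → Q S1 → Q S)
    (hface : ∀ S, IsFace a S → Q S → ∀ S0 ⊆ U, IsFace a' (j '' S ∪ S0))
    (hQ : ∀ S, IsFace a S → Q S → Q' (j '' S ∪ U)) (h : Cert a d T Q) : Cert a' d' T' Q' := by
  obtain ⟨W, W', c, c', b, y, z, h1, h2⟩ := h
  exact ⟨_, _, _, _, _, _, _, h1.map j hj U hU hUc hUr hT hTU hmono hface hQ,
    h2.map j hj U hU hUc hUr hT hTU hmono hface hQ⟩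

lemma Cert.mono {Q2 : Set ι → Prop} (hQ : ∀ S, Q S → Q2 S) (h : Cert a d T Q) :
    Cert a d T Q2 := by
  obtain ⟨W, W', c, c', b, y, z, h1, h2⟩ := h
  refine ⟨W, W', c, c', b, y, z, ?_, ?_⟩
  · exact ⟨h1.card, h1.fin, h1.fix, h1.fixc, h1.nd, h1.nm, h1.tt, h1.hered, h1.f2, h1.f3,
      hQ _ h1.q1, hQ _ h1.q2, hQ _ h1.q3⟩
  · exact ⟨h2.card, h2.fin, h2.fix, h2.fixc, h2.nd, h2.nm, h2.tt, h2.hered, h2.f2, h2.f3,
      hQ _ h2.q1, hQ _ h2.q2, hQ _ h2.q3⟩

end cert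

section gact

variable {d : ℕ} {P Y : Cfg d} {J G : Type} [Group G] {f : J → Fin d → P.ι} {f' : Fin d → Y.ι}

lemma tau_notMem {τ : G →* Equiv.Perm Y.ι} {σ : G → Fin d → Fin d}
    (H2 : ∀ g i, τ g (f' i) = f' (σ g i)) (g : G) (y : Y.ι) (hy : y ∉ Set.range f') :
    τ g y ∉ Set.range f' := by
  rintro ⟨i, hi⟩
  apply hy
  refine ⟨σ g⁻¹ i, ?_⟩
  rw [← H2, hi, ← Equiv.Perm.mul_apply, ← map_mul, inv_mul_cancel, map_one]
  rfl

/-- The action on the glued polytope. -/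
def gAct (ρ : G →* Equiv.Perm P.ι) (π : G →* Equiv.Perm J) (τ : G →* Equiv.Perm Y.ι)
    {σ : G → Fin d → Fin d} (H2 : ∀ g i, τ g (f' i) = f' (σ g i)) :
    G →* Equiv.Perm (GI P Y J f') :=
  mkHom (fun g x => Sum.map (ρ g) (fun z => (π g z.1, ⟨τ g z.2.1, tau_notMem H2 g _ z.2.2⟩)) x)
    (by
      rintro (i | ⟨j, ⟨y, hy⟩⟩)
      · show (Sum.inl (ρ 1 i) : GI P Y J f') = _
        rw [map_one]
        rfl
      · show (Sum.inr (π 1 j, ⟨τ 1 y, _⟩) : GI P Y J f') = _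
        congr 2
        · rw [map_one]
          rfl
        · apply Subtype.ext
          show τ 1 y = y
          rw [map_one]
          rfl)
    (by
      rintro g h (i | ⟨j, ⟨y, hy⟩⟩)
      · show (Sum.inl (ρ (g * h) i) : GI P Y J f') = Sum.inl (ρ g (ρ h i))
        rw [map_mul]
        rfl
      · show (Sum.inr (π (g * h) j, ⟨τ (g * h) y, _⟩) : GI P Y J f') =
          Sum.inr (π g (π h j), ⟨τ g (τ h y), _⟩)
        congr 2
        · rw [map_mul]
          rfl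
        · apply Subtype.ext
          show τ (g * h) y = τ g (τ h y)
          rw [map_mul]
          rfl)

variable {ρ : G →* Equiv.Perm P.ι} {π : G →* Equiv.Perm J} {τ : G →* Equiv.Perm Y.ι}
    {σ : G → Fin d → Fin d}

lemma gAct_inl (H2 : ∀ g i, τ g (f' i) = f' (σ g i)) (g : G) (i : P.ι) :
    gAct (J := J) ρ π τ H2 g (Sum.inl i) = Sum.inl (ρ g i) := rfl

lemma gAct_emb (H1 : ∀ g j i, ρ g (f j i) = f (π g j) (σ g i))
    (H2 : ∀ g i, τ g (f' i) = f' (σ g i)) (hf' : Injective f') (g : G) (j : J) (y : Y.ι) :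
    gAct (J := J) ρ π τ H2 g (emb P Y J f f' j y) = emb P Y J f f' (π g j) (τ g y) := by
  by_cases hy : y ∈ Set.range f'
  · obtain ⟨i, rfl⟩ := hy
    rw [emb_f P Y J f f' hf', gAct_inl, H1, H2, emb_f P Y J f f' hf']
  · rw [emb_new P Y J f f' j y hy, emb_new P Y J f f' _ _ (tau_notMem H2 g y hy)]
    rfl

lemma gAct_image_emb (H1 : ∀ g j i, ρ g (f j i) = f (π g j) (σ g i))
    (H2 : ∀ g i, τ g (f' i) = f' (σ g i)) (hf' : Injective f') (g : G) (j : J) (S : Set Y.ι) :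
    gAct (J := J) ρ π τ H2 g '' (emb P Y J f f' j '' S) =
      emb P Y J f f' (π g j) '' (τ g '' S) := by
  rw [Set.image_image, Set.image_image]
  exact Set.image_congr (fun y _ => gAct_emb H1 H2 hf' g j y)

lemma gAct_image_inl (H2 : ∀ g i, τ g (f' i) = f' (σ g i)) (g : G) (S : Set P.ι) :
    gAct (J := J) ρ π τ H2 g '' (Sum.inl '' S) = Sum.inl '' (ρ g '' S) := by
  rw [Set.image_image, Set.image_image]
  rfl

lemma gAct_face {a' : GI P Y J f' → P.V} (h : Glued P Y J f f' a')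
    (H1 : ∀ g j i, ρ g (f j i) = f (π g j) (σ g i))
    (H2 : ∀ g i, τ g (f' i) = f' (σ g i)) (hf' : Injective f')
    (hρ : ∀ g S, IsFace P.a S → IsFace P.a (ρ g '' S))
    (hτ : ∀ g S, IsFace Y.a S → IsFace Y.a (τ g '' S)) (g : G) (T : Set (GI P Y J f'))
    (hT : IsFace a' T) : IsFace a' (gAct (J := J) ρ π τ H2 g '' T) := by
  rw [h.face]
  rcases (h.face T).1 hT with rfl | ⟨S, h1, h2, rfl⟩ | ⟨j, S, h1, h2, rfl⟩
  · left
    exact Set.image_univ_of_surjective (gAct (J := J) ρ π τ H2 g).surjective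
  · right; left
    refine ⟨ρ g '' S, hρ g S h1, ?_, gAct_image_inl H2 g S⟩
    intro j hj
    apply h2 (π g⁻¹ j)
    rintro _ ⟨i, rfl⟩
    have h3 : ρ g (f (π g⁻¹ j) i) = f j (σ g i) := by
      rw [H1, ← Equiv.Perm.mul_apply, ← map_mul, mul_inv_cancel, map_one]
      rfl
    obtain ⟨x, hx, hx'⟩ := hj ⟨σ g i, rfl⟩
    rw [← h3] at hx'
    rw [← (ρ g).injective hx']
    exact hx
  · right; right
    refine ⟨π g j, τ g '' S, hτ g S h1, ?_, gAct_image_emb H1 H2 hf' g j S⟩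
    intro hj
    apply h2
    rintro _ ⟨i, rfl⟩
    obtain ⟨x, hx, hx'⟩ := hj ⟨σ g i, rfl⟩
    rw [← H2] at hx'
    rw [← (τ g).injective hx']
    exact hx

end gact

end Run7.h739
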