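import Pool.Agent.Run7.h739.Final

/-!
The four-dimensional data: copies of the sphere block on the four invariant facets of a core.
-/

namespace Run7.h739

open Module Function Run7.h249

/-- The statement about the cores. -/
def CoreS : Prop := ∀ m : ℕ, ∃ (C : Cfg 4) (κ : ℕ) (ρ : (ℤˣ × ℤˣ) × ℤˣ →* Equiv.Perm C.ι)
    (f : Fin 4 → C.ι),
    κ % 4 = m % 4 ∧ fc C.a 5 Set.univ = 8 * κ ∧
    (∀ g S, IsFace C.a S → IsFace C.a (ρ g '' S)) ∧
    SF C.a f ∧
    (∀ h, ρ (h, 1) '' Set.range f = Set.range f → h = 1) ∧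
    (∀ i, ρ (1, -1) (f i) = f (![1, 0, 3, 2] i))

/-- The statement about the block. -/
def BlockS : Prop := ∃ (Y : Cfg 4) (τ : Equiv.Perm Y.ι) (f f' : Fin 4 → Y.ι),
    fc Y.a 5 Set.univ = 696 ∧
    (∀ y, τ (τ y) = y) ∧
    (∀ S, IsFace Y.a S → IsFace Y.a (τ '' S)) ∧
    SF Y.a f ∧ SF Y.a f' ∧
    (∀ i, τ (f i) = f (![1, 0, 3, 2] i)) ∧
    τ '' Set.range f' ≠ Set.range f' ∧
    Set.range f' ≠ Set.range f ∧
    Cert Y.a 4 τ (fun S => ¬ (Set.range f ⊆ S) ∧ ¬ (Set.range f' ⊆ S) ∧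
      ¬ (τ '' Set.range f' ⊆ S))

lemma unit_cases (k : ℤˣ) : k = 1 ∨ k = -1 := Int.units_eq_one_or k

/-- The homomorphism given by an involution. -/
def invHom {X : Type} (τ : Equiv.Perm X) (h : ∀ x, τ (τ x) = x) : ℤˣ →* Equiv.Perm X :=
  mkHom (fun k x => if k = 1 then x else τ x) (fun x => if_pos rfl) (by
    intro g k x
    rcases unit_cases g with rfl | rfl
    · rw [one_mul, if_pos rfl]
    · rcases unit_cases k with rfl | rfl
      · rw [mul_one, if_pos (rfl : (1 : ℤˣ) = 1)]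
      · have h1 : ((-1 : ℤˣ) * -1) = 1 := by decide
        have h2 : ¬ ((-1 : ℤˣ) = 1) := by decide
        rw [h1, if_pos rfl, if_neg h2, if_neg h2, h])

lemma invHom_one {X : Type} (τ : Equiv.Perm X) (h : ∀ x, τ (τ x) = x) (x : X) :
    invHom τ h 1 x = x := by
  show (if (1 : ℤˣ) = 1 then x else τ x) = x
  exact if_pos rfl

lemma invHom_neg {X : Type} (τ : Equiv.Perm X) (h : ∀ x, τ (τ x) = x) (x : X) :
    invHom τ h (-1) x = τ x := by
  show (if (-1 : ℤˣ) = 1 then x else τ x) = τ x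
  exact if_neg (by decide)

theorem base_dat (hC : CoreS) (hB : BlockS) (r : ℕ) :
    ∃ κ, κ % 4 = r % 4 ∧ Nonempty (Dat 4 κ) := by
  obtain ⟨C, κ, ρ, f0, hκ, hcnt, hρ, hf0, hfree, hT⟩ := hC r
  obtain ⟨Y, τ, f, f', hcY, hττ, hτ, hf, hf', hTf, hTf', hne', hcert⟩ := hB
  refine ⟨κ + 324, by omega, ?_⟩
  set ff : (ℤˣ × ℤˣ) → Fin 4 → C.ι := fun h i => ρ (h, 1) (f0 i) with hff
  have hrange : ∀ h, Set.range (ff h) = ρ (h, 1) '' Set.range f0 := by
    intro h
    rw [← Set.range_comp]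
    rfl
  have hρi : ∀ g x, ρ g⁻¹ (ρ g x) = x := by
    intro g x
    rw [← Equiv.Perm.mul_apply, ← map_mul, inv_mul_cancel, map_one]
    rfl
  have hρi' : ∀ g x, ρ g (ρ g⁻¹ x) = x := by
    intro g x
    rw [← Equiv.Perm.mul_apply, ← map_mul, mul_inv_cancel, map_one]
    rfl
  have hsf : ∀ h, SF C.a (ff h) := by
    intro h
    refine SF.of_hered (fun i j hij => hf0.inj ((ρ (h, 1)).injective hij)) ?_
    intro S hS
    have h1 : ρ (h, 1)⁻¹ '' S ⊆ Set.range f0 := by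
      rintro _ ⟨x, hx, rfl⟩
      obtain ⟨i, rfl⟩ := hS hx
      exact ⟨i, (hρi _ _).symm⟩
    have h2 := hρ (h, 1) _ (hf0.hered _ h1)
    rw [Set.image_image] at h2
    have h3 : (fun x => ρ (h, 1) (ρ (h, 1)⁻¹ x)) '' S = S := by
      have : (fun x => ρ (h, 1) (ρ (h, 1)⁻¹ x)) = id := by
        funext x
        exact hρi' _ x
      rw [this, Set.image_id]
    rwa [h3] at h2
  have hne : ∀ h h', Set.range (ff h) = Set.range (ff h') → h = h' := by
    intro g g' h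
    rw [hrange, hrange] at h
    have h1 : ρ (g'⁻¹ * g, 1) '' Set.range f0 = Set.range f0 := by
      have h2 : ρ (g'⁻¹ * g, 1) '' Set.range f0 = ρ (g', 1)⁻¹ '' (ρ (g, 1) '' Set.range f0) := by
        rw [Set.image_image]
        have : ((g'⁻¹ * g, 1) : (ℤˣ × ℤˣ) × ℤˣ) = (g', 1)⁻¹ * (g, 1) := by
          ext <;> simp
        rw [this, map_mul]
        rfl
      rw [h2, h, Set.image_image]
      have : (fun x => ρ (g', 1)⁻¹ (ρ (g', 1) x)) = id := by
        funext x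
        exact hρi _ x
      rw [this, Set.image_id]
    have h3 := hfree _ h1
    exact (inv_mul_eq_one.1 h3).symm
  obtain ⟨a', h⟩ := exists_glued C Y (ℤˣ × ℤˣ) ff f hsf hne hf
  -- the actions
  set π : (ℤˣ × ℤˣ) × ℤˣ →* Equiv.Perm (ℤˣ × ℤˣ) :=
    (MulAction.toPermHom (ℤˣ × ℤˣ) (ℤˣ × ℤˣ)).comp (MonoidHom.fst (ℤˣ × ℤˣ) ℤˣ) with hπ
  set τ' : (ℤˣ × ℤˣ) × ℤˣ →* Equiv.Perm Y.ι :=
    (invHom τ hττ).comp (MonoidHom.snd (ℤˣ × ℤˣ) ℤˣ) with hτ'
  set σ : (ℤˣ × ℤˣ) × ℤˣ → Fin 4 → Fin 4 :=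
    fun g i => if g.2 = 1 then i else (![1, 0, 3, 2] : Fin 4 → Fin 4) i with hσ
  have hneg : ¬ ((-1 : ℤˣ) = 1) := by decide
  have H1 : ∀ g j i, ρ g (ff j i) = ff (π g j) (σ g i) := by
    rintro ⟨h0, k⟩ j i
    show ρ (h0, k) (ρ (j, 1) (f0 i)) = ρ (h0 * j, 1) (f0 (σ (h0, k) i))
    have e1 : ρ (h0, k) (ρ (j, 1) (f0 i)) = ρ (h0 * j, 1) (ρ (1, k) (f0 i)) := by
      rw [← Equiv.Perm.mul_apply, ← Equiv.Perm.mul_apply, ← map_mul, ← map_mul]
      congr 2
      ext <;> simp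
    rw [e1]
    congr 1
    rcases unit_cases k with rfl | rfl
    · show ρ (1, 1) (f0 i) = f0 (if (1 : ℤˣ) = 1 then i else _)
      rw [if_pos rfl]
      have : ((1, 1) : (ℤˣ × ℤˣ) × ℤˣ) = 1 := rfl
      rw [this, map_one]
      rfl
    · show ρ (1, -1) (f0 i) = f0 (if (-1 : ℤˣ) = 1 then i else _)
      rw [if_neg hneg]
      exact hT i
  have H2 : ∀ g i, τ' g (f i) = f (σ g i) := by
    rintro ⟨h0, k⟩ i
    rcases unit_cases k with rfl | rfl
    · show invHom τ hττ 1 (f i) = f (if (1 : ℤˣ) = 1 then i else _)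
      rw [if_pos rfl, invHom_one]
    · show invHom τ hττ (-1) (f i) = f (if (-1 : ℤˣ) = 1 then i else _)
      rw [if_neg hneg, invHom_neg]
      exact hTf i
  have hτface : ∀ g S, IsFace Y.a S → IsFace Y.a (τ' g '' S) := by
    rintro ⟨h0, k⟩ S hS
    rcases unit_cases k with rfl | rfl
    · have : τ' (h0, 1) '' S = S := by
        have : ∀ x, τ' (h0, 1) x = x := fun x => invHom_one τ hττ x
        rw [show (τ' (h0, 1) : Y.ι → Y.ι) = id from funext this, Set.image_id]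
      rwa [this]
    · have : ∀ x, τ' (h0, -1) x = τ x := fun x => invHom_neg τ hττ x
      rw [show (τ' (h0, -1) : Y.ι → Y.ι) = τ from funext this]
      exact hτ S hS
  -- images of the free facet
  have hk1 : ∀ (h0 : ℤˣ × ℤˣ) (S : Set Y.ι), τ' (h0, 1) '' S = S := by
    intro h0 S
    have : ∀ x, τ' (h0, 1) x = x := fun x => invHom_one τ hττ x
    rw [show (τ' (h0, 1) : Y.ι → Y.ι) = id from funext this, Set.image_id]
  have hk2 : ∀ (h0 : ℤˣ × ℤˣ) (S : Set Y.ι), τ' (h0, -1) '' S = τ '' S := by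
    intro h0 S
    have : ∀ x, τ' (h0, -1) x = τ x := fun x => invHom_neg τ hττ x
    rw [show (τ' (h0, -1) : Y.ι → Y.ι) = τ from funext this]
  have hττi : ∀ S : Set Y.ι, τ '' (τ '' S) = S := by
    intro S
    rw [Set.image_image, show (fun x => τ (τ x)) = id from funext hττ, Set.image_id]
  have hτf : τ '' Set.range f = Set.range f := by
    rw [← Set.range_comp]
    ext x
    constructor
    · rintro ⟨i, rfl⟩
      exact ⟨_, (hTf i).symm⟩
    · rintro ⟨i, rfl⟩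
      refine ⟨![1, 0, 3, 2] i, ?_⟩
      show τ (f (![1, 0, 3, 2] i)) = f i
      rw [hTf]
      congr 1
      fin_cases i <;> rfl
  have hrank : ∀ g, rk Y.a (τ' g '' Set.range f') = 4 := by
    intro g
    have h1 : ∀ S ⊆ τ' g '' Set.range f', IsFace Y.a S := by
      intro S hS
      obtain ⟨S', hS', rfl⟩ := Set.subset_image_iff.1 hS
      exact hτface g _ (hf'.hered S' hS')
    rw [rk_hered (Set.toFinite _) h1, Set.ncard_image_of_injective _ (τ' g).injective,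
      ← Set.image_univ, Set.ncard_image_of_injective _ hf'.inj, Set.ncard_univ, Nat.card_fin]
  have hnot : ∀ g, ¬ τ' g '' Set.range f' ⊆ Set.range f := by
    rintro ⟨h0, k⟩ hs
    have h1 := eq_of_rk (hτface (h0, k) _ hf'.face) hs (by rw [hf.rank, hrank])
    rcases unit_cases k with rfl | rfl
    · rw [hk1] at h1
      exact hne' h1
    · rw [hk2] at h1
      apply hne'
      rw [← hττi (Set.range f'), h1, hτf]
  have hnot' : ∀ g, ¬ Set.range f ⊆ τ' g '' Set.range f' := by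
    intro g hs
    have h1 := hf.eq_of_sub (hrank g) hs
    exact hnot g h1.symm.subset
  have hrg : Set.range (fun i => emb C Y (ℤˣ × ℤˣ) ff f 1 (f' i)) =
      emb C Y (ℤˣ × ℤˣ) ff f 1 '' Set.range f' := by
    rw [← Set.range_comp]
    rfl
  have himg : ∀ g, gAct ρ π τ' H2 g '' Set.range (fun i => emb C Y (ℤˣ × ℤˣ) ff f 1 (f' i)) =
      emb C Y (ℤˣ × ℤˣ) ff f g.1 '' (τ' g '' Set.range f') := by
    intro g
    rw [hrg, gAct_image_emb H1 H2 hf.inj]
    have : π g 1 = g.1 := mul_one g.1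
    rw [this]
  refine ⟨{
    P := gluedC (by norm_num) h hsf hf
    G := (ℤˣ × ℤˣ) × ℤˣ
    ρ := gAct ρ π τ' H2
    hρ := fun g S hS => gAct_face h H1 H2 hf.inj hρ hτface g S hS
    f := fun i => emb C Y (ℤˣ × ℤˣ) ff f 1 (f' i)
    hf := glued_SF_emb h hsf hf 1 hf' hne'.symm
    free := ?_
    t := (1, -1)
    cert := ?_
    cnt := ?_ }⟩
  · rintro ⟨h0, k⟩ hg
    have hg' : emb C Y (ℤˣ × ℤˣ) ff f h0 '' (τ' (h0, k) '' Set.range f') =
        emb C Y (ℤˣ × ℤˣ) ff f 1 '' Set.range f' := by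
      rw [← hrg, ← himg (h0, k)]
      exact hg
    have h1 : h0 = 1 := by
      by_contra hcon
      exact emb_ne_emb h hf hcon (hrank _) (hnot' _) (hτface _ _ hf'.face) hg'
    subst h1
    have h2 : τ' (1, k) '' Set.range f' = Set.range f' :=
      (Set.image_injective.2 (emb_inj C Y (ℤˣ × ℤˣ) ff f hf.inj (fun j => (hsf j).inj) 1)) hg'
    rcases unit_cases k with rfl | rfl
    · rfl
    · rw [hk2] at h2
      exact absurd h2 hTf'
  · refine Cert.map (a := Y.a) (T := τ) (d := 4) (emb C Y (ℤˣ × ℤˣ) ff f 1)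
      (emb_inj C Y (ℤˣ × ℤˣ) ff f hf.inj (fun j => (hsf j).inj) 1) ∅ Set.finite_empty
      (by rw [Set.ncard_empty]) ?_ ?_ ?_ ?_ ?_ ?_ hcert
    · intro x hx
      exact absurd hx (Set.notMem_empty _)
    · intro y
      show gAct ρ π τ' H2 (1, -1) (emb C Y (ℤˣ × ℤˣ) ff f 1 y) = _
      rw [gAct_emb H1 H2 hf.inj]
      have e1 : π (1, -1) 1 = 1 := rfl
      have e2 : τ' (1, -1) y = τ y := invHom_neg τ hττ y
      rw [e1, e2]
    · intro x hx
      exact absurd hx (Set.notMem_empty _)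
    · rintro S S1 hS ⟨q1, q2, q3⟩
      exact ⟨fun hh => q1 (hh.trans hS), fun hh => q2 (hh.trans hS), fun hh => q3 (hh.trans hS)⟩
    · rintro S hS ⟨q1, -, -⟩ S0 hS0
      have : S0 = ∅ := Set.subset_empty_iff.1 hS0
      rw [this, Set.union_empty]
      exact (glued_face_emb h hsf hf 1 q1).2 hS
    · rintro S _ ⟨-, q2, q3⟩ ⟨h0, k⟩ hg
      rw [Set.union_empty] at hg
      change gAct ρ π τ' H2 (h0, k) '' Set.range (fun i => emb C Y (ℤˣ × ℤˣ) ff f 1 (f' i)) ⊆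
        emb C Y (ℤˣ × ℤˣ) ff f 1 '' S at hg
      rw [himg] at hg
      obtain ⟨y, hy, hyr⟩ := Set.not_subset.1 (hnot (h0, k))
      have h1 : emb C Y (ℤˣ × ℤˣ) ff f h0 y ∈ emb C Y (ℤˣ × ℤˣ) ff f 1 '' S := hg ⟨y, hy, rfl⟩
      rw [emb_new C Y (ℤˣ × ℤˣ) ff f h0 y hyr] at h1
      obtain ⟨y', -, hy'⟩ := h1
      have h2 : h0 = 1 := by
        by_cases hyr' : y' ∈ Set.range f
        · obtain ⟨i, rfl⟩ := hyr'
          rw [emb_f C Y (ℤˣ × ℤˣ) ff f hf.inj] at hy'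
          exact absurd hy' Sum.inl_ne_inr
        · rw [emb_new C Y (ℤˣ × ℤˣ) ff f 1 y' hyr'] at hy'
          exact (congrArg Prod.fst (Sum.inr_injective hy')).symm
      subst h2
      have h3 : τ' (1, k) '' Set.range f' ⊆ S :=
        (Set.image_subset_image_iff
          (emb_inj C Y (ℤˣ × ℤˣ) ff f hf.inj (fun j => (hsf j).inj) 1)).1 hg
      rcases unit_cases k with rfl | rfl
      · rw [hk1] at h3
        exact q2 h3
      · rw [hk2] at h3
        exact q3 h3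
  · have h1 := glued_cnt h hsf hne hf
    have h2 : Nat.card (ℤˣ × ℤˣ) = 4 := by
      rw [Nat.card_eq_fintype_card]
      rfl
    have h3 : Nat.card ((ℤˣ × ℤˣ) × ℤˣ) = 8 := by
      rw [Nat.card_eq_fintype_card]
      rfl
    have h4 : Nat.factorial 4 = 24 := rfl
    rw [h2, h4] at h1
    show fc a' (4 + 1) Set.univ = (κ + 324) * Nat.card ((ℤˣ × ℤˣ) × ℤˣ)
    rw [h3]
    have h5 : fc C.a (4 + 1) Set.univ = 8 * κ := hcnt
    have h6 : fc Y.a (4 + 1) Set.univ = 696 := hcY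
    omega

end Run7.h739
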