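import Pool.Agent.Run7.h739.Free

/-!
Basic facts on faces: restriction, linear images, simplex facets.
-/

namespace Run7.h739

open Module Function Run7.h249

section

variable {ι V : Type} [AddCommGroup V] [Module ℝ V] {a : ι → V}

lemma isFace_comp {κ : Type} {T : Set ι} (h : IsFace a T) (j : κ → ι) :
    IsFace (fun k => a (j k)) (j ⁻¹' T) := by
  obtain ⟨φ, h0, h1⟩ := h
  exact ⟨φ, fun k hk => h0 _ hk, fun k hk => h1 _ hk⟩

lemma rk_comp {κ : Type} (a : ι → V) (j : κ → ι) (S : Set κ) :
    rk (fun k => a (j k)) S = rk a (j '' S) := by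
  unfold rk
  rw [Set.image_image]

lemma isFace_lin {W : Type} [AddCommGroup W] [Module ℝ W] (A : V ≃ₗ[ℝ] W) (S : Set ι) :
    IsFace (fun i => A (a i)) S ↔ IsFace a S := by
  constructor
  · rintro ⟨φ, h0, h1⟩
    exact ⟨φ ∘ₗ A.toLinearMap, h0, h1⟩
  · rintro ⟨φ, h0, h1⟩
    refine ⟨φ ∘ₗ A.symm.toLinearMap, fun i hi => ?_, fun i hi => ?_⟩
    · show φ (A.symm (A (a i))) = 0
      rw [A.symm_apply_apply]
      exact h0 i hi
    · show 0 < φ (A.symm (A (a i)))
      rw [A.symm_apply_apply]
      exact h1 i hi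

lemma rk_lin_inj {W : Type} [AddCommGroup W] [Module ℝ W] (A : V →ₗ[ℝ] W) (hA : Injective A)
    (S : Set ι) : rk (fun i => A (a i)) S = rk a S := by
  unfold rk
  have : Submodule.span ℝ ((fun i => A (a i)) '' S) = (Submodule.span ℝ (a '' S)).map A := by
    rw [Submodule.map_span, Set.image_image]
  rw [this]
  exact (LinearEquiv.finrank_eq (Submodule.equivMapOfInjective A hA _)).symm

lemma rk_lin {W : Type} [AddCommGroup W] [Module ℝ W] (A : V ≃ₗ[ℝ] W) (S : Set ι) :
    rk (fun i => A (a i)) S = rk a S := rk_lin_inj A.toLinearMap A.injective S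

/-- A functional with prescribed values on a linearly independent family. -/
lemma exists_dual {κ : Type} {v : κ → V} (h : LinearIndependent ℝ v) (c : κ → ℝ) :
    ∃ φ : Dual ℝ V, ∀ k, φ (v k) = c k := by
  obtain ⟨g, hg⟩ := LinearMap.exists_extend ((Basis.span h).constr ℝ c)
  refine ⟨g, fun k => ?_⟩
  have h1 : (Basis.span h k : V) = v k := congrArg Subtype.val (Basis.span_apply h k)
  have h2 : g ((Submodule.span ℝ (Set.range v)).subtype (Basis.span h k)) = c k := by
    rw [← LinearMap.comp_apply, hg, Basis.constr_basis]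
  rw [← h2]
  show g (v k) = g (Basis.span h k : V)
  rw [h1]

variable [Finite ι] [FiniteDimensional ℝ V]

omit [Finite ι] in
lemma rk_le_ncard {S : Set ι} (hS : S.Finite) : rk a S ≤ S.ncard := by
  classical
  unfold rk
  have h1 : (a '' S) = ((hS.toFinset.image a : Finset V) : Set V) := by
    rw [Finset.coe_image, Set.Finite.coe_toFinset]
  rw [h1]
  refine le_trans (finrank_span_finset_le_card _) ?_
  rw [Set.ncard_eq_toFinset_card S hS]
  exact Finset.card_image_le

omit [Finite ι] in
/-- If all subsets of `S` are faces then the rank of `S` is its number of elements. -/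
lemma rk_hered {S : Set ι} (hS : S.Finite) (h : ∀ T ⊆ S, IsFace a T) : rk a S = S.ncard := by
  apply le_antisymm (rk_le_ncard hS)
  induction S, hS using Set.Finite.induction_on with
  | empty => rw [Set.ncard_empty]; exact Nat.zero_le _
  | @insert i S hi hS ih =>
    have h1 := ih (fun T hT => h T (hT.trans (Set.subset_insert _ _)))
    obtain ⟨φ, f0, f1⟩ := h S (Set.subset_insert _ _)
    have h2 := rk_insert_gt f0 (f1 i hi).ne'
    rw [Set.ncard_insert_of_notMem hi hS]
    omega

/-- If all subsets of `T` are faces then the number of chains is a factorial. -/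
lemma fc_hered : ∀ (n : ℕ) (T : Set ι), T.ncard = n →
    (∀ S ⊆ T, IsFace a S) → fc a n T = n.factorial := by
  intro n
  induction n with
  | zero => intros; rfl
  | succ n ih =>
    intro T hn hT
    rw [fc_succ]
    have hfin : T.Finite := Set.toFinite T
    have e : ∑ᶠ S ∈ {S : Set ι | IsFace a S ∧ rk a S = n ∧ S ⊆ T}, fc a n S
        = ∑ᶠ i ∈ T, n.factorial := by
      symm
      apply finsum_mem_eq_of_bijOn (fun i => T \ {i})
      · refine ⟨?_, ?_, ?_⟩
        · intro i hi
          have hsub : T \ {i} ⊆ T := Set.diff_subset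
          refine ⟨hT _ hsub, ?_, hsub⟩
          rw [rk_hered (Set.toFinite _) (fun S hS => hT S (hS.trans hsub)),
            Set.ncard_diff_singleton_of_mem hi, hn]
          rfl
        · intro i hi j hj hij
          by_contra hne
          have h1 : i ∈ T \ {j} := ⟨hi, by simpa using hne⟩
          have hij' : T \ {i} = T \ {j} := hij
          rw [← hij'] at h1
          exact h1.2 rfl
        · rintro S ⟨hS, hr, hST⟩
          rw [rk_hered (Set.toFinite _) (fun S' hS' => hT S' (hS'.trans hST))] at hr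
          have h1 : (T \ S).ncard = 1 := by
            rw [Set.ncard_diff hST (Set.toFinite S), hn, hr]
            omega
          obtain ⟨i, hi⟩ := Set.ncard_eq_one.1 h1
          have hiT : i ∈ T \ S := by rw [hi]; rfl
          refine ⟨i, hiT.1, ?_⟩
          show T \ {i} = S
          rw [← hi, Set.diff_diff_cancel_left hST]
      · intro i hi
        have hsub : T \ {i} ⊆ T := Set.diff_subset
        exact (ih (T \ {i}) (by rw [Set.ncard_diff_singleton_of_mem hi, hn]; rfl)
          (fun S hS => hT S (hS.trans hsub))).symm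
    rw [e, finsum_mem_eq_finite_toFinset_sum _ hfin, Finset.sum_const,
      ← Set.ncard_eq_toFinset_card T hfin, hn, Nat.factorial_succ, smul_eq_mul]

omit [Finite ι] in
lemma SF.of_hered {d : ℕ} {f : Fin d → ι} (hf : Injective f)
    (h : ∀ S ⊆ Set.range f, IsFace a S) : SF a f := by
  refine ⟨hf, h _ (subset_refl _), ?_⟩
  rw [rk_hered (Set.finite_range f) h, ← Set.image_univ, Set.ncard_image_of_injective _ hf,
    Set.ncard_univ, Nat.card_fin]

omit [Finite ι] [FiniteDimensional ℝ V] in
lemma SF.li {d : ℕ} {f : Fin d → ι} (hf : SF a f) : LinearIndependent ℝ (fun i => a (f i)) := by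
  rw [linearIndependent_iff_card_eq_finrank_span]
  have h := hf.rank
  unfold rk at h
  rw [← Set.range_comp] at h
  rw [Fintype.card_fin]
  exact h.symm

omit [FiniteDimensional ℝ V] in
lemma SF.hered {d : ℕ} {f : Fin d → ι} (hf : SF a f) : ∀ S ⊆ Set.range f, IsFace a S := by
  intro S hS
  classical
  obtain ⟨χ, hχ⟩ := exists_dual hf.li (fun i => if f i ∈ S then 0 else 1)
  have h := IsFace.sub hf.face (χ := χ) (by
    rintro _ ⟨i, rfl⟩
    rw [hχ i]
    split_ifs <;> norm_num)
  have e : {i | i ∈ Set.range f ∧ χ (a i) = 0} = S := by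
    ext i
    constructor
    · rintro ⟨⟨k, rfl⟩, hk⟩
      rw [hχ k] at hk
      by_contra hn
      rw [if_neg hn] at hk
      exact one_ne_zero hk
    · intro hi
      obtain ⟨k, rfl⟩ := hS hi
      exact ⟨⟨k, rfl⟩, by rw [hχ k, if_pos hi]⟩
  rwa [e] at h

lemma SF.fc {d : ℕ} {f : Fin d → ι} (hf : SF a f) : fc a d (Set.range f) = d.factorial := by
  apply fc_hered d _ _ hf.hered
  rw [← Set.image_univ, Set.ncard_image_of_injective _ hf.inj, Set.ncard_univ, Nat.card_fin]

omit [Finite ι] in
lemma SF.eq_of_sub {d : ℕ} {f : Fin d → ι} (hf : SF a f) {S : Set ι}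
    (hr : rk a S = d) (h : Set.range f ⊆ S) : Set.range f = S :=
  eq_of_rk hf.face h (by rw [hr, hf.rank])

omit [Finite ι] [FiniteDimensional ℝ V] in
/-- Faces are determined by images of sub-configurations. -/
lemma isFace_preimage_iff {κ W : Type} [AddCommGroup W] [Module ℝ W] {b : κ → W} {j : κ → ι}
    (A : W ≃ₗ[ℝ] V) (h : ∀ k, a (j k) = A (b k)) {T : Set ι} (hT : IsFace a T) :
    IsFace b (j ⁻¹' T) := by
  have h1 := isFace_comp hT j
  have h2 : (fun k => a (j k)) = fun k => A (b k) := funext h
  rw [h2, isFace_lin] at h1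
  exact h1

end

end Run7.h739
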