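import Pool.Agent.Run7.h739.Pyr

/-!
Bipyramids.
-/

namespace Run7.h739

open Module Function Run7.h249

section

variable {ι V : Type} [AddCommGroup V] [Module ℝ V]

/-- The sum of all vectors. -/
noncomputable def ctr [Finite ι] (a : ι → V) : V :=
  letI := Fintype.ofFinite ι
  ∑ i, a i

lemma ctr_pos [Finite ι] {a : ι → V} {φ : Dual ℝ V} (h : ∀ i, 0 ≤ φ (a i))
    (h' : ∃ i, 0 < φ (a i)) : 0 < φ (ctr a) := by
  letI := Fintype.ofFinite ι
  show 0 < φ (∑ i, a i)
  rw [map_sum]
  obtain ⟨i, hi⟩ := h'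
  exact Finset.sum_pos' (fun i _ => h i) ⟨i, Finset.mem_univ _, hi⟩

lemma ctr_zero [Finite ι] {a : ι → V} {φ : Dual ℝ V} (h : ∀ i, φ (a i) = 0) :
    φ (ctr a) = 0 := by
  letI := Fintype.ofFinite ι
  show φ (∑ i, a i) = 0
  rw [map_sum]
  exact Finset.sum_eq_zero (fun i _ => h i)

/-- The bipyramid over a configuration. -/
noncomputable def bipA [Finite ι] (a : ι → V) : ι ⊕ Bool → V × ℝ
  | Sum.inl i => (a i, 0)
  | Sum.inr true => (ctr a, 1)
  | Sum.inr false => (ctr a, -1)

variable [Finite ι] {a : ι → V}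

lemma bip_face (T : Set (ι ⊕ Bool)) : IsFace (bipA a) T ↔ T = Set.univ ∨
    (IsFace a (Sum.inl ⁻¹' T) ∧ Sum.inl ⁻¹' T ≠ Set.univ ∧
      ¬ (Sum.inr true ∈ T ∧ Sum.inr false ∈ T)) := by
  classical
  constructor
  · rintro ⟨ψ, h0, h1⟩
    have hnn := IsFace.nonneg h0 h1
    set φ : Dual ℝ V := ψ ∘ₗ LinearMap.inl ℝ V ℝ with hφ
    have hsplit : ∀ (v : V) (t : ℝ), ψ (v, t) = φ v + t * ψ (0, 1) := by
      intro v t
      have : ((v, t) : V × ℝ) = (v, 0) + t • ((0 : V), (1 : ℝ)) := by
        ext <;> simp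
      rw [this, map_add, map_smul, smul_eq_mul]
      rfl
    have hS : IsFace a (Sum.inl ⁻¹' T) :=
      ⟨φ, fun i hi => h0 (Sum.inl i) hi, fun i hi => h1 (Sum.inl i) hi⟩
    by_cases hT : T = Set.univ
    · exact Or.inl hT
    right
    refine ⟨hS, ?_, ?_⟩
    · intro hu
      apply hT
      have hz : ∀ i, φ (a i) = 0 := by
        intro i
        have : i ∈ Sum.inl ⁻¹' T := by rw [hu]; exact Set.mem_univ _
        exact h0 (Sum.inl i) this
      have hc := ctr_zero hz
      have e1 : ψ (bipA a (Sum.inr true)) = φ (ctr a) + 1 * ψ (0, 1) := hsplit _ _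
      have e2 : ψ (bipA a (Sum.inr false)) = φ (ctr a) + (-1) * ψ (0, 1) := hsplit _ _
      have n1 := hnn (Sum.inr true)
      have n2 := hnn (Sum.inr false)
      ext x
      simp only [Set.mem_univ, iff_true]
      by_contra hx
      have hpos := h1 x hx
      rcases x with i | b
      · have : i ∈ Sum.inl ⁻¹' T := by rw [hu]; exact Set.mem_univ _
        exact hx this
      · cases b <;> linarith
    · rintro ⟨ht, hf⟩
      apply hT
      have e1 : ψ (bipA a (Sum.inr true)) = φ (ctr a) + 1 * ψ (0, 1) := hsplit _ _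
      have e2 : ψ (bipA a (Sum.inr false)) = φ (ctr a) + (-1) * ψ (0, 1) := hsplit _ _
      have z1 := h0 _ ht
      have z2 := h0 _ hf
      have hc : φ (ctr a) = 0 := by linarith
      ext x
      simp only [Set.mem_univ, iff_true]
      by_contra hx
      have hpos := h1 x hx
      rcases x with i | b
      · have := ctr_pos (φ := φ) (a := a) (fun i => hnn (Sum.inl i)) ⟨i, hpos⟩
        linarith
      · cases b
        · exact hx hf
        · exact hx ht
  · rintro (h | ⟨⟨φ, h0, h1⟩, h2, h3⟩)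
    · rw [h]
      exact IsFace.univ
    · have hnn := IsFace.nonneg h0 h1
      obtain ⟨i0, hi0⟩ := (Set.ne_univ_iff_exists_notMem _).1 h2
      have hc : 0 < φ (ctr a) := ctr_pos hnn ⟨i0, h1 i0 hi0⟩
      refine ⟨φ ∘ₗ LinearMap.fst ℝ V ℝ + ((if Sum.inr true ∈ T then -φ (ctr a) else 0) +
        (if Sum.inr false ∈ T then φ (ctr a) else 0)) • LinearMap.snd ℝ V ℝ, ?_, ?_⟩
      · rintro (i | b) hi
        · show φ (a i) + _ * 0 = 0
          rw [h0 i hi]
          ring
        · cases b
          · show φ (ctr a) + _ * (-1) = 0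
            have : Sum.inr true ∉ T := fun h => h3 ⟨h, hi⟩
            rw [if_neg this, if_pos hi]
            ring
          · show φ (ctr a) + _ * 1 = 0
            have : Sum.inr false ∉ T := fun h => h3 ⟨hi, h⟩
            rw [if_neg this, if_pos hi]
            ring
      · rintro (i | b) hi
        · show 0 < φ (a i) + _ * 0
          have := h1 i hi
          linarith
        · cases b
          · show 0 < φ (ctr a) + _ * (-1)
            rw [if_neg hi]
            split_ifs <;> linarith
          · show 0 < φ (ctr a) + _ * 1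
            rw [if_neg hi]
            split_ifs <;> linarith

lemma pre_inl (S : Set ι) : Sum.inl ⁻¹' (Sum.inl '' S : Set (ι ⊕ Bool)) = S :=
  Set.preimage_image_eq _ Sum.inl_injective

lemma pre_ins (b : Bool) (S : Set ι) :
    Sum.inl ⁻¹' (insert (Sum.inr b) (Sum.inl '' S) : Set (ι ⊕ Bool)) = S := by
  ext i
  simp

lemma bip_face_inl {S : Set ι} (hS : S ≠ Set.univ) :
    IsFace (bipA a) (Sum.inl '' S) ↔ IsFace a S := by
  rw [bip_face, pre_inl]
  constructor
  · rintro (h | h)
    · exfalso
      have : (Sum.inr true : ι ⊕ Bool) ∈ Sum.inl '' S := by rw [h]; exact Set.mem_univ _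
      obtain ⟨i, -, hi⟩ := this
      exact Sum.inl_ne_inr hi
    · exact h.1
  · intro h
    refine Or.inr ⟨h, hS, ?_⟩
    rintro ⟨⟨i, -, hi⟩, -⟩
    exact Sum.inl_ne_inr hi

lemma bip_face_ins {S : Set ι} (hS : S ≠ Set.univ) (b : Bool) :
    IsFace (bipA a) (insert (Sum.inr b) (Sum.inl '' S)) ↔ IsFace a S := by
  rw [bip_face, pre_ins]
  have hnot : ¬ ((Sum.inr true : ι ⊕ Bool) ∈ insert (Sum.inr b) (Sum.inl '' S) ∧
      (Sum.inr false : ι ⊕ Bool) ∈ insert (Sum.inr b) (Sum.inl '' S)) := by
    cases b <;> simp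
  constructor
  · rintro (h | h)
    · exfalso
      apply hnot
      rw [h]
      exact ⟨Set.mem_univ _, Set.mem_univ _⟩
    · exact h.1
  · intro h
    exact Or.inr ⟨h, hS, hnot⟩

lemma sum_cases {T : Set (ι ⊕ Bool)} (h : ¬ (Sum.inr true ∈ T ∧ Sum.inr false ∈ T)) :
    T = Sum.inl '' (Sum.inl ⁻¹' T) ∨
      ∃ b, T = insert (Sum.inr b) (Sum.inl '' (Sum.inl ⁻¹' T)) := by
  by_cases h1 : Sum.inr true ∈ T
  · right
    refine ⟨true, ?_⟩
    ext x
    rcases x with i | b
    · simp
    · cases b
      · simp only [Set.mem_insert_iff, Set.mem_image, reduceCtorEq, and_false, exists_false,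
          Sum.inr.injEq, Bool.false_eq_true, or_false, iff_false]
        exact fun h2 => h ⟨h1, h2⟩
      · simp [h1]
  · by_cases h2 : Sum.inr false ∈ T
    · right
      refine ⟨false, ?_⟩
      ext x
      rcases x with i | b
      · simp
      · cases b
        · simp [h2]
        · simp [h1]
    · left
      ext x
      rcases x with i | b
      · simp
      · cases b
        · simp [h2]
        · simp [h1]

lemma bip_rk_inl (S : Set ι) : rk (bipA a) (Sum.inl '' S) = rk a S := by
  rw [← rk_comp (bipA a) Sum.inl S]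
  exact rk_lin_inj (LinearMap.inl ℝ V ℝ) LinearMap.inl_injective S

variable [FiniteDimensional ℝ V]

lemma bip_rk_ins (b : Bool) (S : Set ι) :
    rk (bipA a) (insert (Sum.inr b) (Sum.inl '' S)) = rk a S + 1 := by
  rw [← bip_rk_inl (a := a) S]
  apply le_antisymm rk_insert_le
  apply rk_insert_gt (φ := LinearMap.snd ℝ V ℝ)
  · rintro _ ⟨i, -, rfl⟩
    rfl
  · cases b
    · show (-1 : ℝ) ≠ 0
      norm_num
    · show (1 : ℝ) ≠ 0
      exact one_ne_zero

omit [FiniteDimensional ℝ V] in
lemma bip_fc_inl (r : ℕ) {T : Set ι} (hT : T ≠ Set.univ) :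
    fc (bipA a) r (Sum.inl '' T) = fc a r T :=
  fc_transfer Sum.inl_injective r T (fun _ hS => bip_face_inl
    (fun h => hT (Set.eq_univ_of_univ_subset (h ▸ hS)))) (fun S _ => bip_rk_inl S)

/-- The half of the bipyramid. -/
def halfJ (b : Bool) : Option ι → ι ⊕ Bool
  | none => Sum.inr b
  | some i => Sum.inl i

omit [Finite ι] in
lemma halfJ_inj (b : Bool) : Injective (halfJ (ι := ι) b) := by
  rintro (_ | i) (_ | k) h
  · rfl
  · exact absurd h.symm Sum.inl_ne_inr
  · exact absurd h Sum.inl_ne_inr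
  · exact congrArg some (Sum.inl_injective h)

omit [Finite ι] in
lemma halfJ_some (b : Bool) (S : Set ι) :
    halfJ b '' (some '' S) = (Sum.inl '' S : Set (ι ⊕ Bool)) := by
  rw [Set.image_image]
  rfl

omit [Finite ι] in
lemma halfJ_none (b : Bool) (S : Set ι) :
    halfJ b '' (insert none (some '' S)) = (insert (Sum.inr b) (Sum.inl '' S) : Set (ι ⊕ Bool)) := by
  rw [Set.image_insert_eq, halfJ_some]
  rfl

lemma bip_fc_ins (b : Bool) {T : Set ι} (hT : T ≠ Set.univ) (r : ℕ) (h : IsFace a T)
    (hr : rk a T = r) :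
    fc (bipA a) (r + 1) (insert (Sum.inr b) (Sum.inl '' T)) = (r + 1) * fc a r T := by
  rw [← pyr_fc_none r T h hr, ← halfJ_none]
  apply fc_transfer (halfJ_inj b)
  · intro S hS
    have h3 : some ⁻¹' S ≠ Set.univ := by
      intro hu
      apply hT
      apply Set.eq_univ_of_univ_subset
      rw [← hu]
      intro i hi
      have := hS hi
      simpa using this
    rcases opt_cases S with h | h
    · rw [h, halfJ_some, bip_face_inl h3, pyr_face_some]
    · rw [h, halfJ_none, bip_face_ins h3, pyr_face_none]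
  · intro S _
    rcases opt_cases S with h | h
    · rw [h, halfJ_some, bip_rk_inl, pyr_rk_some]
    · rw [h, halfJ_none, bip_rk_ins, pyr_rk_none]

lemma bip_rk_univ {d : ℕ} (hV : finrank ℝ V = d + 1) (hr : rk a Set.univ = d + 1) :
    rk (bipA a) Set.univ = d + 1 + 1 := by
  apply le_antisymm
  · have h := Submodule.finrank_le (Submodule.span ℝ (bipA a '' Set.univ))
    rw [finrank_prod, hV, finrank_self] at h
    exact h
  · rw [← hr, ← bip_rk_ins (a := a) true Set.univ]
    exact rk_mono (Set.subset_univ _)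

lemma bip_cnt {d : ℕ} (hV : finrank ℝ V = d + 1) (hr : rk a Set.univ = d + 1) :
    fc (bipA a) (d + 1 + 1) Set.univ = 2 * (d + 1) * fc a (d + 1) Set.univ := by
  have hru := bip_rk_univ hV hr
  set A : Bool → Set (Set (ι ⊕ Bool)) := fun b =>
    ((fun S : Set ι => (insert (Sum.inr b) (Sum.inl '' S) : Set (ι ⊕ Bool))) ''
      {S : Set ι | IsFace a S ∧ rk a S = d ∧ S ⊆ Set.univ}) with hA
  have hproper : ∀ S : Set ι, rk a S = d → S ≠ Set.univ := by
    rintro S hS rfl
    omega
  have hset : {S' : Set (ι ⊕ Bool) | IsFace (bipA a) S' ∧ rk (bipA a) S' = d + 1 ∧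
      S' ⊆ Set.univ} = A true ∪ A false := by
    ext S'
    constructor
    · rintro ⟨h1, h2, -⟩
      rw [bip_face] at h1
      rcases h1 with h1 | ⟨h1, h3, h4⟩
      · exfalso
        rw [h1] at h2
        omega
      · rcases sum_cases h4 with h | ⟨b, h⟩
        · exfalso
          apply h3
          rw [h, bip_rk_inl] at h2
          exact eq_of_rk h1 (Set.subset_univ _) (by omega)
        · rw [h, bip_rk_ins] at h2
          cases b
          · right
            exact ⟨_, ⟨h1, by omega, Set.subset_univ _⟩, h.symm⟩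
          · left
            exact ⟨_, ⟨h1, by omega, Set.subset_univ _⟩, h.symm⟩
    · rintro (⟨S, ⟨h1, h2, -⟩, rfl⟩ | ⟨S, ⟨h1, h2, -⟩, rfl⟩)
      · exact ⟨(bip_face_ins (hproper S h2) true).2 h1, by rw [bip_rk_ins, h2],
          Set.subset_univ _⟩
      · exact ⟨(bip_face_ins (hproper S h2) false).2 h1, by rw [bip_rk_ins, h2],
          Set.subset_univ _⟩
  have hdisj : Disjoint (A true) (A false) := by
    rw [Set.disjoint_left]
    rintro _ ⟨S, -, rfl⟩ ⟨S', -, h⟩
    have h' : (insert (Sum.inr false) (Sum.inl '' S') : Set (ι ⊕ Bool))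
      = insert (Sum.inr true) (Sum.inl '' S) := h
    have : (Sum.inr false : ι ⊕ Bool) ∈ insert (Sum.inr true) (Sum.inl '' S) := by
      rw [← h']
      exact Set.mem_insert _ _
    simp at this
  have hsum : ∀ b, ∑ᶠ S' ∈ A b, fc (bipA a) (d + 1) S' = (d + 1) * fc a (d + 1) Set.univ := by
    intro b
    rw [hA, finsum_mem_image, fc_succ, mul_finsum_mem]
    · apply finsum_mem_congr rfl
      rintro S ⟨h1, h2, -⟩
      exact bip_fc_ins b (hproper S h2) d h1 h2
    · intro S _ S' _ h
      have h' : (insert (Sum.inr b) (Sum.inl '' S) : Set (ι ⊕ Bool))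
        = insert (Sum.inr b) (Sum.inl '' S') := h
      rw [← pre_ins b S, ← pre_ins b S', h']
  rw [fc_succ, hset, finsum_mem_union hdisj (Set.toFinite _) (Set.toFinite _), hsum, hsum]
  ring

end

/-- The bipyramid. -/
noncomputable def bipC {d : ℕ} (hd : 1 ≤ d) (P : Cfg d) : Cfg (d + 1) where
  ι := P.ι ⊕ Bool
  V := P.V × ℝ
  a := bipA P.a
  hV := by rw [finrank_prod, P.hV, finrank_self]
  hrk := bip_rk_univ P.hV P.hrk
  pt := by
    rw [bip_face, Set.preimage_empty]
    refine Or.inr ⟨P.pt, ?_, by simp⟩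
    intro h
    have h1 := P.hrk
    rw [← h, rk_empty] at h1
    omega
  vert := by
    have hne : (∅ : Set P.ι) ≠ Set.univ := by
      intro h
      have h1 := P.hrk
      rw [← h, rk_empty] at h1
      omega
    have hne1 : ∀ i : P.ι, ({i} : Set P.ι) ≠ Set.univ := by
      intro i h
      have h1 := P.hrk
      have h2 := rk_le_ncard (a := P.a) (Set.finite_singleton i)
      rw [Set.ncard_singleton, h] at h2
      omega
    rintro (i | b)
    · have h := (bip_face_inl (a := P.a) (hne1 i)).2 (P.vert i)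
      rwa [Set.image_singleton] at h
    · have h := (bip_face_ins (a := P.a) hne b).2 P.pt
      rw [Set.image_empty] at h
      simpa using h

/-- The halves over a simplex facet. -/
lemma bip_SF {ι V : Type} [AddCommGroup V] [Module ℝ V] [Finite ι] [FiniteDimensional ℝ V]
    {a : ι → V} {d : ℕ} {f : Fin d → ι} (hf : SF a f) (hne : Set.range f ≠ Set.univ) (b : Bool) :
    SF (bipA a) (Fin.cons (Sum.inr b) (fun i => Sum.inl (f i)) : Fin (d + 1) → ι ⊕ Bool) := by
  apply SF.of_hered
  · rw [Fin.cons_injective_iff]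
    refine ⟨?_, ?_⟩
    · rintro ⟨i, hi⟩
      exact Sum.inl_ne_inr hi
    · intro i j h
      exact hf.inj (Sum.inl_injective h)
  · intro S hS
    have hsub : Sum.inl ⁻¹' S ⊆ Set.range f := by
      intro i hi
      obtain ⟨k, hk⟩ := hS hi
      refine Fin.cases (fun hk => ?_) (fun k hk => ?_) k hk
      · rw [Fin.cons_zero] at hk
        exact absurd hk.symm Sum.inl_ne_inr
      · rw [Fin.cons_succ] at hk
        exact ⟨k, Sum.inl_injective hk⟩
    rw [bip_face]
    refine Or.inr ⟨hf.hered _ hsub, ?_, ?_⟩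
    · intro h
      apply hne
      apply Set.eq_univ_of_univ_subset
      rw [← h]
      exact hsub
    · have key : ∀ b', (Sum.inr b' : ι ⊕ Bool) ∈ S → b' = b := by
        intro b' hb
        obtain ⟨k, hk⟩ := hS hb
        refine Fin.cases (fun hk => ?_) (fun k hk => ?_) k hk
        · rw [Fin.cons_zero] at hk
          exact (Sum.inr_injective hk).symm
        · rw [Fin.cons_succ] at hk
          exact absurd hk Sum.inl_ne_inr
      rintro ⟨h1, h2⟩
      have e1 := key _ h1
      have e2 := key _ h2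
      rw [← e2] at e1
      exact absurd e1 (by decide)

end Run7.h739
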