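import Pool.Agent.Run7.h739.DatOps

/-!
Operations on blocks, and the numbers of flags of blocks modulo every integer.
-/

namespace Run7.h739

open Module Function Run7.h249

section simplex

variable (d : ℕ)

/-- The homogenised simplex. -/
def simA : Fin (d + 1) → (Fin (d + 1) → ℝ) := fun i => Pi.single i 1

lemma sim_face (S : Set (Fin (d + 1))) : IsFace (simA d) S := by
  classical
  refine ⟨∑ i, (if i ∈ S then (0 : ℝ) else 1) • LinearMap.proj i, ?_, ?_⟩
  · intro i hi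
    simp only [simA, LinearMap.sum_apply, LinearMap.smul_apply, LinearMap.proj_apply,
      smul_eq_mul, Pi.single_apply]
    rw [Finset.sum_eq_single i]
    · rw [if_pos hi, zero_mul]
    · intro k _ hk
      rw [if_neg hk, mul_zero]
    · intro h
      exact absurd (Finset.mem_univ _) h
  · intro i hi
    simp only [simA, LinearMap.sum_apply, LinearMap.smul_apply, LinearMap.proj_apply,
      smul_eq_mul, Pi.single_apply]
    rw [Finset.sum_eq_single i]
    · rw [if_neg hi, if_pos rfl]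
      norm_num
    · intro k _ hk
      rw [if_neg hk, mul_zero]
    · intro h
      exact absurd (Finset.mem_univ _) h

/-- The simplex. -/
def simC : Cfg d where
  ι := Fin (d + 1)
  V := Fin (d + 1) → ℝ
  a := simA d
  hV := by rw [Module.finrank_fin_fun]
  hrk := by
    rw [rk_hered (Set.toFinite _) (fun T _ => sim_face d T), Set.ncard_univ, Nat.card_fin]
  pt := sim_face d ∅
  vert := fun i => sim_face d {i}

lemma sim_SF (f : Fin d → Fin (d + 1)) (hf : Injective f) : SF (simA d) f :=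
  SF.of_hered hf (fun S _ => sim_face d S)

/-- The simplex as a block. -/
def simBlk (hd : 1 ≤ d) : Blk d (d + 1).factorial where
  Y := simC d
  f := (Fin.succ : Fin d → Fin (d + 1))
  g := (Fin.castSucc : Fin d → Fin (d + 1))
  hf := sim_SF d _ (Fin.succ_injective d)
  hg := sim_SF d _ (Fin.castSucc_injective d)
  ne := by
    intro h
    have h1 : (0 : Fin (d + 1)) ∈ Set.range (Fin.succ : Fin d → Fin (d + 1)) := by
      have h2 : Set.range (Fin.succ : Fin d → Fin (d + 1)) =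
        Set.range (Fin.castSucc : Fin d → Fin (d + 1)) := h
      rw [h2]
      exact ⟨⟨0, by omega⟩, rfl⟩
    obtain ⟨i, hi⟩ := h1
    exact Fin.succ_ne_zero i hi
  cnt := by
    show fc (simA d) (d + 1) (Set.univ : Set (Fin (d + 1))) = _
    apply fc_hered _ _ _ (fun S _ => sim_face d S)
    rw [Set.ncard_univ, Nat.card_fin]

end simplex

/-- The pyramid over a block. -/
def pyrBlk {d N : ℕ} (B : Blk d N) : Blk (d + 1) ((d + 2) * N) where
  Y := pyrC B.Y
  f := (Fin.cons none (fun i => some (B.f i)) : Fin (d + 1) → Option B.Y.ι)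
  g := (Fin.cons none (fun i => some (B.g i)) : Fin (d + 1) → Option B.Y.ι)
  hf := pyr_SF B.hf
  hg := pyr_SF B.hg
  ne := by
    intro h
    have h1 : Set.range (Fin.cons none (fun i => some (B.f i)) : Fin (d + 1) → Option B.Y.ι) =
      Set.range (Fin.cons none (fun i => some (B.g i)) : Fin (d + 1) → Option B.Y.ι) := h
    rw [range_cons, range_cons] at h1
    apply B.ne
    rw [← pre_none (Set.range B.f), h1, pre_none]
  cnt := by rw [pyr_cnt, B.cnt]

/-- The bipyramid over a block. -/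
noncomputable def bipBlk {d N : ℕ} (hd : 1 ≤ d) (B : Blk d N) :
    Blk (d + 1) (2 * (d + 1) * N) where
  Y := bipC hd B.Y
  f := (Fin.cons (Sum.inr true) (fun i => Sum.inl (B.f i)) : Fin (d + 1) → B.Y.ι ⊕ Bool)
  g := (Fin.cons (Sum.inr true) (fun i => Sum.inl (B.g i)) : Fin (d + 1) → B.Y.ι ⊕ Bool)
  hf := bip_SF B.hf B.hf.ne_univ true
  hg := bip_SF B.hg B.hg.ne_univ true
  ne := by
    intro h
    have h1 : Set.range (Fin.cons (Sum.inr true) (fun i => Sum.inl (B.f i)) :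
        Fin (d + 1) → B.Y.ι ⊕ Bool) =
      Set.range (Fin.cons (Sum.inr true) (fun i => Sum.inl (B.g i)) :
        Fin (d + 1) → B.Y.ι ⊕ Bool) := h
    rw [range_cons', range_cons'] at h1
    apply B.ne
    rw [← pre_ins true (Set.range B.f), h1, pre_ins]
  cnt := by
    have h1 := bip_cnt (a := B.Y.a) B.Y.hV B.Y.hrk
    show fc (bipA B.Y.a) (d + 1 + 1) Set.univ = _
    rw [h1, B.cnt]

/-- The connected sum of two blocks. -/
theorem glueBlk {d N N1 N2 : ℕ} (hd : 2 ≤ d) (B1 : Blk d N1) (B2 : Blk d N2)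
    (hN : N + 2 * d.factorial = N1 + N2) : Nonempty (Blk d N) := by
  have hne : ∀ j j' : Unit, Set.range (fun i => B1.g i) = Set.range (fun i => B1.g i) →
      j = j' := fun j j' _ => rfl
  obtain ⟨a', h⟩ := exists_glued B1.Y B2.Y Unit (fun _ => B1.g) B2.f (fun _ => B1.hg) hne B2.hf
  refine ⟨{
    Y := gluedC hd h (fun _ => B1.hg) B2.hf
    f := fun i => Sum.inl (B1.f i)
    g := fun i => emb B1.Y B2.Y Unit (fun _ => B1.g) B2.f () (B2.g i)
    hf := glued_SF_inl h (fun _ => B1.hg) B1.hf (fun _ => B1.ne.symm)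
    hg := glued_SF_emb h (fun _ => B1.hg) B2.hf () B2.hg B2.ne
    ne := ?_
    cnt := ?_ }⟩
  · intro he
    have e1 : Set.range (fun i => (Sum.inl (B1.f i) : GI B1.Y B2.Y Unit B2.f)) =
        Sum.inl '' Set.range B1.f := by
      rw [← Set.range_comp]
      rfl
    have e2 : Set.range (fun i => emb B1.Y B2.Y Unit (fun _ => B1.g) B2.f () (B2.g i)) =
        emb B1.Y B2.Y Unit (fun _ => B1.g) B2.f () '' Set.range B2.g := by
      rw [← Set.range_comp]
      rfl
    have he' : Set.range (fun i => (Sum.inl (B1.f i) : GI B1.Y B2.Y Unit B2.f)) =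
      Set.range (fun i => emb B1.Y B2.Y Unit (fun _ => B1.g) B2.f () (B2.g i)) := he
    rw [e1, e2] at he'
    exact inl_ne_emb h (fun _ => B1.hg) B2.hf B1.hf.rank
      (fun hs => B1.ne.symm (B1.hg.eq_of_sub B1.hf.rank hs)) B1.hf.face he'
  · have h1 := glued_cnt h (fun _ => B1.hg) hne B2.hf
    rw [B1.cnt, B2.cnt, Nat.card_unique, one_mul, one_mul] at h1
    show fc a' (d + 1) Set.univ = N
    omega

/-- `2 ^ ⌈d / 2⌉`, the divisor of all flag numbers. -/
def ga (d : ℕ) : ℕ := 2 ^ ((d + 1) / 2)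

lemma ga_even {d : ℕ} (h : d % 2 = 0) : ga (d + 1) = 2 * ga d := by
  unfold ga
  rw [show (d + 1 + 1) / 2 = (d + 1) / 2 + 1 by omega, pow_succ]
  ring

lemma ga_odd {d : ℕ} (h : d % 2 = 1) : ga (d + 1) = ga d := by
  unfold ga
  rw [show (d + 1 + 1) / 2 = (d + 1) / 2 by omega]

lemma ga_dvd : ∀ d : ℕ, ga d ∣ 2 * d.factorial
  | 0 => by decide
  | 1 => by decide
  | d + 2 => by
    have ih := ga_dvd d
    have h1 : ga (d + 2) = 2 * ga d := by
      unfold ga
      rw [show (d + 2 + 1) / 2 = (d + 1) / 2 + 1 by omega, pow_succ]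
      ring
    have h2 : 2 ∣ (d + 2) * (d + 1) := by
      have : Even ((d + 1) * (d + 1 + 1)) := Nat.even_mul_succ_self (d + 1)
      rw [mul_comm]
      exact this.two_dvd
    rw [h1, Nat.factorial_succ, Nat.factorial_succ]
    have h3 : 2 * ((d + 1 + 1) * ((d + 1) * d.factorial)) =
      ((d + 2) * (d + 1)) * (2 * d.factorial) := by ring
    rw [h3]
    exact mul_dvd_mul h2 ih

/-- The numbers of flags of blocks hit every class divisible by `ga d`. -/
def NN (d : ℕ) : Prop := ∀ (m : ℕ) (_ : 0 < m) (C : ℕ) (t : ℤ),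
  ∃ N, C ≤ N ∧ Nonempty (Blk d N) ∧ ((N : ℤ) : ZMod m) = ((ga d * t : ℤ) : ZMod m)

lemma blk2 (L : ℕ) : Nonempty (Blk 2 (6 + 2 * L)) := by
  induction L with
  | zero => exact ⟨simBlk 2 (by norm_num)⟩
  | succ L ih =>
    obtain ⟨B⟩ := ih
    exact glueBlk le_rfl B (simBlk 2 (by norm_num)) (by simp [Nat.factorial]; ring)

lemma NN_two : NN 2 := by
  intro m hm C t
  -- 6 + 2 L ≡ 2 t
  obtain ⟨L, hL⟩ : ∃ L : ℕ, (L : ℤ) = (t - 3) % m + m * C := by
    have h1 : 0 ≤ (t - 3) % m := Int.emod_nonneg _ (by omega)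
    exact ⟨((t - 3) % m + m * C).toNat, Int.toNat_of_nonneg (by positivity)⟩
  refine ⟨6 + 2 * L, ?_, blk2 L, ?_⟩
  · have h1 : 0 ≤ (t - 3) % m := Int.emod_nonneg _ (by omega)
    have h2 : (C : ℤ) ≤ m * C := by
      have : (1 : ℤ) ≤ m := by exact_mod_cast hm
      nlinarith [Int.natCast_nonneg C]
    have h3 : (C : ℤ) ≤ L := by rw [hL]; linarith
    have h4 : C ≤ L := by exact_mod_cast h3
    omega
  · rw [ZMod.intCast_eq_intCast_iff]
    have h1 : ((6 + 2 * L : ℕ) : ℤ) = 6 + 2 * (L : ℤ) := by push_cast; ring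
    have h2 : ((ga 2 : ℕ) : ℤ) = 2 := by norm_num [ga]
    rw [h1, h2, hL, Int.modEq_iff_dvd]
    have h3 := Int.emod_add_mul_ediv (t - 3) m
    refine ⟨2 * ((t - 3) / m) - 2 * C, ?_⟩
    linear_combination (-2 : ℤ) * h3

lemma NN_succ {d : ℕ} (hd : 2 ≤ d) (h : NN d) : NN (d + 1) := by
  intro m hm C t
  -- solve the linear equation
  obtain ⟨x, y, hxy⟩ : ∃ x y : ℤ, ((d : ℤ) + 2) * (ga d * x) + 2 * (d + 1) * (ga d * y) =
      ga (d + 1) * t + 2 * (d + 1).factorial := by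
    obtain ⟨s0, hs0⟩ := ga_dvd (d + 1)
    have hs0' : (2 * (d + 1).factorial : ℤ) = ga (d + 1) * s0 := by exact_mod_cast hs0
    rcases Nat.mod_two_eq_zero_or_one d with hd2 | hd2
    · refine ⟨2 * (t + s0), -(t + s0), ?_⟩
      rw [hs0', ga_even hd2]
      push_cast
      ring
    · obtain ⟨k, hk⟩ : ∃ k : ℤ, (d : ℤ) + 2 = 2 * k + 1 := ⟨(d + 1) / 2, by omega⟩
      refine ⟨(1 - 2 * k) * (t + s0), k * (t + s0), ?_⟩
      rw [hs0', ga_odd hd2]
      have hd' : (d : ℤ) = 2 * k - 1 := by linarith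
      rw [hd']
      ring
  obtain ⟨N1, hC1, ⟨B1⟩, h1⟩ := h m hm (C + 2 * (d + 1).factorial) x
  obtain ⟨N2, -, ⟨B2⟩, h2⟩ := h m hm 0 y
  have hle : C + 2 * (d + 1).factorial ≤ (d + 2) * N1 := by nlinarith
  refine ⟨(d + 2) * N1 + 2 * (d + 1) * N2 - 2 * (d + 1).factorial, ?_, ?_, ?_⟩
  · have : 0 ≤ 2 * (d + 1) * N2 := Nat.zero_le _
    omega
  · apply glueBlk (by omega) (pyrBlk B1) (bipBlk (by omega) B2)
    have : 0 ≤ 2 * (d + 1) * N2 := Nat.zero_le _
    omega
  · have e1 : (((d + 2) * N1 + 2 * (d + 1) * N2 - 2 * (d + 1).factorial : ℕ) : ℤ) =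
        (d + 2) * N1 + 2 * (d + 1) * N2 - 2 * (d + 1).factorial := by
      have : 0 ≤ 2 * (d + 1) * N2 := Nat.zero_le _
      rw [Nat.cast_sub (by omega)]
      push_cast
      ring
    rw [e1]
    have e2 : (ga (d + 1) * t : ℤ) = ((d : ℤ) + 2) * (ga d * x) + 2 * (d + 1) * (ga d * y) -
      2 * (d + 1).factorial := by linarith
    rw [e2]
    push_cast at h1 h2 ⊢
    rw [h1, h2]

lemma NN_all : ∀ d, 2 ≤ d → NN d := by
  intro d hd
  induction d, hd using Nat.le_induction with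
  | base => exact NN_two
  | succ d hd ih => exact NN_succ hd ih

/-- The values of `κ` of data hit every class. -/
def KK (d : ℕ) : Prop := ∀ (m : ℕ) (_ : 0 < m) (t : ℤ),
  ∃ κ, Nonempty (Dat d κ) ∧ ((κ : ℤ) : ZMod m) = (t : ZMod m)

lemma KK_step {d : ℕ} (hd : 2 ≤ d) (hK : ∃ c : ℕ, c % 2 = 1 ∧ ∀ κ, Nonempty (Dat d κ) →
    Nonempty (Dat (d + 1) (c * κ))) (h : KK d) : KK (d + 1) := by
  intro m hm t
  obtain ⟨c, hc, hcD⟩ := hK
  have hcop : IsCoprime (c : ℤ) (ga (d + 1) : ℤ) := by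
    rw [Nat.isCoprime_iff_coprime]
    unfold ga
    apply Nat.Coprime.pow_right
    rw [Nat.coprime_two_right, Nat.odd_iff]
    exact hc
  obtain ⟨u, v, huv⟩ := hcop
  have hga : 0 < ga (d + 1) := by unfold ga; positivity
  obtain ⟨κ, hκ, hκ'⟩ := h (ga (d + 1)) hga (u * (t + 2 * (d + 1).factorial))
  rw [ZMod.intCast_eq_intCast_iff, Int.modEq_iff_dvd] at hκ'
  obtain ⟨w, hw⟩ := hκ'
  -- t + 2 (d+1)! - c κ = ga * s
  have hs : t + 2 * (d + 1).factorial - c * κ = ga (d + 1) *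
      (c * w + v * (t + 2 * (d + 1).factorial)) := by
    linear_combination (c : ℤ) * hw - (t + 2 * (d + 1).factorial) * huv
  obtain ⟨N, hN, ⟨B⟩, hN'⟩ := NN_all (d + 1) (by omega) m hm (2 * (d + 1).factorial)
    (c * w + v * (t + 2 * (d + 1).factorial))
  obtain ⟨D⟩ := hcD κ hκ
  refine ⟨c * κ + N - 2 * (d + 1).factorial, glueDat D B (by omega) (by omega), ?_⟩
  have e1 : ((c * κ + N - 2 * (d + 1).factorial : ℕ) : ℤ) =
      c * κ + N - 2 * (d + 1).factorial := by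
    rw [Nat.cast_sub (by omega)]
    push_cast
    ring
  rw [e1]
  have e2 : (t : ℤ) = c * κ + ga (d + 1) * (c * w + v * (t + 2 * (d + 1).factorial)) -
    2 * (d + 1).factorial := by linarith
  conv_rhs => rw [e2]
  rw [Int.cast_sub, Int.cast_add, hN', ← Int.cast_add, ← Int.cast_sub]

lemma KK_succ {d : ℕ} (hd : 2 ≤ d) (h : KK d) : KK (d + 1) := by
  apply KK_step hd _ h
  rcases Nat.mod_two_eq_zero_or_one d with hd2 | hd2
  · exact ⟨d + 1, by omega, fun κ ⟨D⟩ => ⟨bipDat D (by omega)⟩⟩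
  · exact ⟨d + 2, by omega, fun κ ⟨D⟩ => ⟨pyrDat D⟩⟩

lemma KK_four (h : ∀ r : ℕ, ∃ κ, κ % 4 = r % 4 ∧ Nonempty (Dat 4 κ)) : KK 4 := by
  intro m hm t
  obtain ⟨κ, hκ, ⟨D⟩⟩ := h (t % 4).toNat
  have h4 : ((t % 4).toNat : ℤ) = t % 4 := Int.toNat_of_nonneg (by omega)
  obtain ⟨s, hs⟩ : ∃ s : ℤ, t + 48 - κ = 4 * s := ⟨(t + 48 - κ) / 4, by omega⟩
  obtain ⟨N, hN, ⟨B⟩, hN'⟩ := NN_all 4 (by omega) m hm 48 s
  refine ⟨κ + N - 48, glueDat D B (by omega) (by simp [Nat.factorial]; omega), ?_⟩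
  have e1 : ((κ + N - 48 : ℕ) : ℤ) = κ + N - 48 := by
    rw [Nat.cast_sub (by omega)]
    push_cast
    ring
  have e3 : ((ga 4 : ℕ) : ℤ) = 4 := by norm_num [ga]
  rw [e3] at hN'
  rw [e1]
  have e2 : (t : ℤ) = κ + 4 * s - 48 := by linarith
  rw [e2, Int.cast_sub, Int.cast_add, hN', ← Int.cast_add, ← Int.cast_sub]

lemma KK_all (h : ∀ r : ℕ, ∃ κ, κ % 4 = r % 4 ∧ Nonempty (Dat 4 κ)) : ∀ d, 4 ≤ d → KK d := by
  intro d hd
  induction d, hd using Nat.le_induction with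
  | base => exact KK_four h
  | succ d hd ih => exact KK_succ (by omega) ih

end Run7.h739
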