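import Pool.Agent.Run7.h739.Basic

/-!
# Piece I of the project of helper739 on MP_166b83_co: non-realizability from the certificate
-/

namespace Run7.h739

open Module Function Run7.h249

lemma sgn_aux {P Q R c1 c2 c3 : ℝ} (h1 : |c1| < 1) (h2 : |c2| < 1) (h3 : |c3| < 1)
    (e1 : P + Q = R * c1) (e2 : Q + R = P * c2) (e3 : R - P = Q * c3)
    (hne : P ≠ 0 ∨ Q ≠ 0 ∨ R ≠ 0) : 0 < P * R ∧ P * Q < 0 := by
  obtain ⟨a1, b1⟩ := abs_lt.1 h1
  obtain ⟨a2, b2⟩ := abs_lt.1 h2
  obtain ⟨a3, b3⟩ := abs_lt.1 h3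
  have hP : P ≠ 0 := by
    intro h0
    have h4 : Q * (1 + c3) = 0 := by
      rw [h0] at e2 e3
      linarith
    have hQ : Q = 0 := by
      rcases mul_eq_zero.1 h4 with h | h
      · exact h
      · linarith
    have hR : R = 0 := by rw [h0, hQ] at e2; linarith
    tauto
  have hR : R ≠ 0 := by
    intro h0
    have h4 : P * (1 + c2) = 0 := by
      rw [h0] at e1 e2
      linarith
    rcases mul_eq_zero.1 h4 with h | h
    · exact hP h
    · linarith
  have hQ : Q ≠ 0 := by
    intro h0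
    have h4 : P * (1 - c2) = 0 := by
      rw [h0] at e2 e3
      linarith
    rcases mul_eq_zero.1 h4 with h | h
    · exact hP h
    · linarith
  have sq : ∀ x c : ℝ, x ≠ 0 → -1 < c → c < 1 → (x * c) ^ 2 < x ^ 2 := by
    intro x c hx l u
    have h5 : 0 < x ^ 2 := by positivity
    have h6 : c ^ 2 < 1 := by nlinarith
    rw [mul_pow]
    nlinarith
  have s1 := sq R c1 hR a1 b1
  have s2 := sq P c2 hP a2 b2
  have s3 := sq Q c3 hQ a3 b3
  rw [← e1] at s1
  rw [← e2] at s2
  rw [← e3] at s3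
  have t1 : P * (P + Q - R) < 0 := by nlinarith
  have t3 : R * (R + Q - P) < 0 := by nlinarith
  rcases lt_or_gt_of_ne hP with hP | hP
  · have u1 : 0 < P + Q - R := by
      by_contra hc
      push Not at hc
      nlinarith
    rcases lt_or_gt_of_ne hR with hR | hR
    · have u3 : 0 < R + Q - P := by
        by_contra hc
        push Not at hc
        nlinarith
      exact ⟨mul_pos_of_neg_of_neg hP hR, mul_neg_of_neg_of_pos hP (by linarith)⟩
    · have u3 : R + Q - P < 0 := by
        by_contra hc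
        push Not at hc
        nlinarith
      linarith
  · have u1 : P + Q - R < 0 := by
      by_contra hc
      push Not at hc
      nlinarith
    rcases lt_or_gt_of_ne hR with hR | hR
    · have u3 : 0 < R + Q - P := by
        by_contra hc
        push Not at hc
        nlinarith
      linarith
    · have u3 : R + Q - P < 0 := by
        by_contra hc
        push Not at hc
        nlinarith
      exact ⟨mul_pos hP hR, mul_neg_of_pos_of_neg hP (by linarith)⟩

section certL

variable {ι V V' : Type} [AddCommGroup V] [Module ℝ V]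
    [AddCommGroup V'] [Module ℝ V'] [FiniteDimensional ℝ V'] {a : ι → V} {d : ℕ} {T : ι → ι}
    {Q : Set ι → Prop} {W : Set ι} {c b y z : ι}

theorem half_spec (h : Half a d T Q W c b y z) (a' : ι → V') (hV : finrank ℝ V' = d + 1)
    (ha : ∀ S, IsFace a S → IsFace a' S) (g : V' →ₗ[ℝ] V') (hg : ∀ i, g (a' i) = a' (T i)) :
    (∃ p q r : ℝ, (p ≠ 0 ∨ q ≠ 0 ∨ r ≠ 0) ∧
      p • (a' b - a' (T b)) + q • (a' y - a' (T y)) + r • (a' z - a' (T z)) = 0) ∧
    ∀ p q r : ℝ, (p ≠ 0 ∨ q ≠ 0 ∨ r ≠ 0) →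
      p • (a' b - a' (T b)) + q • (a' y - a' (T y)) + r • (a' z - a' (T z)) = 0 →
      0 < p * r ∧ p * q < 0 := by
  classical
  obtain ⟨hcard, hfin, hfix, hfixc, hnd, hnm, htt, hher, hf2, hf3, -, -, -⟩ := h
  simp only [List.nodup_cons, List.mem_cons, List.not_mem_nil, or_false, not_or,
    not_false_eq_true, List.nodup_nil, and_true] at hnd
  obtain ⟨⟨cb, cy, cz, cTb, cTy, cTz⟩, ⟨bY, bz, bTb, bTy, bTz⟩, ⟨yz, yTb, yTy, yTz⟩,
    ⟨zTb, zTy, zTz⟩, ⟨TbTy, TbTz⟩, TyTz⟩ := hnd
  simp only [List.mem_cons, List.not_mem_nil, or_false, forall_eq_or_imp, forall_eq] at hnm htt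
  obtain ⟨cW, bW, yW, zW, TbW, TyW, TzW⟩ := hnm
  obtain ⟨ttb, tty, ttz⟩ := htt
  have out : ∀ {x u v : ι}, x ∉ W → x ≠ u → x ≠ v → x ∉ W ∪ {u, v} := by
    intro x u v h1 h2 h3 h4
    rcases h4 with h4 | h4 | h4
    · exact h1 h4
    · exact h2 h4
    · exact h3 h4
  -- the functionals
  obtain ⟨φ1, n1, p1⟩ := ha _ (hher _ (subset_refl _))
  obtain ⟨φ2, n2, p2⟩ := ha _ hf2
  obtain ⟨φ3, n3, p3⟩ := ha _ hf3
  obtain ⟨φ0, n0, p0⟩ := ha _ (hher W Set.subset_union_left)
  have w1 : ∀ i ∈ W, φ1 (a' i) = 0 := fun i hi => n1 i (Or.inl hi)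
  have w2 : ∀ i ∈ W, φ2 (a' i) = 0 := fun i hi => n2 i (Or.inl hi)
  have w3 : ∀ i ∈ W, φ3 (a' i) = 0 := fun i hi => n3 i (Or.inl hi)
  have b1 : φ1 (a' b) = 0 := n1 b (by simp)
  have y1 : φ1 (a' y) = 0 := n1 y (by simp)
  have y2 : φ2 (a' y) = 0 := n2 y (by simp)
  have z2 : φ2 (a' z) = 0 := n2 z (by simp)
  have z3 : φ3 (a' z) = 0 := n3 z (by simp)
  have Tb3 : φ3 (a' (T b)) = 0 := n3 (T b) (by simp)
  have c1 := p1 c (out cW cb cy)
  have z1 := p1 z (out zW (Ne.symm bz) (Ne.symm yz))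
  have Tb1 := p1 (T b) (out TbW (Ne.symm bTb) (Ne.symm yTb))
  have Ty1 := p1 (T y) (out TyW (Ne.symm bTy) (Ne.symm yTy))
  have Tz1 := p1 (T z) (out TzW (Ne.symm bTz) (Ne.symm yTz))
  have c2 := p2 c (out cW cy cz)
  have b2 := p2 b (out bW bY bz)
  have Tb2 := p2 (T b) (out TbW (Ne.symm yTb) (Ne.symm zTb))
  have Ty2 := p2 (T y) (out TyW (Ne.symm yTy) (Ne.symm zTy))
  have Tz2 := p2 (T z) (out TzW (Ne.symm yTz) (Ne.symm zTz))
  have c3 := p3 c (out cW cz cTb)
  have b3 := p3 b (out bW bz bTb)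
  have y3 := p3 y (out yW yz yTb)
  have Ty3 := p3 (T y) (out TyW (Ne.symm zTy) (Ne.symm TbTy))
  have Tz3 := p3 (T z) (out TzW (Ne.symm zTz) (Ne.symm TbTz))
  have c0 := p0 c cW
  -- everything is spanned by `W`, `b`, `y`, `z`
  have eS : W ∪ {b, y} = insert b (insert y W) := by
    ext i
    simp only [Set.mem_union, Set.mem_insert_iff, Set.mem_singleton_iff]
    tauto
  have hbyW : b ∉ insert y W := by
    rintro (h | h)
    · exact bY h
    · exact bW h
  have rS : rk a' (W ∪ {b, y}) = d := by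
    rw [rk_hered (by rw [eS]; exact (hfin.insert y).insert b) (fun S hS => ha _ (hher S hS)), eS,
      Set.ncard_insert_of_notMem hbyW (hfin.insert y), Set.ncard_insert_of_notMem yW hfin]
    exact hcard
  have rTop : rk a' (insert z (W ∪ {b, y})) = d + 1 := by
    apply le_antisymm
    · rw [← hV]
      exact Submodule.finrank_le _
    · have := rk_insert_gt (i := z) n1 z1.ne'
      omega
  have hTop : Submodule.span ℝ (a' '' (insert z (W ∪ {b, y}))) = ⊤ :=
    Submodule.eq_top_of_finrank_eq (by rw [hV]; exact rTop)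
  have hgg : ∀ v, g (g v) = v := by
    intro v
    have h1 : Set.EqOn (⇑(g ∘ₗ g)) (⇑(LinearMap.id : V' →ₗ[ℝ] V'))
        (Submodule.span ℝ (a' '' (insert z (W ∪ {b, y}))) : Set V') := by
      apply LinearMap.eqOn_span'
      rintro _ ⟨i, hi, rfl⟩
      show g (g (a' i)) = a' i
      rw [hg, hg]
      congr 1
      rcases hi with hi | hi | hi | hi
      · rw [hi]; exact ttz
      · rw [hfix i hi, hfix i hi]
      · rw [hi]; exact ttb
      · rw [Set.mem_singleton_iff.1 hi]; exact tty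
    have h2 : v ∈ (Submodule.span ℝ (a' '' (insert z (W ∪ {b, y}))) : Set V') := by
      rw [hTop]; trivial
    exact h1 h2
  -- the spaces
  set F : Submodule ℝ V' := Submodule.span ℝ (a' '' (insert c W)) with hF
  set F' : Submodule ℝ V' := LinearMap.ker (g - LinearMap.id) with hF'
  have memF' : ∀ v, v ∈ F' ↔ g v = v := by
    intro v
    rw [hF', LinearMap.mem_ker, LinearMap.sub_apply, LinearMap.id_apply, sub_eq_zero]
  have hFF' : F ≤ F' := by
    rw [hF, Submodule.span_le]
    rintro _ ⟨i, hi, rfl⟩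
    show a' i ∈ F'
    rw [memF', hg]
    rcases hi with hi | hi
    · rw [hi, hfixc]
    · rw [hfix i hi]
  have rW : rk a' W = W.ncard := by
    refine rk_hered hfin (fun S hS => ha _ (hher S (hS.trans Set.subset_union_left)))
  have rF : W.ncard + 1 ≤ finrank ℝ F := by
    have := rk_insert_gt (i := c) n0 c0.ne'
    rw [rW] at this
    exact this
  set vv : Fin 3 → V' := ![a' b - a' (T b), a' y - a' (T y), a' z - a' (T z)] with hvv
  set N : Submodule ℝ V' := Submodule.span ℝ (Set.range vv) with hN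
  have gN : ∀ v ∈ N, g v = -v := by
    intro v hv
    have h1 : N ≤ LinearMap.ker (g + LinearMap.id) := by
      rw [hN, Submodule.span_le]
      rintro _ ⟨k, rfl⟩
      show vv k ∈ LinearMap.ker (g + LinearMap.id)
      rw [LinearMap.mem_ker, LinearMap.add_apply, LinearMap.id_apply]
      fin_cases k
      · show g (a' b - a' (T b)) + (a' b - a' (T b)) = 0
        rw [map_sub, hg, hg, ttb]; abel
      · show g (a' y - a' (T y)) + (a' y - a' (T y)) = 0
        rw [map_sub, hg, hg, tty]; abel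
      · show g (a' z - a' (T z)) + (a' z - a' (T z)) = 0
        rw [map_sub, hg, hg, ttz]; abel
    have h2 := h1 hv
    rw [LinearMap.mem_ker, LinearMap.add_apply, LinearMap.id_apply] at h2
    exact eq_neg_of_add_eq_zero_left h2
  have hdisj : Disjoint F' N := by
    rw [Submodule.disjoint_def]
    intro v hv hv'
    have h1 := (memF' v).1 hv
    have h2 := gN v hv'
    rw [h1] at h2
    have h3 : (2 : ℝ) • v = 0 := by
      rw [two_smul]
      nth_rewrite 1 [h2]
      exact neg_add_cancel v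
    exact (smul_eq_zero.1 h3).resolve_left (by norm_num)
  have hdim : finrank ℝ F' + finrank ℝ N ≤ d + 1 := by
    rw [← hV]
    exact Submodule.finrank_add_finrank_le_of_disjoint hdisj
  have hFle : finrank ℝ F ≤ finrank ℝ F' := Submodule.finrank_mono hFF'
  have mb : a' b - a' (T b) ∈ N := Submodule.subset_span ⟨0, rfl⟩
  have my : a' y - a' (T y) ∈ N := Submodule.subset_span ⟨1, rfl⟩
  have mz : a' z - a' (T z) ∈ N := Submodule.subset_span ⟨2, rfl⟩
  constructor
  · -- a relation exists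
    have hnl : ¬ LinearIndependent ℝ vv := by
      intro hl
      have h3 : finrank ℝ N = Fintype.card (Fin 3) := finrank_span_eq_card hl
      rw [Fintype.card_fin] at h3
      omega
    obtain ⟨k, hk, i, hi⟩ := Fintype.not_linearIndependent_iff.1 hnl
    refine ⟨k 0, k 1, k 2, ?_, ?_⟩
    · fin_cases i
      · exact Or.inl hi
      · exact Or.inr (Or.inl hi)
      · exact Or.inr (Or.inr hi)
    · rw [Fin.sum_univ_three] at hk
      exact hk
  -- the space `N` has dimension two
  have hN2 : 2 ≤ finrank ℝ N := by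
    by_contra hcon
    push Not at hcon
    obtain ⟨v0, hv0⟩ := finrank_le_one_iff.1 (by omega : finrank ℝ N ≤ 1)
    obtain ⟨x1, hx1⟩ := hv0 ⟨_, mb⟩
    obtain ⟨x2, hx2⟩ := hv0 ⟨_, my⟩
    obtain ⟨x3, hx3⟩ := hv0 ⟨_, mz⟩
    have k1 : x1 • (v0 : V') = a' b - a' (T b) := congrArg Subtype.val hx1
    have k2 : x2 • (v0 : V') = a' y - a' (T y) := congrArg Subtype.val hx2
    have k3 : x3 • (v0 : V') = a' z - a' (T z) := congrArg Subtype.val hx3
    have e11 := congrArg φ1 k1
    have e12 := congrArg φ1 k2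
    have e22 := congrArg φ2 k2
    have e23 := congrArg φ2 k3
    have e31 := congrArg φ3 k1
    have e33 := congrArg φ3 k3
    rw [map_smul, map_sub, smul_eq_mul] at e11 e12 e22 e23 e31 e33
    rw [b1] at e11
    rw [y1] at e12
    rw [y2] at e22
    rw [z2] at e23
    rw [Tb3] at e31
    rw [z3] at e33
    set s1 := φ1 (v0 : V')
    set s2 := φ2 (v0 : V')
    set s3 := φ3 (v0 : V')
    have q12 : 0 < x1 * x2 := by
      have : 0 < (x1 * s1) * (x2 * s1) := by
        rw [e11, e12]; exact mul_pos_of_neg_of_neg (by linarith) (by linarith)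
      have h5 : (x1 * s1) * (x2 * s1) = (x1 * x2) * s1 ^ 2 := by ring
      rw [h5] at this
      exact pos_of_mul_pos_left this (sq_nonneg _)
    have q23 : 0 < x2 * x3 := by
      have : 0 < (x2 * s2) * (x3 * s2) := by
        rw [e22, e23]; exact mul_pos_of_neg_of_neg (by linarith) (by linarith)
      have h5 : (x2 * s2) * (x3 * s2) = (x2 * x3) * s2 ^ 2 := by ring
      rw [h5] at this
      exact pos_of_mul_pos_left this (sq_nonneg _)
    have q13 : x1 * x3 < 0 := by
      have : (x1 * s3) * (x3 * s3) < 0 := by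
        rw [e31, e33]; exact mul_neg_of_pos_of_neg (by linarith) (by linarith)
      have h5 : (x1 * s3) * (x3 * s3) = (x1 * x3) * s3 ^ 2 := by ring
      rw [h5] at this
      by_contra hc
      push Not at hc
      have := mul_nonneg hc (sq_nonneg s3)
      linarith
    have h6 := mul_pos q12 q23
    have h7 : x1 * x2 * (x2 * x3) = (x1 * x3) * x2 ^ 2 := by ring
    rw [h7] at h6
    have h8 := mul_nonneg (by linarith : 0 ≤ -(x1 * x3)) (sq_nonneg x2)
    linarith
  have hFeq : F = F' := Submodule.eq_of_le_of_finrank_le hFF' (by omega)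
  have ht : ∀ x, T (T x) = x → x ∉ W → T x ∉ W → ∃ t : ℝ, 0 < t ∧ ∀ φ : Dual ℝ V',
      (∀ i ∈ W, φ (a' i) = 0) → φ (a' x) + φ (a' (T x)) = t * φ (a' c) := by
    intro x hx hxW hTxW
    have h1 : a' x + a' (T x) ∈ F := by
      rw [hFeq, memF', map_add, hg, hg, hx, add_comm]
    rw [hF, Set.image_insert_eq, Submodule.mem_span_insert] at h1
    obtain ⟨t, w, hw, e⟩ := h1
    have h2 : ∀ φ : Dual ℝ V',
      (∀ i ∈ W, φ (a' i) = 0) → φ (a' x) + φ (a' (T x)) = t * φ (a' c) := by
      intro φ hφ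
      rw [← map_add, e, map_add, map_smul, vanish_span hφ hw, add_zero, smul_eq_mul]
    refine ⟨t, ?_, h2⟩
    have h3 := h2 φ0 n0
    have h4 := p0 x hxW
    have h5 := p0 (T x) hTxW
    by_contra hc
    push Not at hc
    nlinarith
  obtain ⟨tb, tb0, Hb⟩ := ht b ttb bW TbW
  obtain ⟨ty, ty0, Hy⟩ := ht y tty yW TyW
  obtain ⟨tz, tz0, Hz⟩ := ht z ttz zW TzW
  intro p q r hne hrel
  have E1 := congrArg φ1 hrel
  have E2 := congrArg φ2 hrel
  have E3 := congrArg φ3 hrel
  simp only [map_add, map_sub, map_smul, smul_eq_mul, map_zero] at E1 E2 E3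
  have Hb1 := Hb φ1 w1
  have Hy1 := Hy φ1 w1
  have Hz1 := Hz φ1 w1
  have Hb2 := Hb φ2 w2
  have Hy2 := Hy φ2 w2
  have Hz2 := Hz φ2 w2
  have Hb3 := Hb φ3 w3
  have Hy3 := Hy φ3 w3
  have Hz3 := Hz φ3 w3
  rw [b1, y1] at E1
  rw [b1] at Hb1
  rw [y1] at Hy1
  rw [y2, z2] at E2
  rw [y2] at Hy2
  rw [z2] at Hz2
  rw [z3, Tb3] at E3
  rw [Tb3] at Hb3
  rw [z3] at Hz3
  have key := sgn_aux (P := p * tb) (Q := q * ty) (R := r * tz)
    (c1 := (φ1 (a' z) - φ1 (a' (T z))) / (tz * φ1 (a' c)))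
    (c2 := (φ2 (a' b) - φ2 (a' (T b))) / (tb * φ2 (a' c)))
    (c3 := (φ3 (a' y) - φ3 (a' (T y))) / (ty * φ3 (a' c)))
    (by
      rw [abs_lt, lt_div_iff₀ (by positivity), div_lt_iff₀ (by positivity)]
      constructor <;> linarith)
    (by
      rw [abs_lt, lt_div_iff₀ (by positivity), div_lt_iff₀ (by positivity)]
      constructor <;> linarith)
    (by
      rw [abs_lt, lt_div_iff₀ (by positivity), div_lt_iff₀ (by positivity)]
      constructor <;> linarith)
    (by
      rw [← mul_div_assoc, eq_div_iff (by positivity)]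
      linear_combination (-tz) * E1 - tz * p * Hb1 - tz * q * Hy1)
    (by
      rw [← mul_div_assoc, eq_div_iff (by positivity)]
      linear_combination (-tb) * E2 - tb * q * Hy2 - tb * r * Hz2)
    (by
      rw [← mul_div_assoc, eq_div_iff (by positivity)]
      linear_combination (-ty) * E3 + ty * p * Hb3 - ty * r * Hz3)
    (by
      rcases hne with h | h | h
      · exact Or.inl (mul_ne_zero h tb0.ne')
      · exact Or.inr (Or.inl (mul_ne_zero h ty0.ne'))
      · exact Or.inr (Or.inr (mul_ne_zero h tz0.ne')))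
  obtain ⟨k1, k2⟩ := key
  constructor
  · have e : p * tb * (r * tz) = (p * r) * (tb * tz) := by ring
    rw [e] at k1
    exact pos_of_mul_pos_left k1 (by positivity)
  · have e : p * tb * (q * ty) = (p * q) * (tb * ty) := by ring
    rw [e] at k2
    by_contra hc
    push Not at hc
    have := mul_nonneg hc (mul_pos tb0 ty0).le
    linarith

theorem cert_false (h : Cert a d T Q) (a' : ι → V') (hV : finrank ℝ V' = d + 1)
    (ha : ∀ S, IsFace a S → IsFace a' S) (g : V' →ₗ[ℝ] V') (hg : ∀ i, g (a' i) = a' (T i)) :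
    False := by
  obtain ⟨W, W', c, c', b, y, z, h1, h2⟩ := h
  obtain ⟨⟨p, q, r, hne, hrel⟩, hs⟩ := half_spec h1 a' hV ha g hg
  obtain ⟨-, hs'⟩ := half_spec h2 a' hV ha g hg
  have k1 := hs p q r hne hrel
  have k2 := hs' p r q (by tauto) (by rw [← hrel]; abel)
  linarith [k1.2, k2.1]

end certL

end Run7.h739
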