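import Pool.Agent.Run7.h739.Defs

/-!
Counting flags.
-/

namespace Run7.h739

open Module Function Run7.h249

section basic

variable {ι V : Type} [AddCommGroup V] [Module ℝ V]

lemma fc_zero (a : ι → V) (T : Set ι) : fc a 0 T = 1 := rfl

lemma fc_succ (a : ι → V) (r : ℕ) (T : Set ι) :
    fc a (r + 1) T = ∑ᶠ S ∈ {S : Set ι | IsFace a S ∧ rk a S = r ∧ S ⊆ T}, fc a r S := rfl

lemma fc_transfer {κ W : Type} [AddCommGroup W] [Module ℝ W] {b : κ → W} {a : ι → V} {j : κ → ι}
    (hj : Injective j) : ∀ (r : ℕ) (T : Set κ), (∀ S ⊆ T, (IsFace a (j '' S) ↔ IsFace b S)) →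
      (∀ S ⊆ T, rk a (j '' S) = rk b S) → fc a r (j '' T) = fc b r T := by
  intro r
  induction r with
  | zero => intros; rfl
  | succ r ih =>
    intro T h1 h2
    rw [fc_succ, fc_succ]
    symm
    apply finsum_mem_eq_of_bijOn (fun S => j '' S)
    · refine ⟨?_, ?_, ?_⟩
      · rintro S ⟨hS, hr, hST⟩
        exact ⟨(h1 S hST).2 hS, (h2 S hST).trans hr, Set.image_mono hST⟩
      · exact hj.image_injective.injOn
      · rintro S' ⟨hS', hr, hST⟩
        obtain ⟨S, hS, rfl⟩ := Set.subset_image_iff.1 hST
        exact ⟨S, ⟨(h1 S hS).1 hS', (h2 S hS).symm.trans hr, hS⟩, rfl⟩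
    · rintro S ⟨hS, hr, hST⟩
      exact (ih S (fun S' h => h1 S' (h.trans hST)) (fun S' h => h2 S' (h.trans hST))).symm

/-- Chains of faces below `T`. -/
structure Ch (a : ι → V) (r : ℕ) (T : Set ι) where
  f : ℕ → Set ι
  face : ∀ i, i ≤ r → IsFace a (f i) ∧ rk a (f i) = i
  mono : ∀ i, i < r → f i ⊆ f (i + 1)
  last : f r = T
  top : ∀ i, r < i → f i = Set.univ

lemma Ch.ext' {a : ι → V} {r : ℕ} {T : Set ι} {x y : Ch a r T} (h : ∀ i, x.f i = y.f i) :
    x = y := by
  cases x; cases y
  congr
  exact funext h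

/-- The chains below a face of rank `r + 1` are sorted by their face of rank `r`. -/
noncomputable def chSigma (a : ι → V) (r : ℕ) (T : Set ι) (hT : IsFace a T) (hr : rk a T = r + 1) :
    Ch a (r + 1) T ≃ Σ S : {S : Set ι // IsFace a S ∧ rk a S = r ∧ S ⊆ T}, Ch a r S.1 where
  toFun c := ⟨⟨c.f r, (c.face r (by omega)).1, (c.face r (by omega)).2, by
      have := c.mono r (by omega)
      rwa [c.last] at this⟩,
    { f := fun i => if i ≤ r then c.f i else Set.univ
      face := fun i hi => by
        rw [if_pos hi]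
        exact c.face i (by omega)
      mono := fun i hi => by
        rw [if_pos (by omega), if_pos (by omega)]
        exact c.mono i (by omega)
      last := if_pos le_rfl
      top := fun i hi => if_neg (by omega) }⟩
  invFun x :=
    { f := fun i => if i ≤ r then x.2.f i else if i = r + 1 then T else Set.univ
      face := fun i hi => by
        by_cases h : i ≤ r
        · rw [if_pos h]
          exact x.2.face i h
        · have : i = r + 1 := by omega
          subst this
          rw [if_neg h, if_pos rfl]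
          exact ⟨hT, hr⟩
      mono := fun i hi => by
        by_cases h : i < r
        · rw [if_pos (by omega), if_pos (by omega)]
          exact x.2.mono i h
        · have : i = r := by omega
          subst this
          rw [if_pos (by omega), if_neg (by omega), if_pos rfl, x.2.last]
          exact x.1.2.2.2
      last := by
        rw [if_neg (by omega), if_pos rfl]
      top := fun i hi => by
        rw [if_neg (by omega), if_neg (by omega)] }
  left_inv c := by
    apply Ch.ext'
    intro i
    show (if i ≤ r then (if i ≤ r then c.f i else Set.univ) else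
      if i = r + 1 then T else Set.univ) = c.f i
    by_cases h : i ≤ r
    · rw [if_pos h, if_pos h]
    · rw [if_neg h]
      by_cases h' : i = r + 1
      · rw [if_pos h', h', c.last]
      · rw [if_neg h', c.top i (by omega)]
  right_inv x := by
    obtain ⟨⟨S, hS, hrS, hST⟩, c⟩ := x
    have h1 : (if r ≤ r then c.f r else if r = r + 1 then T else Set.univ) = S := by
      rw [if_pos le_rfl, c.last]
    refine Sigma.ext (Subtype.ext h1) ?_
    have key : ∀ (S' : Set ι) (hS' : S' = S) (x : Ch a r S') (_ : ∀ i, x.f i = c.f i),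
        HEq x c := by
      rintro S' rfl x hx
      exact heq_of_eq (Ch.ext' hx)
    apply key _ h1
    intro i
    show (if i ≤ r then (if i ≤ r then c.f i else if i = r + 1 then T else Set.univ) else
      Set.univ) = c.f i
    by_cases h : i ≤ r
    · rw [if_pos h, if_pos h]
    · rw [if_neg h, c.top i (by omega)]

instance [Finite ι] (a : ι → V) (r : ℕ) (T : Set ι) : Finite (Ch a r T) := by
  apply Finite.of_injective (β := Fin (r + 1) → Set ι) (fun x i => x.f i)
  intro x y h
  apply Ch.ext'
  intro i
  by_cases hi : i < r + 1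
  · exact congrFun h ⟨i, hi⟩
  · rw [x.top i (by omega), y.top i (by omega)]

lemma card_Ch [Finite ι] (a : ι → V) : ∀ (r : ℕ) (T : Set ι), IsFace a T → rk a T = r →
    Nat.card (Ch a r T) = fc a r T := by
  intro r
  induction r with
  | zero =>
    intro T hT hr
    rw [fc_zero, Nat.card_eq_one_iff_unique]
    refine ⟨⟨fun x y => ?_⟩, ⟨⟨fun i => if i = 0 then T else Set.univ, ?_, ?_, ?_, ?_⟩⟩⟩
    · apply Ch.ext'
      intro i
      rcases Nat.eq_zero_or_pos i with h | h
      · rw [h, x.last, y.last]
      · rw [x.top i h, y.top i h]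
    · intro i hi
      have : i = 0 := by omega
      subst this
      rw [if_pos rfl]
      exact ⟨hT, hr⟩
    · intro i hi
      omega
    · rw [if_pos rfl]
    · intro i hi
      rw [if_neg (by omega)]
  | succ r ih =>
    intro T hT hr
    rw [Nat.card_congr (chSigma a r T hT hr), fc_succ]
    classical
    have := Fintype.ofFinite {S : Set ι // IsFace a S ∧ rk a S = r ∧ S ⊆ T}
    have e : ∑ᶠ S ∈ {S : Set ι | IsFace a S ∧ rk a S = r ∧ S ⊆ T}, fc a r S
        = ∑ᶠ S : {S : Set ι // IsFace a S ∧ rk a S = r ∧ S ⊆ T}, fc a r S.1 :=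
      (finsum_set_coe_eq_finsum_mem _).symm
    rw [Nat.card_sigma, e, finsum_eq_sum_of_fintype]
    apply Finset.sum_congr rfl
    intro S _
    exact ih S.1 S.2.1 S.2.2.1

lemma card_Fl [Finite ι] (a : ι → V) :
    Nat.card (Fl a) = fc a (rk a Set.univ) Set.univ := by
  rw [← card_Ch a _ _ IsFace.univ rfl]
  apply Nat.card_congr
  refine ⟨fun x => ⟨x.f, fun i hi => x.face i hi, fun i _ => x.mono i, x.top _ le_rfl,
    fun i hi => x.top i hi.le⟩, fun c => ⟨c.f, fun r hr => c.face r hr, fun r => ?_,
    fun r hr => ?_⟩, fun x => ?_, fun c => ?_⟩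
  · by_cases h : r < rk a Set.univ
    · exact c.mono r h
    · rw [c.top (r + 1) (by omega)]
      exact Set.subset_univ _
  · rcases Nat.eq_or_lt_of_le hr with h | h
    · rw [← h, c.last]
    · exact c.top r h
  · rfl
  · rfl

/-- `fc` is invariant under order automorphisms. -/
lemma fc_map [Finite ι] [FiniteDimensional ℝ V] {a : ι → V} (hE : IsFace a ∅)
    (α : FSet a ≃o FSet a) : ∀ (r : ℕ) (T : FSet a), fc a r (α T).1 = fc a r T.1 := by
  intro r
  induction r with
  | zero => intro T; rfl
  | succ r ih =>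
    intro T
    rw [fc_succ, fc_succ]
    symm
    classical
    apply finsum_mem_eq_of_bijOn (fun S => if h : IsFace a S then (α ⟨S, h⟩).1 else S)
    · refine ⟨?_, ?_, ?_⟩
      · rintro S ⟨hS, hr, hST⟩
        show (if h : IsFace a S then (α ⟨S, h⟩).1 else S) ∈ _
        rw [dif_pos hS]
        refine ⟨(α ⟨S, hS⟩).2, ?_, ?_⟩
        · rw [Fl.rk_map hE, hr]
        · exact α.monotone (show (⟨S, hS⟩ : FSet a) ≤ T from hST)
      · rintro S ⟨hS, -, -⟩ S' ⟨hS', -, -⟩ h
        have h' : (if h : IsFace a S then (α ⟨S, h⟩).1 else S)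
          = (if h : IsFace a S' then (α ⟨S', h⟩).1 else S') := h
        rw [dif_pos hS, dif_pos hS'] at h'
        have := α.injective (Subtype.ext h')
        exact congrArg Subtype.val this
      · rintro S' ⟨hS', hr, hST⟩
        refine ⟨(α.symm ⟨S', hS'⟩).1, ⟨(α.symm ⟨S', hS'⟩).2, ?_, ?_⟩, ?_⟩
        · rw [Fl.rk_map hE, hr]
        · have h : α.symm ⟨S', hS'⟩ ≤ α.symm (α T) :=
            α.symm.monotone (show (⟨S', hS'⟩ : FSet a) ≤ α T from hST)
          rw [OrderIso.symm_apply_apply] at h
          exact h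
        · show (if h : IsFace a (α.symm ⟨S', hS'⟩).1 then (α ⟨(α.symm ⟨S', hS'⟩).1, h⟩).1
            else _) = _
          rw [dif_pos (α.symm ⟨S', hS'⟩).2]
          show (α (α.symm ⟨S', hS'⟩)).1 = _
          rw [OrderIso.apply_symm_apply]
    · rintro S ⟨hS, hr, hST⟩
      show fc a r S = fc a r (if h : IsFace a S then (α ⟨S, h⟩).1 else S)
      rw [dif_pos hS]
      exact (ih ⟨S, hS⟩).symm

end basic

end Run7.h739
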