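import Pool.Agent.Run7.h739.Act

/-!
Operations on data.
-/

namespace Run7.h739

open Module Function Run7.h249

/-- The condition used in the certificate of a datum. -/
abbrev Dat.Q {d κ : ℕ} (D : Dat d κ) : Set D.P.ι → Prop :=
  fun S => ∀ g, ¬ (D.ρ g '' Set.range D.f ⊆ S)

lemma Dat.Q_mono {d κ : ℕ} (D : Dat d κ) (S S1 : Set D.P.ι) (h : S ⊆ S1) (h1 : D.Q S1) : D.Q S :=
  fun g hg => h1 g (hg.trans h)

section pyr

variable {d κ : ℕ} (D : Dat d κ)

/-- action on the pyramid -/
def pAct : D.G →* Equiv.Perm (Option D.P.ι) :=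
  mkHom (fun g x => x.map (D.ρ g))
    (by
      rintro (_ | i)
      · rfl
      · show some (D.ρ 1 i) = some i
        rw [map_one]
        rfl)
    (by
      rintro g h (_ | i)
      · rfl
      · show some (D.ρ (g * h) i) = some (D.ρ g (D.ρ h i))
        rw [map_mul]
        rfl)

lemma pAct_pre (g : D.G) (T : Set (Option D.P.ι)) :
    some ⁻¹' (pAct D g '' T) = D.ρ g '' (some ⁻¹' T) := by
  ext i
  constructor
  · rintro ⟨x, hx, hx'⟩
    rcases x with _ | k
    · exact absurd hx' (Option.some_ne_none _).symm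
    · exact ⟨k, hx, Option.some_injective _ hx'⟩
  · rintro ⟨k, hk, rfl⟩
    exact ⟨some k, hk, rfl⟩

lemma pAct_image (g : D.G) (S : Set D.P.ι) :
    pAct D g '' (insert none (some '' S)) = insert none (some '' (D.ρ g '' S)) := by
  rw [Set.image_insert_eq, Set.image_image, Set.image_image]
  rfl

lemma pyr_hρ (g : D.G) (S : Set (Option D.P.ι)) (hS : IsFace (pyrA D.P.a) S) :
    IsFace (pyrA D.P.a) (pAct D g '' S) := by
  rw [pyr_face] at hS ⊢
  rw [pAct_pre]
  exact D.hρ g _ hS

lemma pyr_free (g : D.G) (h1 : pAct D g '' (insert none (some '' Set.range D.f)) =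
    insert none (some '' Set.range D.f)) : g = 1 := by
  rw [pAct_image] at h1
  apply D.free
  rw [← pre_none (D.ρ g '' Set.range D.f), h1, pre_none]

lemma pyr_cert : Cert (pyrA D.P.a) (d + 1) (pAct D D.t)
    (fun S => ∀ g, ¬ (pAct D g '' (insert none (some '' Set.range D.f)) ⊆ S)) := by
  refine Cert.map (T := D.ρ D.t) (Q := D.Q) (d := d) (a := D.P.a) some
    (Option.some_injective _) {none} (Set.finite_singleton _)
    (by rw [Set.ncard_singleton]) ?_ ?_ ?_ D.Q_mono ?_ ?_ D.cert
  · rintro x hx ⟨i, hi⟩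
    rw [Set.mem_singleton_iff] at hx
    rw [hx] at hi
    exact Option.some_ne_none _ hi
  · intro i
    rfl
  · intro x hx
    rw [Set.mem_singleton_iff] at hx
    rw [hx]
    rfl
  · intro S hS _ S0 hS0
    rw [pyr_face]
    have : some ⁻¹' (some '' S ∪ S0) = S := by
      ext i
      constructor
      · rintro (⟨k, hk, hk'⟩ | h)
        · rw [← Option.some_injective _ hk']
          exact hk
        · exact absurd (hS0 h) (Option.some_ne_none i)
      · intro hi
        exact Or.inl ⟨i, hi, rfl⟩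
    rw [this]
    exact hS
  · intro S _ hQ g hg
    apply hQ g
    rw [pAct_image] at hg
    intro i hi
    have h1 : some i ∈ some '' S ∪ {none} := hg (Or.inr ⟨i, hi, rfl⟩)
    rcases h1 with ⟨k, hk, hk'⟩ | h
    · rw [← Option.some_injective _ hk']
      exact hk
    · exact absurd h (Option.some_ne_none i)

/-- The pyramid over a datum. -/
def pyrDat : Dat (d + 1) ((d + 2) * κ) where
  P := pyrC D.P
  G := D.G
  ρ := pAct D
  hρ := pyr_hρ D
  f := (Fin.cons none (fun i => some (D.f i)) : Fin (d + 1) → Option D.P.ι)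
  hf := pyr_SF D.hf
  free := by
    intro g hg
    apply pyr_free D g
    rw [← range_cons]
    exact hg
  t := D.t
  cert := by
    have h := pyr_cert D
    rw [← range_cons] at h
    exact h
  cnt := by
    rw [pyr_cnt, D.cnt, mul_assoc]

end pyr

section bip

variable {d κ : ℕ} (D : Dat d κ)

/-- action on the bipyramid -/
def bAct : D.G × Equiv.Perm Bool →* Equiv.Perm (D.P.ι ⊕ Bool) :=
  mkHom (fun g x => Sum.map (D.ρ g.1) g.2 x)
    (by
      rintro (i | b)
      · show Sum.inl (D.ρ 1 i) = Sum.inl i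
        rw [map_one]
        rfl
      · rfl)
    (by
      rintro g h (i | b)
      · show Sum.inl (D.ρ (g.1 * h.1) i) = Sum.inl (D.ρ g.1 (D.ρ h.1 i))
        rw [map_mul]
        rfl
      · rfl)

lemma bAct_pre (g : D.G × Equiv.Perm Bool) (T : Set (D.P.ι ⊕ Bool)) :
    Sum.inl ⁻¹' (bAct D g '' T) = D.ρ g.1 '' (Sum.inl ⁻¹' T) := by
  ext i
  constructor
  · rintro ⟨x, hx, hx'⟩
    rcases x with k | b
    · exact ⟨k, hx, Sum.inl_injective hx'⟩
    · exact absurd hx' Sum.inr_ne_inl
  · rintro ⟨k, hk, rfl⟩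
    exact ⟨Sum.inl k, hk, rfl⟩

lemma bAct_image (g : D.G × Equiv.Perm Bool) (b : Bool) (S : Set D.P.ι) :
    bAct D g '' (insert (Sum.inr b) (Sum.inl '' S)) =
      insert (Sum.inr (g.2 b)) (Sum.inl '' (D.ρ g.1 '' S)) := by
  rw [Set.image_insert_eq, Set.image_image, Set.image_image]
  rfl

lemma range_cons' {ι : Type} {d : ℕ} (f : Fin d → ι) (b : Bool) :
    Set.range (Fin.cons (Sum.inr b) (fun i => Sum.inl (f i)) : Fin (d + 1) → ι ⊕ Bool)
      = insert (Sum.inr b) (Sum.inl '' Set.range f) := by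
  rw [Fin.range_cons, ← Set.range_comp]
  rfl

lemma SF.ne_univ {P : Cfg d} {f : Fin d → P.ι} (hf : SF P.a f) : Set.range f ≠ Set.univ := by
  intro h
  have h1 := hf.rank
  have h2 := P.hrk
  rw [h] at h1
  omega

lemma bip_hρ (g : D.G × Equiv.Perm Bool) (S : Set (D.P.ι ⊕ Bool)) (hS : IsFace (bipA D.P.a) S) :
    IsFace (bipA D.P.a) (bAct D g '' S) := by
  have h1 := (bip_face S).1 hS
  rw [bip_face]
  rcases h1 with rfl | ⟨h1, h2, h3⟩
  · left
    exact Set.image_univ_of_surjective (bAct D g).surjective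
  · right
    rw [bAct_pre]
    refine ⟨D.hρ g.1 _ h1, ?_, ?_⟩
    · intro h
      apply h2
      have h4 : Sum.inl ⁻¹' S = (D.ρ g.1).symm '' (D.ρ g.1 '' (Sum.inl ⁻¹' S)) := by
        rw [Equiv.symm_image_image]
      rw [h4, h]
      exact Set.image_univ_of_surjective (D.ρ g.1).symm.surjective
    · have key : ∀ b, (Sum.inr b : D.P.ι ⊕ Bool) ∈ bAct D g '' S →
          (Sum.inr (g.2.symm b) : D.P.ι ⊕ Bool) ∈ S := by
        rintro b ⟨x, hx, hx'⟩
        rcases x with k | b'
        · exact absurd hx' Sum.inl_ne_inr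
        · have h5 : g.2 b' = b := Sum.inr_injective hx'
          rw [← h5, Equiv.symm_apply_apply]
          exact hx
      rintro ⟨ht, hff⟩
      have k1 := key _ ht
      have k2 := key _ hff
      apply h3
      have hne : g.2.symm true ≠ g.2.symm false := fun h =>
        absurd (g.2.symm.injective h) (by decide)
      rcases hb : g.2.symm true with _ | _
      · rcases hb' : g.2.symm false with _ | _
        · exact absurd (hb.trans hb'.symm) hne
        · rw [hb] at k1
          rw [hb'] at k2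
          exact ⟨k2, k1⟩
      · rcases hb' : g.2.symm false with _ | _
        · rw [hb] at k1
          rw [hb'] at k2
          exact ⟨k1, k2⟩
        · exact absurd (hb.trans hb'.symm) hne

lemma bip_free (g : D.G × Equiv.Perm Bool)
    (h1 : bAct D g '' (insert (Sum.inr true) (Sum.inl '' Set.range D.f)) =
      insert (Sum.inr true) (Sum.inl '' Set.range D.f)) : g = 1 := by
  rw [bAct_image] at h1
  have h2 : g.1 = 1 := by
    apply D.free
    rw [← pre_ins (g.2 true) (D.ρ g.1 '' Set.range D.f), h1, pre_ins]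
  have h3 : g.2 true = true := by
    have : (Sum.inr (g.2 true) : D.P.ι ⊕ Bool) ∈
        insert (Sum.inr true) (Sum.inl '' Set.range D.f) := by
      rw [← h1]
      exact Set.mem_insert _ _
    rcases this with h | ⟨i, -, hi⟩
    · exact Sum.inr_injective h
    · exact absurd hi Sum.inl_ne_inr
  have h4 : g.2 = 1 := by
    ext b
    cases b
    · have : g.2 false ≠ true := by
        intro h
        exact absurd (g.2.injective (h.trans h3.symm)) (by decide)
      rw [Equiv.Perm.one_apply]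
      exact Bool.eq_false_of_not_eq_true this
    · rw [h3]
      rfl
  exact Prod.ext h2 h4

lemma bip_cert : Cert (bipA D.P.a) (d + 1) (bAct D (D.t, 1))
    (fun S => ∀ g, ¬ (bAct D g '' (insert (Sum.inr true) (Sum.inl '' Set.range D.f)) ⊆ S)) := by
  refine Cert.map (T := D.ρ D.t) (Q := D.Q) (d := d) (a := D.P.a) Sum.inl
    Sum.inl_injective {Sum.inr true} (Set.finite_singleton _)
    (by rw [Set.ncard_singleton]) ?_ ?_ ?_ D.Q_mono ?_ ?_ D.cert
  · rintro x hx ⟨i, hi⟩
    rw [Set.mem_singleton_iff] at hx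
    rw [hx] at hi
    exact Sum.inl_ne_inr hi
  · intro i
    rfl
  · intro x hx
    rw [Set.mem_singleton_iff] at hx
    rw [hx]
    rfl
  · intro S hS hQS S0 hS0
    have hSu : S ≠ Set.univ := by
      rintro rfl
      exact hQS 1 (Set.subset_univ _)
    have : S0 = ∅ ∨ S0 = {Sum.inr true} := Set.subset_singleton_iff_eq.1 hS0
    rcases this with rfl | rfl
    · rw [Set.union_empty]
      exact (bip_face_inl hSu).2 hS
    · rw [Set.union_comm, ← Set.insert_eq]
      exact (bip_face_ins hSu true).2 hS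
  · intro S _ hQ g hg
    apply hQ g.1
    rw [bAct_image] at hg
    intro i hi
    have h1 : (Sum.inl i : D.P.ι ⊕ Bool) ∈ Sum.inl '' S ∪ {Sum.inr true} :=
      hg (Or.inr ⟨i, hi, rfl⟩)
    rcases h1 with ⟨k, hk, hk'⟩ | h
    · rw [← Sum.inl_injective hk']
      exact hk
    · exact absurd h Sum.inl_ne_inr

/-- The bipyramid over a datum. -/
noncomputable def bipDat (hd : 1 ≤ d) : Dat (d + 1) ((d + 1) * κ) where
  P := bipC hd D.P
  G := D.G × Equiv.Perm Bool
  ρ := bAct D
  hρ := bip_hρ D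
  f := (Fin.cons (Sum.inr true) (fun i => Sum.inl (D.f i)) : Fin (d + 1) → D.P.ι ⊕ Bool)
  hf := bip_SF D.hf D.hf.ne_univ true
  free := by
    intro g hg
    apply bip_free D g
    rw [← range_cons']
    exact hg
  t := (D.t, 1)
  cert := by
    have h := bip_cert D
    rw [← range_cons'] at h
    exact h
  cnt := by
    have h1 := bip_cnt (a := D.P.a) D.P.hV D.P.hrk
    show fc (bipA D.P.a) (d + 1 + 1) Set.univ = _
    rw [h1, D.cnt, Nat.card_prod, Nat.card_eq_fintype_card (α := Equiv.Perm Bool),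
      Fintype.card_perm, Fintype.card_bool]
    simp only [Nat.factorial_two]
    ring

end bip

section glue

variable {d κ N κ' : ℕ} (D : Dat d κ)

/-- The free orbit of simplex facets. -/
def Dat.orb (g : D.G) (i : Fin d) : D.P.ι := D.ρ g (D.f i)

lemma Dat.orb_range (g : D.G) : Set.range (D.orb g) = D.ρ g '' Set.range D.f := by
  rw [← Set.range_comp]
  rfl

lemma Dat.ρ_inv (g : D.G) (x : D.P.ι) : D.ρ g⁻¹ (D.ρ g x) = x := by
  rw [← Equiv.Perm.mul_apply, ← map_mul, inv_mul_cancel, map_one]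
  rfl

lemma Dat.ρ_inv' (g : D.G) (x : D.P.ι) : D.ρ g (D.ρ g⁻¹ x) = x := by
  rw [← Equiv.Perm.mul_apply, ← map_mul, mul_inv_cancel, map_one]
  rfl

lemma Dat.orb_SF (g : D.G) : SF D.P.a (D.orb g) := by
  refine SF.of_hered (fun i j h => D.hf.inj ((D.ρ g).injective h)) ?_
  intro S hS
  have h1 : D.ρ g⁻¹ '' S ⊆ Set.range D.f := by
    rintro _ ⟨x, hx, rfl⟩
    obtain ⟨i, rfl⟩ := hS hx
    exact ⟨i, (D.ρ_inv g _).symm⟩
  have h2 := D.hρ g _ (D.hf.hered _ h1)
  rw [Set.image_image] at h2
  have h3 : (fun x => D.ρ g (D.ρ g⁻¹ x)) '' S = S := by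
    have : (fun x => D.ρ g (D.ρ g⁻¹ x)) = id := by
      funext x
      exact D.ρ_inv' g x
    rw [this, Set.image_id]
  rwa [h3] at h2

lemma Dat.orb_ne (g g' : D.G) (h : Set.range (D.orb g) = Set.range (D.orb g')) : g = g' := by
  rw [D.orb_range, D.orb_range] at h
  have h1 : D.ρ (g'⁻¹ * g) '' Set.range D.f = Set.range D.f := by
    have h2 : D.ρ (g'⁻¹ * g) '' Set.range D.f = D.ρ g'⁻¹ '' (D.ρ g '' Set.range D.f) := by
      rw [Set.image_image, map_mul]
      rfl
    rw [h2, h, Set.image_image]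
    have : (fun x => D.ρ g'⁻¹ (D.ρ g' x)) = id := by
      funext x
      exact D.ρ_inv g' x
    rw [this, Set.image_id]
  have h3 := D.free _ h1
  exact (inv_mul_eq_one.1 h3).symm

lemma Dat.orb_H1 (g j : D.G) (i : Fin d) :
    D.ρ g (D.orb j i) = D.orb (MulAction.toPermHom D.G D.G g j) (id i) := by
  show D.ρ g (D.ρ j (D.f i)) = D.ρ (g * j) (D.f i)
  rw [map_mul]
  rfl

variable (B : Blk d N)

lemma Dat.orb_H2 (g : D.G) (i : Fin d) :
    (1 : D.G →* Equiv.Perm B.Y.ι) g (B.f i) = B.f (id i) := rfl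

/-- The action on the glued polytope. -/
def Dat.gρ : D.G →* Equiv.Perm (GI D.P B.Y D.G B.f) :=
  gAct D.ρ (MulAction.toPermHom D.G D.G) (1 : D.G →* Equiv.Perm B.Y.ι) (D.orb_H2 B)

lemma Dat.gρ_emb (g j : D.G) (S : Set B.Y.ι) :
    D.gρ B g '' (emb D.P B.Y D.G D.orb B.f j '' S) = emb D.P B.Y D.G D.orb B.f (g * j) '' S := by
  have e := gAct_image_emb D.orb_H1 (D.orb_H2 B) B.hf.inj g j S
  have e2 : (1 : D.G →* Equiv.Perm B.Y.ι) g '' S = S := Set.image_id _
  rw [e2] at e
  exact e

lemma Dat.gρ_range (g : D.G) :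
    D.gρ B g '' Set.range (fun i => emb D.P B.Y D.G D.orb B.f 1 (B.g i)) =
      emb D.P B.Y D.G D.orb B.f g '' Set.range B.g := by
  have hrange' : Set.range (fun i => emb D.P B.Y D.G D.orb B.f 1 (B.g i)) =
      emb D.P B.Y D.G D.orb B.f 1 '' Set.range B.g := by
    rw [← Set.range_comp]
    rfl
  rw [hrange', D.gρ_emb, mul_one]

/-- Gluing a block on every facet of the free orbit. -/
noncomputable def Dat.glue (hd : 2 ≤ d) (hκ : κ' + 2 * d.factorial = κ + N)
    {a' : GI D.P B.Y D.G B.f → D.P.V} (h : Glued D.P B.Y D.G D.orb B.f a') : Dat d κ' where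
  P := gluedC hd h D.orb_SF B.hf
  G := D.G
  ρ := D.gρ B
  hρ := fun g S hS => gAct_face h D.orb_H1 (D.orb_H2 B) B.hf.inj D.hρ (fun g S hS => by
    have : (1 : D.G →* Equiv.Perm B.Y.ι) g '' S = S := Set.image_id _
    rwa [this]) g S hS
  f := fun i => emb D.P B.Y D.G D.orb B.f 1 (B.g i)
  hf := glued_SF_emb h D.orb_SF B.hf 1 B.hg B.ne
  free := by
    intro g hg
    have hg' : emb D.P B.Y D.G D.orb B.f g '' Set.range B.g =
        emb D.P B.Y D.G D.orb B.f 1 '' Set.range B.g := by
      rw [← D.gρ_range B g]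
      have h1 := D.gρ_range B 1
      rw [map_one] at h1
      rw [← h1]
      have h2 : (1 : Equiv.Perm (GI D.P B.Y D.G B.f)) ''
        Set.range (fun i => emb D.P B.Y D.G D.orb B.f 1 (B.g i)) =
        Set.range (fun i => emb D.P B.Y D.G D.orb B.f 1 (B.g i)) := Set.image_id _
      rw [h2]
      exact hg
    by_contra hcon
    exact emb_ne_emb h B.hf hcon B.hg.rank
      (fun hs => B.ne (B.hf.eq_of_sub B.hg.rank hs)) B.hg.face hg'
  t := D.t
  cert := by
    refine Cert.map (T := D.ρ D.t) (Q := D.Q) (d := d) (a := D.P.a) Sum.inl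
      Sum.inl_injective ∅ Set.finite_empty
      (by rw [Set.ncard_empty]; rfl) ?_ ?_ ?_ D.Q_mono ?_ ?_ D.cert
    · intro x hx
      exact absurd hx (Set.notMem_empty _)
    · intro i
      rfl
    · intro x hx
      exact absurd hx (Set.notMem_empty _)
    · intro S hS hQS S0 hS0
      have : S0 = ∅ := Set.subset_empty_iff.1 hS0
      rw [this, Set.union_empty]
      apply (glued_face_inl h (fun g hg => hQS g ?_)).2 hS
      rw [← D.orb_range]
      exact hg
    · intro S _ _ g hg
      rw [Set.union_empty] at hg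
      change D.gρ B g '' Set.range (fun i => emb D.P B.Y D.G D.orb B.f 1 (B.g i)) ⊆
        Sum.inl '' S at hg
      rw [D.gρ_range B g] at hg
      apply B.ne
      symm
      apply B.hg.eq_of_sub B.hf.rank
      intro y hy
      by_contra hyr
      have h1 := hg ⟨y, hy, rfl⟩
      rw [emb_new _ _ _ _ _ _ y hyr] at h1
      obtain ⟨i, -, hi⟩ := h1
      exact absurd hi Sum.inl_ne_inr
  cnt := by
    have h1 := glued_cnt h D.orb_SF D.orb_ne B.hf
    rw [D.cnt, B.cnt] at h1
    show fc a' (d + 1) Set.univ = κ' * Nat.card D.G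
    have h2 : (κ' + 2 * d.factorial) * Nat.card D.G = (κ + N) * Nat.card D.G := by rw [hκ]
    linarith [h1, h2, add_mul κ' (2 * d.factorial) (Nat.card D.G), add_mul κ N (Nat.card D.G),
      mul_comm N (Nat.card D.G), mul_assoc 2 d.factorial (Nat.card D.G),
      mul_comm d.factorial (Nat.card D.G)]

include D B in
theorem glueDat (hd : 2 ≤ d) (hκ : κ' + 2 * d.factorial = κ + N) : Nonempty (Dat d κ') := by
  obtain ⟨a', h⟩ := exists_glued D.P B.Y D.G D.orb B.f D.orb_SF D.orb_ne B.hf
  exact ⟨D.glue B hd hκ h⟩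

end glue

end Run7.h739
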