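import Pool.Agent.Run7.h249.Poly

/-!
Vector configurations which are homogenised vertex sets of polytopes; counting flags; blocks,
data with a group action, certificates.
-/

namespace Run7.h739

open Module Function Run7.h249

/-- A pointed full-dimensional finite vector configuration in which every vector spans an extreme
ray: the homogenised vertex set of a convex `d`-polytope. -/
structure Cfg (d : ℕ) : Type 1 where
  ι : Type
  V : Type
  [fι : Finite ι]
  [iA : AddCommGroup V]
  [iM : Module ℝ V]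
  [iF : FiniteDimensional ℝ V]
  a : ι → V
  hV : finrank ℝ V = d + 1
  hrk : rk a Set.univ = d + 1
  pt : IsFace a ∅
  vert : ∀ i, IsFace a {i}

attribute [instance] Cfg.fι Cfg.iA Cfg.iM Cfg.iF

/-- For a face `T` of rank `r`: the number of chains `S_0 ⊂ ⋯ ⊂ S_r = T` of faces, `S_i` of
rank `i`. -/
noncomputable def fc {ι V : Type} [AddCommGroup V] [Module ℝ V] (a : ι → V) : ℕ → Set ι → ℕ
  | 0, _ => 1
  | r + 1, T => ∑ᶠ S ∈ {S : Set ι | IsFace a S ∧ rk a S = r ∧ S ⊆ T}, fc a r S

/-- `f` lists the vertices of a simplex facet. -/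
structure SF {ι V : Type} [AddCommGroup V] [Module ℝ V] (a : ι → V) {d : ℕ} (f : Fin d → ι) :
    Prop where
  inj : Injective f
  face : IsFace a (Set.range f)
  rank : rk a (Set.range f) = d

/-- A `d`-polytope with two different simplex facets and `N` flags. -/
structure Blk (d N : ℕ) : Type 1 where
  Y : Cfg d
  f : Fin d → Y.ι
  g : Fin d → Y.ι
  hf : SF Y.a f
  hg : SF Y.a g
  ne : Set.range f ≠ Set.range g
  cnt : fc Y.a (d + 1) Set.univ = N

/-- All order automorphisms are trivial. -/
def Rig (X : Type) [PartialOrder X] : Prop := ∀ (α : X ≃o X) (x : X), α x = x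

/-- The faces contained in `B`. -/
abbrev Low {ι V : Type} [AddCommGroup V] [Module ℝ V] (a : ι → V) (B : Set ι) : Type :=
  {S : Set ι // IsFace a S ∧ S ⊆ B}

/-- A block with a facet `B`, rigid by itself, which has more flags than all other facets. -/
structure RB (d n N : ℕ) extends Blk d N where
  B : Set Y.ι
  hB : IsFace Y.a B
  rB : rk Y.a B = d
  fB : fc Y.a d B = n
  small : ∀ S, IsFace Y.a S → rk Y.a S = d → S ≠ B → fc Y.a d S < n
  rig : Rig (Low Y.a B)

/-- Half of the certificate of non-realizability: the facets `W ∪ {b, y}`, `W ∪ {y, z}`,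
`W ∪ {z, T b}` around the face `W`, where `T` fixes `W ∪ {c}` pointwise. -/
structure Half {ι V : Type} [AddCommGroup V] [Module ℝ V] (a : ι → V) (d : ℕ) (T : ι → ι)
    (Q : Set ι → Prop) (W : Set ι) (c b y z : ι) : Prop where
  card : W.ncard + 2 = d
  fin : W.Finite
  fix : ∀ i ∈ W, T i = i
  fixc : T c = c
  nd : [c, b, y, z, T b, T y, T z].Nodup
  nm : ∀ x ∈ [c, b, y, z, T b, T y, T z], x ∉ W
  tt : ∀ x ∈ [b, y, z], T (T x) = x
  hered : ∀ S ⊆ W ∪ {b, y}, IsFace a S
  f2 : IsFace a (W ∪ {y, z})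
  f3 : IsFace a (W ∪ {z, T b})
  q1 : Q (W ∪ {b, y})
  q2 : Q (W ∪ {y, z})
  q3 : Q (W ∪ {z, T b})

/-- The certificate. -/
def Cert {ι V : Type} [AddCommGroup V] [Module ℝ V] (a : ι → V) (d : ℕ) (T : ι → ι)
    (Q : Set ι → Prop) : Prop :=
  ∃ (W W' : Set ι) (c c' b y z : ι), Half a d T Q W c b y z ∧ Half a d T Q W' c' b z y

/-- A `d`-polytope with `κ * |G|` flags, a group `G` acting on its vertices by automorphisms, a
simplex facet with trivial stabiliser, and a certificate that some element of `G` is not induced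
by a linear map for any realization. -/
structure Dat (d κ : ℕ) : Type 1 where
  P : Cfg d
  G : Type
  [gG : Group G]
  [fG : Finite G]
  ρ : G →* Equiv.Perm P.ι
  hρ : ∀ g S, IsFace P.a S → IsFace P.a (ρ g '' S)
  f : Fin d → P.ι
  hf : SF P.a f
  free : ∀ g, ρ g '' Set.range f = Set.range f → g = 1
  t : G
  cert : Cert P.a d (ρ t) (fun S => ∀ g, ¬ (ρ g '' Set.range f ⊆ S))
  cnt : fc P.a (d + 1) Set.univ = κ * Nat.card G

attribute [instance] Dat.gG Dat.fG

section glue

variable {d : ℕ} (P Y : Cfg d) (J : Type) (f : J → Fin d → P.ι) (f' : Fin d → Y.ι)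

/-- The vertices of the polytope obtained by gluing a copy of `Y` to `P` for every `j : J`. -/
abbrev GI : Type := P.ι ⊕ (J × {y : Y.ι // y ∉ Set.range f'})

open Classical in
/-- The `j`-th copy of `Y` in the glued polytope. -/
noncomputable def emb (j : J) (y : Y.ι) : GI P Y J f' :=
  if h : ∃ i, f' i = y then Sum.inl (f j h.choose) else Sum.inr (j, ⟨y, h⟩)

/-- The configuration `a'` realizes the connected sum of `P` with copies of `Y`, where the `j`-th
copy is attached along the facets `f j` of `P` and `f'` of `Y`. -/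
structure Glued (a' : GI P Y J f' → P.V) : Prop where
  old : ∀ i, a' (Sum.inl i) = P.a i
  new : ∀ j, ∃ A : Y.V ≃ₗ[ℝ] P.V, ∀ y, a' (emb P Y J f f' j y) = A (Y.a y)
  face : ∀ T, IsFace a' T ↔ T = Set.univ ∨
    (∃ S, IsFace P.a S ∧ (∀ j, ¬ Set.range (f j) ⊆ S) ∧ T = Sum.inl '' S) ∨
    (∃ j S, IsFace Y.a S ∧ ¬ Set.range f' ⊆ S ∧ T = emb P Y J f f' j '' S)

end glue

section poly

variable {E : Type} [NormedAddCommGroup E] [InnerProductSpace ℝ E]

/-- The automorphisms of the face lattice of `P` which are induced by isometries. -/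
def geomAut (P : Set E) : Subgroup (EFace P ≃o EFace P) where
  carrier := {α | ∃ g : E ≃ᵢ E, ∀ F : EFace P, ((α F : EFace P) : Set E) = g '' (F : Set E)}
  mul_mem' := by
    rintro α β ⟨g, hg⟩ ⟨h, hh⟩
    refine ⟨h.trans g, fun F => ?_⟩
    show ((α (β F) : EFace P) : Set E) = _
    rw [hg, hh, Set.image_image]
    rfl
  one_mem' := ⟨IsometryEquiv.refl E, fun F => by
    show (F : Set E) = id '' (F : Set E)
    rw [Set.image_id]⟩
  inv_mem' := by
    rintro α ⟨g, hg⟩
    refine ⟨g.symm, fun F => ?_⟩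
    have h := hg (α⁻¹ F)
    have h2 : α (α⁻¹ F) = F := α.apply_symm_apply F
    rw [h2] at h
    rw [h, Set.image_image]
    simp

end poly

end Run7.h739
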