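import Pool.Agent.Run7.h739.Basic

/-!
# Explicit integer configurations: checking of the list of all faces

Bit masks describe sets of indices.  `circ` is a list of linear relations; a face which contains the
indices with positive coefficients also contains those with negative coefficients and vice versa.
-/

namespace Run7.h739.Expl

open Module Function Run7.h249 Run7.h739

/-- dot product of the first `k` entries -/
def dk : ℕ → List ℤ → List ℤ → ℤ
  | 0, _, _ => 0
  | k + 1, u, v => u.headD 0 * v.headD 0 + dk k u.tail v.tail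

lemma dk_eq (k : ℕ) : ∀ u v : List ℤ, dk k u v = ∑ j : Fin k, u.getD j 0 * v.getD j 0 := by
  induction k with
  | zero => intro u v; simp [dk]
  | succ k ih =>
    intro u v
    rw [dk, ih, Fin.sum_univ_succ]
    cases u <;> cases v <;> simp

/-- A face: mask, rank, number of complete chains below, normal vector. -/
abbrev FD : Type := ℕ × ℕ × ℕ × List ℤ

/-- raw data of a configuration -/
structure Raw where
  /-- number of vectors -/
  n : ℕ
  /-- dimension -/
  k : ℕ
  /-- the vectors -/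
  rows : List (List ℤ)
  /-- the faces -/
  faces : List FD
  /-- relations: masks of the positive and negative coefficients, coefficients -/
  circ : List (ℕ × ℕ × List ℤ)

/-- the set of a mask -/
def toSet (n : ℕ) (t : ℕ) : Set (Fin n) := {i | t.testBit i = true}

lemma mem_toSet {n t : ℕ} {i : Fin n} : i ∈ toSet n t ↔ t.testBit i = true := Iff.rfl

instance (n t : ℕ) (i : Fin n) : Decidable (i ∈ toSet n t) := by
  rw [mem_toSet]; infer_instance

lemma toSet_inj {n s t : ℕ} (hs : s < 2 ^ n) (ht : t < 2 ^ n) (h : toSet n s = toSet n t) :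
    s = t := by
  apply Nat.eq_of_testBit_eq
  intro i
  rcases Nat.lt_or_ge i n with hi | hi
  · have h1 : (⟨i, hi⟩ : Fin n) ∈ toSet n s ↔ (⟨i, hi⟩ : Fin n) ∈ toSet n t := by rw [h]
    rw [mem_toSet, mem_toSet] at h1
    exact Bool.eq_iff_iff.2 h1
  · rw [Nat.testBit_lt_two_pow (lt_of_lt_of_le hs (Nat.pow_le_pow_right (by norm_num) hi)),
      Nat.testBit_lt_two_pow (lt_of_lt_of_le ht (Nat.pow_le_pow_right (by norm_num) hi))]

lemma toSet_sub {n s t : ℕ} (h : s &&& t = s) : toSet n s ⊆ toSet n t := by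
  intro i hi
  rw [mem_toSet] at hi ⊢
  rw [← h, Nat.testBit_and] at hi
  simp only [Bool.and_eq_true] at hi
  exact hi.2

lemma sub_of_toSet {n s t : ℕ} (hs : s < 2 ^ n) (h : toSet n s ⊆ toSet n t) : s &&& t = s := by
  apply Nat.eq_of_testBit_eq
  intro i
  rw [Nat.testBit_and]
  rcases Nat.lt_or_ge i n with hi | hi
  · have h1 := @h ⟨i, hi⟩
    rw [mem_toSet, mem_toSet] at h1
    cases hsi : s.testBit i
    · rfl
    · simp only [Bool.true_and]
      exact h1 hsi
  · rw [Nat.testBit_lt_two_pow (lt_of_lt_of_le hs (Nat.pow_le_pow_right (by norm_num) hi)),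
      Bool.false_and]

lemma exists_mask {n : ℕ} (S : Set (Fin n)) : ∃ t, t < 2 ^ n ∧ toSet n t = S := by
  classical
  refine ⟨Nat.ofBits (fun i => decide (i ∈ S)), Nat.ofBits_lt_two_pow _, ?_⟩
  ext i
  rw [mem_toSet, Nat.testBit_ofBits_lt _ _ i.isLt]
  simp

namespace Raw

variable (D : Raw)

/-- the vectors -/
def vec (i : Fin D.n) : Fin D.k → ℝ := fun j => (((D.rows.getD i []).getD j 0 : ℤ) : ℝ)

/-- the normals are correct -/
def c1 : Bool := D.faces.all fun F => decide (F.1 < 2 ^ D.n) && (List.range D.n).all fun i =>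
  if F.1.testBit i then dk D.k F.2.2.2 (D.rows.getD i []) == 0
  else decide (0 < dk D.k F.2.2.2 (D.rows.getD i []))

/-- the relations are correct -/
def c2 : Bool := D.circ.all fun C =>
  ((List.range D.k).all fun j => dk D.n C.2.2 (D.rows.map fun r => r.getD j 0) == 0) &&
  ((List.range D.n).all fun i => (C.1.testBit i == decide (0 < C.2.2.getD i 0)) &&
    (C.2.1.testBit i == decide (C.2.2.getD i 0 < 0))) &&
  (decide (C.1 < 2 ^ D.n) && decide (C.2.1 < 2 ^ D.n))

/-- every mask is a face or violates a relation -/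
def c3 : Bool := (List.range (2 ^ D.n)).all fun t =>
  D.circ.any (fun C => ((t &&& C.1) == C.1) != ((t &&& C.2.1) == C.2.1)) ||
    D.faces.any (fun F => F.1 == t)

/-- `F` is a facet of `G` -/
def below (F G : FD) : Bool := (F.2.1 + 1 == G.2.1) && ((F.1 &&& G.1) == F.1)

/-- the ranks are correct -/
def c4 : Bool := D.faces.all fun F => decide (F.2.1 ≤ D.k) &&
  (F.2.1 == 0 || D.faces.any (fun G => below G F && (G.1 != F.1))) &&
  (F.2.1 == D.k || D.faces.any (fun G => below F G && (G.1 != F.1)))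

/-- the numbers of chains are correct -/
def c5 : Bool := D.faces.all fun F => if F.2.1 == 0 then F.2.2.1 == 1 else
  F.2.2.1 == ((D.faces.filter (fun G => below G F)).map (fun G => G.2.2.1)).sum

/-- no repetitions; the empty set, the points and the whole set are in the list -/
def c6 : Bool := decide (D.faces.map (fun F => F.1)).Nodup &&
  D.faces.any (fun F => F.1 == 0) &&
  D.faces.any (fun F => (F.1 == 2 ^ D.n - 1) && (F.2.1 == D.k)) &&
  (List.range D.n).all fun i => D.faces.any fun F => F.1 == 2 ^ i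

/-- the combined check -/
def ok : Bool := D.c1 && D.c2 && D.c3 && D.c4 && D.c5 && D.c6

variable {D}

lemma dual_apply (w : List ℤ) (i : Fin D.n) :
    (∑ j : Fin D.k, ((w.getD j 0 : ℤ) : ℝ) • (LinearMap.proj j : (Fin D.k → ℝ) →ₗ[ℝ] ℝ)) (D.vec i)
      = ((dk D.k w (D.rows.getD i []) : ℤ) : ℝ) := by
  rw [dk_eq, LinearMap.sum_apply]
  push_cast
  apply Finset.sum_congr rfl
  intro j _
  rfl

lemma face_of_mem (h1 : D.c1 = true) {F : FD} (hF : F ∈ D.faces) :
    IsFace D.vec (toSet D.n F.1) := by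
  rw [c1, List.all_eq_true] at h1
  have h2 := h1 F hF
  rw [Bool.and_eq_true, List.all_eq_true] at h2
  refine ⟨∑ j : Fin D.k, ((F.2.2.2.getD j 0 : ℤ) : ℝ) • LinearMap.proj j, ?_, ?_⟩
  · intro i hi
    have h3 := h2.2 i.val (List.mem_range.2 i.isLt)
    rw [if_pos (mem_toSet.1 hi)] at h3
    rw [dual_apply, (by simpa using h3 : dk D.k F.2.2.2 (D.rows.getD i []) = 0)]
    simp
  · intro i hi
    have h3 := h2.2 i.val (List.mem_range.2 i.isLt)
    have hi' : ¬ (F.1.testBit i = true) := hi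
    rw [if_neg hi'] at h3
    rw [dual_apply]
    have h4 : 0 < dk D.k F.2.2.2 (D.rows.getD i []) := by simpa using h3
    exact_mod_cast h4

lemma mask_lt (h1 : D.c1 = true) {F : FD} (hF : F ∈ D.faces) : F.1 < 2 ^ D.n := by
  rw [c1, List.all_eq_true] at h1
  have h2 := h1 F hF
  rw [Bool.and_eq_true] at h2
  simpa using h2.1

lemma col_getD (rows : List (List ℤ)) (i j : ℕ) :
    (rows.map fun r => r.getD j 0).getD i 0 = (rows.getD i []).getD j 0 := by
  simp only [List.getD_eq_getElem?_getD, List.getElem?_map]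
  cases rows[i]? <;> simp

lemma relation (h2 : D.c2 = true) {C : ℕ × ℕ × List ℤ} (hC : C ∈ D.circ) (φ : Dual ℝ (Fin D.k → ℝ)) :
    ∑ i : Fin D.n, ((C.2.2.getD i 0 : ℤ) : ℝ) * φ (D.vec i) = 0 := by
  rw [c2, List.all_eq_true] at h2
  have h3 := h2 C hC
  rw [Bool.and_eq_true, Bool.and_eq_true, List.all_eq_true, and_assoc] at h3
  have h4 : ∑ i : Fin D.n, ((C.2.2.getD i 0 : ℤ) : ℝ) • D.vec i = 0 := by
    funext j
    have h5 := h3.1 j.val (List.mem_range.2 j.isLt)
    have h6 : dk D.n C.2.2 (D.rows.map fun r => r.getD j 0) = 0 := by simpa using h5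
    rw [dk_eq] at h6
    rw [Finset.sum_apply]
    have h7 : ((∑ i : Fin D.n, C.2.2.getD i 0 * (D.rows.map fun r => r.getD j 0).getD i 0 : ℤ) : ℝ)
        = 0 := by rw [h6]; simp
    push_cast at h7
    rw [Pi.zero_apply, ← h7]
    apply Finset.sum_congr rfl
    intro i _
    rw [col_getD]
    rfl
  have h5 := congrArg φ h4
  rw [map_sum, map_zero] at h5
  rw [← h5]
  apply Finset.sum_congr rfl
  intro i _
  rw [map_smul, smul_eq_mul]

lemma rule {φ : Dual ℝ (Fin D.k → ℝ)} {S : Set (Fin D.n)} (h0 : ∀ i ∈ S, φ (D.vec i) = 0)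
    (h1 : ∀ i, i ∉ S → 0 < φ (D.vec i)) (c : Fin D.n → ℝ) (hc : ∑ i, c i * φ (D.vec i) = 0)
    (h : ∀ i, 0 < c i → i ∈ S) : ∀ i, c i < 0 → i ∈ S := by
  have hle : ∀ i ∈ Finset.univ, c i * φ (D.vec i) ≤ 0 := by
    intro i _
    rcases lt_or_ge 0 (c i) with h2 | h2
    · rw [h0 i (h i h2), mul_zero]
    · exact mul_nonpos_of_nonpos_of_nonneg h2 (IsFace.nonneg h0 h1 i)
  intro i hi
  by_contra hcon
  have h2 := (Finset.sum_eq_zero_iff_of_nonpos hle).1 hc i (Finset.mem_univ _)
  have h3 := h1 i hcon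
  have h4 := mul_neg_of_neg_of_pos hi h3
  linarith

lemma mem_of_face (_h1 : D.c1 = true) (h2 : D.c2 = true) (h3 : D.c3 = true) {S : Set (Fin D.n)}
    (hS : IsFace D.vec S) : ∃ F ∈ D.faces, toSet D.n F.1 = S := by
  obtain ⟨t, ht, rfl⟩ := exists_mask S
  rw [c3, List.all_eq_true] at h3
  have h4 := h3 t (List.mem_range.2 ht)
  rw [Bool.or_eq_true] at h4
  rcases h4 with h4 | h4
  · exfalso
    rw [List.any_eq_true] at h4
    obtain ⟨C, hC, h5⟩ := h4
    obtain ⟨φ, k0, k1⟩ := hS
    have hrel := relation h2 hC φ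
    rw [c2, List.all_eq_true] at h2
    have h6 := h2 C hC
    rw [Bool.and_eq_true, Bool.and_eq_true, List.all_eq_true, List.all_eq_true, and_assoc,
      Bool.and_eq_true, decide_eq_true_eq, decide_eq_true_eq] at h6
    have hp : ∀ i : Fin D.n, C.1.testBit i = true ↔ 0 < C.2.2.getD i 0 := by
      intro i
      have h7 := h6.2.1 i.val (List.mem_range.2 i.isLt)
      rw [Bool.and_eq_true, beq_iff_eq, beq_iff_eq] at h7
      rw [h7.1, decide_eq_true_eq]
    have hn : ∀ i : Fin D.n, C.2.1.testBit i = true ↔ C.2.2.getD i 0 < 0 := by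
      intro i
      have h7 := h6.2.1 i.val (List.mem_range.2 i.isLt)
      rw [Bool.and_eq_true, beq_iff_eq, beq_iff_eq] at h7
      rw [h7.2, decide_eq_true_eq]
    have key1 : (∀ i : Fin D.n, 0 < C.2.2.getD i 0 → i ∈ toSet D.n t) →
        ∀ i : Fin D.n, C.2.2.getD i 0 < 0 → i ∈ toSet D.n t := by
      intro h i hi
      exact rule k0 k1 (fun i => ((C.2.2.getD i 0 : ℤ) : ℝ)) hrel
        (fun i hi => h i (by exact_mod_cast hi)) i (by exact_mod_cast hi)
    have key2 : (∀ i : Fin D.n, C.2.2.getD i 0 < 0 → i ∈ toSet D.n t) →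
        ∀ i : Fin D.n, 0 < C.2.2.getD i 0 → i ∈ toSet D.n t := by
      intro h i hi
      have hrel' : ∑ i : Fin D.n, (-((C.2.2.getD i 0 : ℤ) : ℝ)) * φ (D.vec i) = 0 := by
        simp only [neg_mul, Finset.sum_neg_distrib]
        rw [hrel, neg_zero]
      exact rule k0 k1 (fun i => -((C.2.2.getD i 0 : ℤ) : ℝ)) hrel'
        (fun i hi => h i (by
          have : ((C.2.2.getD i 0 : ℤ) : ℝ) < 0 := by simpa using hi
          exact_mod_cast this)) i (by
          have : (0 : ℝ) < ((C.2.2.getD i 0 : ℤ) : ℝ) := by exact_mod_cast hi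
          simpa using this)
    have hpos : (t &&& C.1) = C.1 ↔ ∀ i : Fin D.n, 0 < C.2.2.getD i 0 → i ∈ toSet D.n t := by
      have hlt := h6.2.2.1
      rw [Nat.and_comm]
      constructor
      · intro h i hi
        exact toSet_sub h (mem_toSet.2 ((hp i).2 hi))
      · intro h
        exact sub_of_toSet hlt (fun i hi => h i ((hp i).1 (mem_toSet.1 hi)))
    have hneg : (t &&& C.2.1) = C.2.1 ↔
        ∀ i : Fin D.n, C.2.2.getD i 0 < 0 → i ∈ toSet D.n t := by
      have hlt := h6.2.2.2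
      rw [Nat.and_comm]
      constructor
      · intro h i hi
        exact toSet_sub h (mem_toSet.2 ((hn i).2 hi))
      · intro h
        exact sub_of_toSet hlt (fun i hi => h i ((hn i).1 (mem_toSet.1 hi)))
    have hiff : (t &&& C.1) = C.1 ↔ (t &&& C.2.1) = C.2.1 := by
      rw [hpos, hneg]
      exact ⟨key1, key2⟩
    have h8 : ((t &&& C.1) == C.1) = ((t &&& C.2.1) == C.2.1) := by
      rw [Bool.eq_iff_iff, beq_iff_eq, beq_iff_eq]
      exact hiff
    rw [h8] at h5
    simp at h5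
  · rw [List.any_eq_true] at h4
    obtain ⟨F, hF, h5⟩ := h4
    exact ⟨F, hF, by rw [(by simpa using h5 : F.1 = t)]⟩

lemma below_spec {F G : FD} (h : below F G = true) :
    F.2.1 + 1 = G.2.1 ∧ (F.1 &&& G.1) = F.1 := by
  rw [below, Bool.and_eq_true, beq_iff_eq, beq_iff_eq] at h
  exact h

lemma rk_below (h1 : D.c1 = true) {F G : FD} (hF : F ∈ D.faces) (hG : G ∈ D.faces)
    (h : below F G = true) (hne : F.1 ≠ G.1) :
    rk D.vec (toSet D.n F.1) < rk D.vec (toSet D.n G.1) := by
  obtain ⟨-, h3⟩ := below_spec h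
  have hsub := toSet_sub (n := D.n) h3
  obtain ⟨i, hi, hi'⟩ : ∃ i ∈ toSet D.n G.1, i ∉ toSet D.n F.1 := by
    by_contra hcon
    push Not at hcon
    exact hne (toSet_inj (mask_lt h1 hF) (mask_lt h1 hG) (Set.Subset.antisymm hsub hcon))
  exact rk_lt (face_of_mem h1 hF) hsub hi hi'

lemma rk_eq (h1 : D.c1 = true) (h4 : D.c4 = true) {F : FD} (hF : F ∈ D.faces) :
    rk D.vec (toSet D.n F.1) = F.2.1 := by
  rw [c4, List.all_eq_true] at h4
  have h4' : ∀ F ∈ D.faces, F.2.1 ≤ D.k ∧ (F.2.1 = 0 ∨ ∃ G ∈ D.faces, below G F = true ∧ G.1 ≠ F.1) ∧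
      (F.2.1 = D.k ∨ ∃ G ∈ D.faces, below F G = true ∧ G.1 ≠ F.1) := by
    intro F hF
    have h5 := h4 F hF
    simp only [Bool.and_eq_true, Bool.or_eq_true, beq_iff_eq, decide_eq_true_eq,
      List.any_eq_true, bne_iff_ne] at h5
    exact ⟨h5.1.1, h5.1.2, h5.2⟩
  have lower : ∀ r, ∀ F ∈ D.faces, F.2.1 = r → r ≤ rk D.vec (toSet D.n F.1) := by
    intro r
    induction r with
    | zero => intros; exact Nat.zero_le _
    | succ r ih =>
      intro F hF hr
      obtain ⟨-, h5, -⟩ := h4' F hF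
      rcases h5 with h5 | ⟨G, hG, h6, h7⟩
      · omega
      · have h8 := ih G hG (by have := (below_spec h6).1; omega)
        have h9 := rk_below h1 hG hF h6 h7
        omega
  have upper : ∀ r, ∀ F ∈ D.faces, D.k - F.2.1 = r → rk D.vec (toSet D.n F.1) + r ≤ D.k := by
    intro r
    induction r with
    | zero =>
      intro F hF _
      have := Submodule.finrank_le (Submodule.span ℝ (D.vec '' (toSet D.n F.1)))
      rw [Module.finrank_fin_fun] at this
      exact this
    | succ r ih =>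
      intro F hF hr
      obtain ⟨h0, -, h5⟩ := h4' F hF
      rcases h5 with h5 | ⟨G, hG, h6, h7⟩
      · omega
      · have h8 := ih G hG (by have := (below_spec h6).1; omega)
        have h9 := rk_below h1 hF hG h6 (Ne.symm h7)
        omega
  have h5 := lower _ F hF rfl
  have h6 := upper _ F hF rfl
  have h7 := (h4' F hF).1
  omega

lemma fc_eq (h1 : D.c1 = true) (h2 : D.c2 = true) (h3 : D.c3 = true) (h4 : D.c4 = true)
    (h5 : D.c5 = true) (h6 : D.c6 = true) :
    ∀ r, ∀ F ∈ D.faces, F.2.1 = r → fc D.vec r (toSet D.n F.1) = F.2.2.1 := by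
  classical
  rw [c5, List.all_eq_true] at h5
  simp only [c6, Bool.and_eq_true, decide_eq_true_eq] at h6
  have hnd : D.faces.Nodup := List.Nodup.of_map _ h6.1.1.1
  have hinj : ∀ F ∈ D.faces, ∀ G ∈ D.faces, F.1 = G.1 → F = G :=
    List.inj_on_of_nodup_map h6.1.1.1
  intro r
  induction r with
  | zero =>
    intro F hF hr
    have h7 := h5 F hF
    rw [if_pos (by rw [hr]; rfl), beq_iff_eq] at h7
    rw [h7]
    rfl
  | succ r ih =>
    intro F hF hr
    have h7 := h5 F hF
    rw [if_neg (by rw [hr]; simp), beq_iff_eq] at h7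
    rw [fc_succ, h7, ← List.sum_toFinset _ (hnd.filter _), ← finsum_mem_coe_finset]
    symm
    apply finsum_mem_eq_of_bijOn (fun G : FD => toSet D.n G.1)
    · refine ⟨?_, ?_, ?_⟩
      · intro G hG
        rw [Finset.mem_coe, List.mem_toFinset, List.mem_filter] at hG
        have h8 := below_spec hG.2
        exact ⟨face_of_mem h1 hG.1, by rw [rk_eq h1 h4 hG.1]; omega, toSet_sub h8.2⟩
      · intro G hG G' hG' hGG
        rw [Finset.mem_coe, List.mem_toFinset, List.mem_filter] at hG hG'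
        exact hinj G hG.1 G' hG'.1 (toSet_inj (mask_lt h1 hG.1) (mask_lt h1 hG'.1) hGG)
      · rintro S ⟨hS, hrS, hSF⟩
        obtain ⟨G, hG, rfl⟩ := mem_of_face h1 h2 h3 hS
        refine ⟨G, ?_, rfl⟩
        rw [Finset.mem_coe, List.mem_toFinset, List.mem_filter]
        refine ⟨hG, ?_⟩
        rw [rk_eq h1 h4 hG] at hrS
        rw [below, Bool.and_eq_true, beq_iff_eq, beq_iff_eq]
        exact ⟨by omega, sub_of_toSet (mask_lt h1 hG) hSF⟩
    · intro G hG
      rw [Finset.mem_coe, List.mem_toFinset, List.mem_filter] at hG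
      have h8 := below_spec hG.2
      exact (ih G hG.1 (by omega)).symm

/-- All faces, ranks and numbers of chains. -/
structure Ok (D : Raw) : Prop where
  face : ∀ S, IsFace D.vec S ↔ ∃ F ∈ D.faces, toSet D.n F.1 = S
  rk : ∀ F ∈ D.faces, rk D.vec (toSet D.n F.1) = F.2.1
  fc : ∀ F ∈ D.faces, fc D.vec F.2.1 (toSet D.n F.1) = F.2.2.1
  univ : ∃ F ∈ D.faces, toSet D.n F.1 = Set.univ ∧ F.2.1 = D.k
  empty : IsFace D.vec ∅
  pts : ∀ i, IsFace D.vec {i}
  lt : ∀ F ∈ D.faces, F.1 < 2 ^ D.n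

lemma ok_spec (h : D.ok = true) : Ok D := by
  simp only [ok, Bool.and_eq_true] at h
  obtain ⟨⟨⟨⟨⟨h1, h2⟩, h3⟩, h4⟩, h5⟩, h6⟩ := h
  have h6' := h6
  simp only [c6, Bool.and_eq_true, List.any_eq_true, List.all_eq_true, beq_iff_eq,
    List.mem_range] at h6'
  obtain ⟨⟨⟨-, F0, hF0, k0⟩, F1, hF1, k1, k2⟩, h7⟩ := h6'
  refine ⟨?_, fun F hF => rk_eq h1 h4 hF, fun F hF => fc_eq h1 h2 h3 h4 h5 h6 _ F hF rfl, ?_, ?_,
    ?_, fun F hF => mask_lt h1 hF⟩
  · intro S
    constructor
    · exact mem_of_face h1 h2 h3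
    · rintro ⟨F, hF, rfl⟩
      exact face_of_mem h1 hF
  · refine ⟨F1, hF1, ?_, k2⟩
    ext i
    rw [mem_toSet, k1]
    simp
  · have := face_of_mem h1 hF0
    rw [k0] at this
    have e : toSet D.n 0 = ∅ := by
      ext i
      rw [mem_toSet]
      simp
    rwa [e] at this
  · intro i
    obtain ⟨F, hF, k⟩ := h7 i.val i.isLt
    have := face_of_mem h1 hF
    rw [k] at this
    have e : toSet D.n (2 ^ i.val) = {i} := by
      ext j
      rw [mem_toSet, Nat.testBit_two_pow, Set.mem_singleton_iff, decide_eq_true_eq]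
      exact ⟨fun h => Fin.ext h.symm, fun h => by rw [h]⟩
    rwa [e] at this

/-- the configuration of the data -/
def cfg (D : Raw) (h : Ok D) (d : ℕ) (hd : D.k = d + 1) : Cfg d where
  ι := Fin D.n
  V := Fin D.k → ℝ
  a := D.vec
  hV := by rw [Module.finrank_fin_fun, hd]
  hrk := by
    obtain ⟨F, hF, k1, k2⟩ := h.univ
    rw [← k1, h.rk F hF, k2, hd]
  pt := h.empty
  vert := h.pts

/-- `F` is the face with the given mask, rank and number of chains. -/
def has (D : Raw) (t r c : ℕ) : Bool :=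
  D.faces.any fun F => (F.1 == t) && (F.2.1 == r) && (F.2.2.1 == c)

lemma Ok.has (h : Ok D) {t r c : ℕ} (hh : D.has t r c = true) :
    IsFace D.vec (toSet D.n t) ∧ Run7.h249.rk D.vec (toSet D.n t) = r ∧
      Run7.h739.fc D.vec r (toSet D.n t) = c := by
  simp only [Raw.has, List.any_eq_true, Bool.and_eq_true, beq_iff_eq] at hh
  obtain ⟨F, hF, ⟨k1, k2⟩, k3⟩ := hh
  subst k1
  refine ⟨(h.face _).2 ⟨F, hF, rfl⟩, ?_, ?_⟩
  · rw [h.rk F hF, k2]
  · rw [← k3, ← k2, h.fc F hF]

/-- the permutation with the given list of images preserves the faces -/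
def permOK (D : Raw) (p : List ℕ) : Bool := D.faces.all fun F => D.faces.any fun G =>
  (List.range D.n).all fun i => G.1.testBit (p.getD i 0) == F.1.testBit i

lemma Ok.perm (h : Ok D) {p : List ℕ} (hp : D.permOK p = true) (T : Equiv.Perm (Fin D.n))
    (hT : ∀ i, (T i : ℕ) = p.getD i 0) (S : Set (Fin D.n)) (hS : IsFace D.vec S) :
    IsFace D.vec (T '' S) := by
  rw [h.face] at hS
  obtain ⟨F, hF, rfl⟩ := hS
  simp only [permOK, List.any_eq_true, List.all_eq_true, beq_iff_eq, List.mem_range] at hp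
  obtain ⟨G, hG, hFG⟩ := hp F hF
  rw [h.face]
  refine ⟨G, hG, ?_⟩
  ext j
  obtain ⟨i, rfl⟩ := T.surjective j
  rw [mem_toSet, hT, hFG i i.isLt, T.injective.mem_set_image, mem_toSet]

end Raw

end Run7.h739.Expl
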