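import Pool.Agent.Run7.h739.Expl

/-!
# Data of the explicit configurations
-/

set_option maxRecDepth 100000

namespace Run7.h739.Expl

open Run7.h249 Run7.h739 Raw

/-- vertices `(0,±2,±2,0)`, `(±2,0,0,±2)`, `±(0,0,4,0)` -/
def core0D : Raw where
  n := 10
  k := 5
  rows := [[0, 2, 2, 0, 1], [0, 2, -2, 0, 1], [0, -2, 2, 0, 1], [0, -2, -2, 0, 1], [2, 0, 0, 2, 1], [2, 0, 0, -2, 1], [-2, 0, 0, 2, 1], [-2, 0, 0, -2, 1], [0, 0, 4, 0, 1], [0, 0, -4, 0, 1]]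
  faces := [(0, 0, 1, [0, 0, 0, 0, 4]),
    (1, 1, 1, [1, -2, -1, 0, 6]),
    (2, 1, 1, [1, -2, 1, 0, 6]),
    (4, 1, 1, [1, 2, -1, 0, 6]),
    (512, 1, 1, [0, 0, 2, 0, 8]),
    (256, 1, 1, [0, 0, -2, 0, 8]),
    (8, 1, 1, [1, 2, 1, 0, 6]),
    (16, 1, 1, [-1, 0, 0, -1, 4]),
    (32, 1, 1, [-1, 0, 0, 1, 4]),
    (64, 1, 1, [1, 0, 0, -1, 4]),
    (128, 1, 1, [1, 0, 0, 1, 4]),
    (514, 2, 2, [0, -2, 2, 0, 8]),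
    (3, 2, 2, [0, -2, 0, 0, 4]),
    (520, 2, 2, [0, 2, 2, 0, 8]),
    (257, 2, 2, [0, -2, -2, 0, 8]),
    (260, 2, 2, [0, 2, -2, 0, 8]),
    (12, 2, 2, [0, 2, 0, 0, 4]),
    (17, 2, 2, [-1, -2, -1, -2, 6]),
    (18, 2, 2, [-1, -2, 1, -2, 6]),
    (528, 2, 2, [-2, 0, 2, -2, 8]),
    (20, 2, 2, [-1, 2, -1, -2, 6]),
    (272, 2, 2, [-2, 0, -2, -2, 8]),
    (24, 2, 2, [-1, 2, 1, -2, 6]),
    (33, 2, 2, [-1, -2, -1, 2, 6]),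
    (34, 2, 2, [-1, -2, 1, 2, 6]),
    (544, 2, 2, [-2, 0, 2, 2, 8]),
    (36, 2, 2, [-1, 2, -1, 2, 6]),
    (288, 2, 2, [-2, 0, -2, 2, 8]),
    (40, 2, 2, [-1, 2, 1, 2, 6]),
    (48, 2, 2, [-2, 0, 0, 0, 4]),
    (65, 2, 2, [2, -2, -1, -1, 6]),
    (66, 2, 2, [2, -2, 1, -1, 6]),
    (68, 2, 2, [2, 2, -1, -1, 6]),
    (576, 2, 2, [2, 0, 2, -2, 8]),
    (320, 2, 2, [2, 0, -2, -2, 8]),
    (72, 2, 2, [2, 2, 1, -1, 6]),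
    (80, 2, 2, [0, 0, 0, -2, 4]),
    (129, 2, 2, [2, -2, -1, 1, 6]),
    (130, 2, 2, [2, -2, 1, 1, 6]),
    (640, 2, 2, [2, 0, 2, 2, 8]),
    (132, 2, 2, [2, 2, -1, 1, 6]),
    (384, 2, 2, [2, 0, -2, 2, 8]),
    (136, 2, 2, [2, 2, 1, 1, 6]),
    (160, 2, 2, [0, 0, 0, 2, 4]),
    (192, 2, 2, [2, 0, 0, 0, 4]),
    (530, 3, 6, [-2, -2, 2, -2, 8]),
    (19, 3, 6, [-1, -2, 0, -1, 4]),
    (536, 3, 6, [-2, 2, 2, -2, 8]),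
    (273, 3, 6, [-2, -2, -2, -2, 8]),
    (276, 3, 6, [-2, 2, -2, -2, 8]),
    (28, 3, 6, [-1, 2, 0, -1, 4]),
    (546, 3, 6, [-2, -2, 2, 2, 8]),
    (35, 3, 6, [-1, -2, 0, 1, 4]),
    (552, 3, 6, [-2, 2, 2, 2, 8]),
    (289, 3, 6, [-2, -2, -2, 2, 8]),
    (292, 3, 6, [-2, 2, -2, 2, 8]),
    (44, 3, 6, [-1, 2, 0, 1, 4]),
    (416, 3, 6, [0, 0, -2, 4, 8]),
    (49, 3, 6, [-3, -2, -1, 0, 6]),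
    (50, 3, 6, [-3, -2, 1, 0, 6]),
    (560, 3, 6, [-4, 0, 2, 0, 8]),
    (52, 3, 6, [-3, 2, -1, 0, 6]),
    (56, 3, 6, [-3, 2, 1, 0, 6]),
    (578, 3, 6, [2, -2, 2, -2, 8]),
    (67, 3, 6, [1, -2, 0, -1, 4]),
    (584, 3, 6, [2, 2, 2, -2, 8]),
    (321, 3, 6, [2, -2, -2, -2, 8]),
    (324, 3, 6, [2, 2, -2, -2, 8]),
    (76, 3, 6, [1, 2, 0, -1, 4]),
    (81, 3, 6, [0, -2, -1, -3, 6]),
    (82, 3, 6, [0, -2, 1, -3, 6]),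
    (592, 3, 6, [0, 0, 2, -4, 8]),
    (84, 3, 6, [0, 2, -1, -3, 6]),
    (88, 3, 6, [0, 2, 1, -3, 6]),
    (642, 3, 6, [2, -2, 2, 2, 8]),
    (131, 3, 6, [1, -2, 0, 1, 4]),
    (648, 3, 6, [2, 2, 2, 2, 8]),
    (385, 3, 6, [2, -2, -2, 2, 8]),
    (388, 3, 6, [2, 2, -2, 2, 8]),
    (140, 3, 6, [1, 2, 0, 1, 4]),
    (336, 3, 6, [0, 0, -2, -4, 8]),
    (161, 3, 6, [0, -2, -1, 3, 6]),
    (162, 3, 6, [0, -2, 1, 3, 6]),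
    (672, 3, 6, [0, 0, 2, 4, 8]),
    (164, 3, 6, [0, 2, -1, 3, 6]),
    (168, 3, 6, [0, 2, 1, 3, 6]),
    (193, 3, 6, [3, -2, -1, 0, 6]),
    (194, 3, 6, [3, -2, 1, 0, 6]),
    (704, 3, 6, [4, 0, 2, 0, 8]),
    (196, 3, 6, [3, 2, -1, 0, 6]),
    (200, 3, 6, [3, 2, 1, 0, 6]),
    (448, 3, 6, [4, 0, -2, 0, 8]),
    (304, 3, 6, [-4, 0, -2, 0, 8]),
    (305, 4, 24, [-2, -1, -1, 0, 4]),
    (562, 4, 24, [-2, -1, 1, 0, 4]),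
    (51, 4, 24, [-1, -1, 0, 0, 2]),
    (308, 4, 24, [-2, 1, -1, 0, 4]),
    (568, 4, 24, [-2, 1, 1, 0, 4]),
    (60, 4, 24, [-1, 1, 0, 0, 2]),
    (337, 4, 24, [0, -1, -1, -2, 4]),
    (594, 4, 24, [0, -1, 1, -2, 4]),
    (83, 4, 24, [0, -1, 0, -1, 2]),
    (340, 4, 24, [0, 1, -1, -2, 4]),
    (600, 4, 24, [0, 1, 1, -2, 4]),
    (92, 4, 24, [0, 1, 0, -1, 2]),
    (417, 4, 24, [0, -1, -1, 2, 4]),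
    (674, 4, 24, [0, -1, 1, 2, 4]),
    (163, 4, 24, [0, -1, 0, 1, 2]),
    (420, 4, 24, [0, 1, -1, 2, 4]),
    (680, 4, 24, [0, 1, 1, 2, 4]),
    (172, 4, 24, [0, 1, 0, 1, 2]),
    (449, 4, 24, [2, -1, -1, 0, 4]),
    (706, 4, 24, [2, -1, 1, 0, 4]),
    (195, 4, 24, [1, -1, 0, 0, 2]),
    (452, 4, 24, [2, 1, -1, 0, 4]),
    (712, 4, 24, [2, 1, 1, 0, 4]),
    (204, 4, 24, [1, 1, 0, 0, 2]),
    (1023, 5, 576, [0, 0, 0, 0, 0])]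
  circ := [(768, 9, [-1, 0, 0, -1, 0, 0, 0, 0, 1, 1]),
    (144, 96, [0, 0, 0, 0, 1, -1, -1, 1, 0, 0]),
    (513, 6, [2, -3, -1, 0, 0, 0, 0, 0, 0, 2]),
    (258, 5, [-2, 1, -1, 0, 0, 0, 0, 0, 2, 0]),
    (516, 264, [0, 0, 2, -2, 0, 0, 0, 0, -1, 1]),
    (608, 10, [0, -2, 0, -2, 0, 1, 1, 0, 0, 2]),
    (768, 144, [0, 0, 0, 0, -1, 0, 0, -1, 1, 1])]

lemma core0D_ok : Ok core0D := ok_spec (by decide +kernel)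
/-- vertices `(0,±2,±2,0)`, `(±2,0,0,±2)`, `±(0,0,3,1)` -/
def core1D : Raw where
  n := 10
  k := 5
  rows := [[0, 2, 2, 0, 1], [0, 2, -2, 0, 1], [0, -2, 2, 0, 1], [0, -2, -2, 0, 1], [2, 0, 0, 2, 1], [2, 0, 0, -2, 1], [-2, 0, 0, 2, 1], [-2, 0, 0, -2, 1], [0, 0, 3, 1, 1], [0, 0, -3, -1, 1]]
  faces := [(0, 0, 1, [0, 0, 0, 0, 4]),
    (1, 1, 1, [2, -2, -2, 0, 8]),
    (2, 1, 1, [2, -2, 2, 0, 8]),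
    (512, 1, 1, [0, 0, 4, 0, 12]),
    (4, 1, 1, [2, 2, -2, 0, 8]),
    (256, 1, 1, [0, 0, -4, 0, 12]),
    (8, 1, 1, [2, 2, 2, 0, 8]),
    (16, 1, 1, [-1, 0, 0, -1, 4]),
    (32, 1, 1, [-1, 0, 0, 1, 4]),
    (64, 1, 1, [1, 0, 0, -1, 4]),
    (128, 1, 1, [1, 0, 0, 1, 4]),
    (514, 2, 2, [0, -2, 4, 0, 12]),
    (3, 2, 2, [0, -2, 0, 0, 4]),
    (520, 2, 2, [0, 2, 4, 0, 12]),
    (257, 2, 2, [0, -2, -4, 0, 12]),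
    (260, 2, 2, [0, 2, -4, 0, 12]),
    (12, 2, 2, [0, 2, 0, 0, 4]),
    (17, 2, 2, [-1, -3, -1, -3, 8]),
    (18, 2, 2, [-1, -1, 1, -1, 4]),
    (20, 2, 2, [-1, 3, -1, -3, 8]),
    (272, 2, 2, [-3, 1, -3, -3, 12]),
    (24, 2, 2, [-1, 1, 1, -1, 4]),
    (544, 2, 2, [-3, 1, 3, 3, 12]),
    (34, 2, 2, [-1, -3, 1, 3, 8]),
    (33, 2, 2, [-1, -1, -1, 1, 4]),
    (36, 2, 2, [-1, 1, -1, 1, 4]),
    (40, 2, 2, [-1, 3, 1, 3, 8]),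
    (48, 2, 2, [-2, 0, 0, 0, 4]),
    (65, 2, 2, [3, -2, -2, -1, 8]),
    (66, 2, 2, [3, -2, 2, -1, 8]),
    (68, 2, 2, [3, 2, -2, -1, 8]),
    (320, 2, 2, [3, -1, -3, -3, 12]),
    (72, 2, 2, [3, 2, 2, -1, 8]),
    (80, 2, 2, [0, 0, 0, -2, 4]),
    (576, 2, 2, [6, 0, 5, -1, 14]),
    (528, 2, 2, [-6, 0, 5, -1, 14]),
    (129, 2, 2, [3, -2, -2, 1, 8]),
    (130, 2, 2, [3, -2, 2, 1, 8]),
    (640, 2, 2, [3, -1, 3, 3, 12]),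
    (132, 2, 2, [3, 2, -2, 1, 8]),
    (136, 2, 2, [3, 2, 2, 1, 8]),
    (384, 2, 2, [6, 0, -5, 1, 14]),
    (160, 2, 2, [0, 0, 0, 2, 4]),
    (288, 2, 2, [-6, 0, -5, 1, 14]),
    (192, 2, 2, [2, 0, 0, 0, 4]),
    (19, 3, 6, [-1, -2, 0, -1, 4]),
    (530, 3, 6, [-3, -1, 3, -1, 8]),
    (273, 3, 6, [-3, -3, -3, -3, 12]),
    (536, 3, 6, [-3, 1, 3, -1, 8]),
    (276, 3, 6, [-3, 3, -3, -3, 12]),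
    (28, 3, 6, [-1, 2, 0, -1, 4]),
    (546, 3, 6, [-3, -3, 3, 3, 12]),
    (35, 3, 6, [-1, -2, 0, 1, 4]),
    (289, 3, 6, [-3, -1, -3, 1, 8]),
    (552, 3, 6, [-3, 3, 3, 3, 12]),
    (292, 3, 6, [-3, 1, -3, 1, 8]),
    (44, 3, 6, [-1, 2, 0, 1, 4]),
    (49, 3, 6, [-4, -2, -2, 0, 8]),
    (50, 3, 6, [-4, -2, 2, 0, 8]),
    (560, 3, 6, [-6, 0, 4, 0, 12]),
    (52, 3, 6, [-4, 2, -2, 0, 8]),
    (56, 3, 6, [-4, 2, 2, 0, 8]),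
    (578, 3, 6, [3, -1, 3, -1, 8]),
    (67, 3, 6, [1, -2, 0, -1, 4]),
    (321, 3, 6, [3, -3, -3, -3, 12]),
    (584, 3, 6, [3, 1, 3, -1, 8]),
    (324, 3, 6, [3, 3, -3, -3, 12]),
    (76, 3, 6, [1, 2, 0, -1, 4]),
    (81, 3, 6, [0, -3, -1, -4, 8]),
    (82, 3, 6, [0, -1, 1, -2, 4]),
    (84, 3, 6, [0, 3, -1, -4, 8]),
    (336, 3, 6, [0, 0, -2, -6, 12]),
    (88, 3, 6, [0, 1, 1, -2, 4]),
    (642, 3, 6, [3, -3, 3, 3, 12]),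
    (131, 3, 6, [1, -2, 0, 1, 4]),
    (385, 3, 6, [3, -1, -3, 1, 8]),
    (648, 3, 6, [3, 3, 3, 3, 12]),
    (388, 3, 6, [3, 1, -3, 1, 8]),
    (140, 3, 6, [1, 2, 0, 1, 4]),
    (672, 3, 6, [0, 0, 2, 6, 12]),
    (162, 3, 6, [0, -3, 1, 4, 8]),
    (161, 3, 6, [0, -1, -1, 2, 4]),
    (164, 3, 6, [0, 1, -1, 2, 4]),
    (168, 3, 6, [0, 3, 1, 4, 8]),
    (193, 3, 6, [4, -2, -2, 0, 8]),
    (194, 3, 6, [4, -2, 2, 0, 8]),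
    (704, 3, 6, [6, 0, 4, 0, 12]),
    (196, 3, 6, [4, 2, -2, 0, 8]),
    (200, 3, 6, [4, 2, 2, 0, 8]),
    (448, 3, 6, [6, 0, -4, 0, 12]),
    (304, 3, 6, [-6, 0, -4, 0, 12]),
    (305, 4, 24, [-3, -1, -2, 0, 6]),
    (562, 4, 24, [-3, -1, 2, 0, 6]),
    (51, 4, 24, [-1, -1, 0, 0, 2]),
    (308, 4, 24, [-3, 1, -2, 0, 6]),
    (568, 4, 24, [-3, 1, 2, 0, 6]),
    (60, 4, 24, [-1, 1, 0, 0, 2]),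
    (337, 4, 24, [0, -2, -1, -3, 6]),
    (83, 4, 24, [0, -1, 0, -1, 2]),
    (340, 4, 24, [0, 2, -1, -3, 6]),
    (92, 4, 24, [0, 1, 0, -1, 2]),
    (674, 4, 24, [0, -2, 1, 3, 6]),
    (163, 4, 24, [0, -1, 0, 1, 2]),
    (680, 4, 24, [0, 2, 1, 3, 6]),
    (172, 4, 24, [0, 1, 0, 1, 2]),
    (449, 4, 24, [3, -1, -2, 0, 6]),
    (706, 4, 24, [3, -1, 2, 0, 6]),
    (195, 4, 24, [1, -1, 0, 0, 2]),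
    (452, 4, 24, [3, 1, -2, 0, 6]),
    (712, 4, 24, [3, 1, 2, 0, 6]),
    (204, 4, 24, [1, 1, 0, 0, 2]),
    (602, 4, 36, [0, 0, 1, -1, 2]),
    (421, 4, 36, [0, 0, -1, 1, 2]),
    (1023, 5, 552, [0, 0, 0, 0, 0])]
  circ := [(144, 96, [0, 0, 0, 0, 1, -1, -1, 1, 0, 0]),
    (768, 9, [-1, 0, 0, -1, 0, 0, 0, 0, 1, 1]),
    (144, 6, [0, -1, -1, 0, 1, 0, 0, 1, 0, 0]),
    (264, 116, [0, 0, -3, 3, -1, -1, -2, 0, 4, 0]),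
    (416, 5, [-3, 0, -3, 0, 0, 1, 0, 1, 4, 0]),
    (592, 10, [0, -3, 0, -3, 1, 0, 1, 0, 0, 4]),
    (513, 418, [3, -3, 0, 0, 0, -1, 0, -1, -1, 3]),
    (516, 424, [0, 0, 3, -3, 0, -1, 0, -1, -1, 3]),
    (593, 258, [3, -3, 0, 0, 1, 0, 1, 0, -3, 1])]

lemma core1D_ok : Ok core1D := ok_spec (by decide +kernel)
/-- vertices `(0,±2,±2,0)`, `(±2,0,0,±2)`, `±(0,0,2,2)` -/
def core2D : Raw where
  n := 10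
  k := 5
  rows := [[0, 2, 2, 0, 1], [0, 2, -2, 0, 1], [0, -2, 2, 0, 1], [0, -2, -2, 0, 1], [2, 0, 0, 2, 1], [2, 0, 0, -2, 1], [-2, 0, 0, 2, 1], [-2, 0, 0, -2, 1], [0, 0, 2, 2, 1], [0, 0, -2, -2, 1]]
  faces := [(0, 0, 1, [0, 0, 0, 0, 4]),
    (1, 1, 1, [0, -1, -1, 0, 4]),
    (2, 1, 1, [0, -1, 1, 0, 4]),
    (4, 1, 1, [0, 1, -1, 0, 4]),
    (8, 1, 1, [0, 1, 1, 0, 4]),
    (256, 1, 1, [0, 0, -2, -2, 8]),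
    (16, 1, 1, [-1, 0, 0, -1, 4]),
    (512, 1, 1, [0, 0, 2, 2, 8]),
    (32, 1, 1, [-1, 0, 0, 1, 4]),
    (64, 1, 1, [1, 0, 0, -1, 4]),
    (128, 1, 1, [1, 0, 0, 1, 4]),
    (3, 2, 2, [0, -2, 0, 0, 4]),
    (257, 2, 2, [0, -1, -2, -1, 6]),
    (514, 2, 2, [0, -1, 2, 1, 6]),
    (260, 2, 2, [0, 1, -2, -1, 6]),
    (5, 2, 2, [0, 0, -3, 1, 6]),
    (12, 2, 2, [0, 2, 0, 0, 4]),
    (520, 2, 2, [0, 1, 2, 1, 6]),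
    (10, 2, 2, [0, 0, 3, -1, 6]),
    (18, 2, 2, [-1, -1, 1, -1, 4]),
    (272, 2, 2, [-1, 0, -1, -2, 6]),
    (17, 2, 2, [-2, -2, -1, -1, 6]),
    (20, 2, 2, [-2, 2, -1, -1, 6]),
    (24, 2, 2, [-1, 1, 1, -1, 4]),
    (33, 2, 2, [-1, -1, -1, 1, 4]),
    (36, 2, 2, [-1, 1, -1, 1, 4]),
    (544, 2, 2, [-1, 0, 1, 2, 6]),
    (34, 2, 2, [-2, -2, 1, 1, 6]),
    (40, 2, 2, [-2, 2, 1, 1, 6]),
    (48, 2, 2, [-2, 0, 0, 0, 4]),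
    (66, 2, 2, [1, -1, 1, -1, 4]),
    (320, 2, 2, [1, 0, -1, -2, 6]),
    (65, 2, 2, [2, -2, -1, -1, 6]),
    (68, 2, 2, [2, 2, -1, -1, 6]),
    (72, 2, 2, [1, 1, 1, -1, 4]),
    (80, 2, 2, [0, 0, 1, -3, 6]),
    (129, 2, 2, [1, -1, -1, 1, 4]),
    (132, 2, 2, [1, 1, -1, 1, 4]),
    (640, 2, 2, [1, 0, 1, 2, 6]),
    (130, 2, 2, [2, -2, 1, 1, 6]),
    (136, 2, 2, [2, 2, 1, 1, 6]),
    (160, 2, 2, [0, 0, -1, 3, 6]),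
    (192, 2, 2, [2, 0, 0, 0, 4]),
    (261, 3, 6, [0, 0, -2, 0, 4]),
    (522, 3, 6, [0, 0, 2, 0, 4]),
    (273, 3, 6, [-1, -1, -1, -1, 4]),
    (19, 3, 6, [-1, -2, 0, -1, 4]),
    (276, 3, 6, [-1, 1, -1, -1, 4]),
    (26, 3, 6, [-1, 0, 2, -1, 4]),
    (28, 3, 6, [-1, 2, 0, -1, 4]),
    (546, 3, 6, [-1, -1, 1, 1, 4]),
    (35, 3, 6, [-1, -2, 0, 1, 4]),
    (37, 3, 6, [-1, 0, -2, 1, 4]),
    (552, 3, 6, [-1, 1, 1, 1, 4]),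
    (44, 3, 6, [-1, 2, 0, 1, 4]),
    (49, 3, 6, [-2, -1, -1, 0, 4]),
    (50, 3, 6, [-2, -1, 1, 0, 4]),
    (52, 3, 6, [-2, 1, -1, 0, 4]),
    (56, 3, 6, [-2, 1, 1, 0, 4]),
    (321, 3, 6, [1, -1, -1, -1, 4]),
    (67, 3, 6, [1, -2, 0, -1, 4]),
    (324, 3, 6, [1, 1, -1, -1, 4]),
    (74, 3, 6, [1, 0, 2, -1, 4]),
    (76, 3, 6, [1, 2, 0, -1, 4]),
    (336, 3, 6, [0, 0, 0, -2, 4]),
    (82, 3, 6, [0, -1, 1, -2, 4]),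
    (88, 3, 6, [0, 1, 1, -2, 4]),
    (642, 3, 6, [1, -1, 1, 1, 4]),
    (131, 3, 6, [1, -2, 0, 1, 4]),
    (133, 3, 6, [1, 0, -2, 1, 4]),
    (648, 3, 6, [1, 1, 1, 1, 4]),
    (140, 3, 6, [1, 2, 0, 1, 4]),
    (672, 3, 6, [0, 0, 0, 2, 4]),
    (161, 3, 6, [0, -1, -1, 2, 4]),
    (164, 3, 6, [0, 1, -1, 2, 4]),
    (193, 3, 6, [2, -1, -1, 0, 4]),
    (194, 3, 6, [2, -1, 1, 0, 4]),
    (196, 3, 6, [2, 1, -1, 0, 4]),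
    (200, 3, 6, [2, 1, 1, 0, 4]),
    (51, 4, 24, [-1, -1, 0, 0, 2]),
    (60, 4, 24, [-1, 1, 0, 0, 2]),
    (90, 4, 24, [0, 0, 1, -1, 2]),
    (165, 4, 24, [0, 0, -1, 1, 2]),
    (195, 4, 24, [1, -1, 0, 0, 2]),
    (204, 4, 24, [1, 1, 0, 0, 2]),
    (309, 4, 36, [-1, 0, -1, 0, 2]),
    (570, 4, 36, [-1, 0, 1, 0, 2]),
    (339, 4, 36, [0, -1, 0, -1, 2]),
    (348, 4, 36, [0, 1, 0, -1, 2]),
    (675, 4, 36, [0, -1, 0, 1, 2]),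
    (684, 4, 36, [0, 1, 0, 1, 2]),
    (453, 4, 36, [1, 0, -1, 0, 2]),
    (714, 4, 36, [1, 0, 1, 0, 2]),
    (1023, 5, 432, [0, 0, 0, 0, 0])]
  circ := [(768, 9, [-1, 0, 0, -1, 0, 0, 0, 0, 1, 1]),
    (144, 96, [0, 0, 0, 0, 1, -1, -1, 1, 0, 0]),
    (768, 6, [0, -1, -1, 0, 0, 0, 0, 0, 1, 1]),
    (258, 81, [-1, 1, 0, 0, -1, 0, -1, 0, 2, 0]),
    (516, 168, [0, 0, 1, -1, 0, -1, 0, -1, 0, 2]),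
    (384, 69, [-1, 0, -1, 0, 0, 0, -1, 1, 2, 0]),
    (528, 42, [0, -1, 0, -1, 1, -1, 0, 0, 0, 2]),
    (264, 84, [0, 0, -1, 1, -1, 0, -1, 0, 2, 0]),
    (513, 162, [1, -1, 0, 0, 0, -1, 0, -1, 0, 2]),
    (288, 21, [-1, 0, -1, 0, -1, 1, 0, 0, 2, 0]),
    (576, 138, [0, -1, 0, -1, 0, 0, 1, -1, 0, 2]),
    (768, 144, [0, 0, 0, 0, -1, 0, 0, -1, 1, 1])]

lemma core2D_ok : Ok core2D := ok_spec (by decide +kernel)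
/-- vertices `(0,±2,±2,0)`, `(±2,0,0,±2)`, `±(0,0,4,2)` -/
def core3D : Raw where
  n := 10
  k := 5
  rows := [[0, 2, 2, 0, 1], [0, 2, -2, 0, 1], [0, -2, 2, 0, 1], [0, -2, -2, 0, 1], [2, 0, 0, 2, 1], [2, 0, 0, -2, 1], [-2, 0, 0, 2, 1], [-2, 0, 0, -2, 1], [0, 0, 4, 2, 1], [0, 0, -4, -2, 1]]
  faces := [(0, 0, 1, [0, 0, 0, 0, 4]),
    (1, 1, 1, [1, -2, -1, 0, 6]),
    (256, 1, 1, [0, 0, -2, 0, 8]),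
    (2, 1, 1, [1, -2, 1, 0, 6]),
    (4, 1, 1, [1, 2, -1, 0, 6]),
    (8, 1, 1, [1, 2, 1, 0, 6]),
    (16, 1, 1, [-1, 0, 0, -1, 4]),
    (512, 1, 1, [0, 0, 2, 0, 8]),
    (32, 1, 1, [-1, 0, 0, 1, 4]),
    (64, 1, 1, [1, 0, 0, -1, 4]),
    (128, 1, 1, [1, 0, 0, 1, 4]),
    (257, 2, 2, [0, -2, -2, 0, 8]),
    (514, 2, 2, [0, -2, 2, 0, 8]),
    (3, 2, 2, [0, -2, 0, 0, 4]),
    (520, 2, 2, [0, 2, 2, 0, 8]),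
    (260, 2, 2, [0, 2, -2, 0, 8]),
    (12, 2, 2, [0, 2, 0, 0, 4]),
    (18, 2, 2, [-1, -1, 1, -1, 4]),
    (272, 2, 2, [-2, 0, -1, -1, 6]),
    (24, 2, 2, [-1, 1, 1, -1, 4]),
    (17, 2, 2, [-3, -3, -1, -1, 8]),
    (20, 2, 2, [-3, 3, -1, -1, 8]),
    (33, 2, 2, [-1, -1, -1, 1, 4]),
    (544, 2, 2, [-2, 0, 1, 1, 6]),
    (36, 2, 2, [-1, 1, -1, 1, 4]),
    (34, 2, 2, [-3, -3, 1, 1, 8]),
    (40, 2, 2, [-3, 3, 1, 1, 8]),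
    (48, 2, 2, [-2, 0, 0, 0, 4]),
    (320, 2, 2, [2, 0, -1, -1, 6]),
    (66, 2, 2, [1, -1, 1, -1, 4]),
    (65, 2, 2, [3, -3, -1, -1, 8]),
    (72, 2, 2, [1, 1, 1, -1, 4]),
    (68, 2, 2, [3, 3, -1, -1, 8]),
    (80, 2, 2, [0, 0, 1, -3, 6]),
    (576, 2, 2, [4, 0, 3, -1, 10]),
    (528, 2, 2, [-4, 0, 3, -1, 10]),
    (129, 2, 2, [1, -1, -1, 1, 4]),
    (640, 2, 2, [2, 0, 1, 1, 6]),
    (132, 2, 2, [1, 1, -1, 1, 4]),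
    (384, 2, 2, [4, 0, -3, 1, 10]),
    (130, 2, 2, [3, -3, 1, 1, 8]),
    (136, 2, 2, [3, 3, 1, 1, 8]),
    (160, 2, 2, [0, 0, -1, 3, 6]),
    (288, 2, 2, [-4, 0, -3, 1, 10]),
    (192, 2, 2, [2, 0, 0, 0, 4]),
    (273, 3, 6, [-2, -2, -1, -1, 6]),
    (19, 3, 6, [-1, -2, 0, -1, 4]),
    (530, 3, 6, [-2, -1, 2, -1, 6]),
    (276, 3, 6, [-2, 2, -1, -1, 6]),
    (536, 3, 6, [-2, 1, 2, -1, 6]),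
    (28, 3, 6, [-1, 2, 0, -1, 4]),
    (546, 3, 6, [-2, -2, 1, 1, 6]),
    (35, 3, 6, [-1, -2, 0, 1, 4]),
    (289, 3, 6, [-2, -1, -2, 1, 6]),
    (292, 3, 6, [-2, 1, -2, 1, 6]),
    (552, 3, 6, [-2, 2, 1, 1, 6]),
    (44, 3, 6, [-1, 2, 0, 1, 4]),
    (49, 3, 6, [-3, -2, -1, 0, 6]),
    (304, 3, 6, [-4, 0, -2, 0, 8]),
    (50, 3, 6, [-3, -2, 1, 0, 6]),
    (560, 3, 6, [-4, 0, 2, 0, 8]),
    (52, 3, 6, [-3, 2, -1, 0, 6]),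
    (56, 3, 6, [-3, 2, 1, 0, 6]),
    (321, 3, 6, [2, -2, -1, -1, 6]),
    (578, 3, 6, [2, -1, 2, -1, 6]),
    (67, 3, 6, [1, -2, 0, -1, 4]),
    (324, 3, 6, [2, 2, -1, -1, 6]),
    (584, 3, 6, [2, 1, 2, -1, 6]),
    (76, 3, 6, [1, 2, 0, -1, 4]),
    (336, 3, 6, [0, 0, 0, -2, 4]),
    (82, 3, 6, [0, -1, 1, -2, 4]),
    (88, 3, 6, [0, 1, 1, -2, 4]),
    (385, 3, 6, [2, -1, -2, 1, 6]),
    (642, 3, 6, [2, -2, 1, 1, 6]),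
    (131, 3, 6, [1, -2, 0, 1, 4]),
    (388, 3, 6, [2, 1, -2, 1, 6]),
    (648, 3, 6, [2, 2, 1, 1, 6]),
    (140, 3, 6, [1, 2, 0, 1, 4]),
    (672, 3, 6, [0, 0, 0, 2, 4]),
    (161, 3, 6, [0, -1, -1, 2, 4]),
    (164, 3, 6, [0, 1, -1, 2, 4]),
    (193, 3, 6, [3, -2, -1, 0, 6]),
    (448, 3, 6, [4, 0, -2, 0, 8]),
    (194, 3, 6, [3, -2, 1, 0, 6]),
    (704, 3, 6, [4, 0, 2, 0, 8]),
    (196, 3, 6, [3, 2, -1, 0, 6]),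
    (200, 3, 6, [3, 2, 1, 0, 6]),
    (305, 4, 24, [-2, -1, -1, 0, 4]),
    (562, 4, 24, [-2, -1, 1, 0, 4]),
    (51, 4, 24, [-1, -1, 0, 0, 2]),
    (308, 4, 24, [-2, 1, -1, 0, 4]),
    (568, 4, 24, [-2, 1, 1, 0, 4]),
    (60, 4, 24, [-1, 1, 0, 0, 2]),
    (449, 4, 24, [2, -1, -1, 0, 4]),
    (706, 4, 24, [2, -1, 1, 0, 4]),
    (195, 4, 24, [1, -1, 0, 0, 2]),
    (452, 4, 24, [2, 1, -1, 0, 4]),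
    (712, 4, 24, [2, 1, 1, 0, 4]),
    (204, 4, 24, [1, 1, 0, 0, 2]),
    (339, 4, 36, [0, -1, 0, -1, 2]),
    (602, 4, 36, [0, 0, 1, -1, 2]),
    (348, 4, 36, [0, 1, 0, -1, 2]),
    (675, 4, 36, [0, -1, 0, 1, 2]),
    (421, 4, 36, [0, 0, -1, 1, 2]),
    (684, 4, 36, [0, 1, 0, 1, 2]),
    (1023, 5, 504, [0, 0, 0, 0, 0])]
  circ := [(768, 9, [-1, 0, 0, -1, 0, 0, 0, 0, 1, 1]),
    (144, 96, [0, 0, 0, 0, 1, -1, -1, 1, 0, 0]),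
    (768, 6, [0, -1, -1, 0, 0, 0, 0, 0, 1, 1]),
    (416, 5, [-2, 0, -2, 0, 0, 1, 0, 1, 2, 0]),
    (592, 10, [0, -2, 0, -2, 1, 0, 1, 0, 0, 2]),
    (258, 81, [-2, 2, 0, 0, -1, 0, -1, 0, 2, 0]),
    (516, 168, [0, 0, 2, -2, 0, -1, 0, -1, 0, 2]),
    (264, 84, [0, 0, -2, 2, -1, 0, -1, 0, 2, 0]),
    (513, 162, [2, -2, 0, 0, 0, -1, 0, -1, 0, 2]),
    (768, 144, [0, 0, 0, 0, -1, 0, 0, -1, 1, 1])]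

lemma core3D_ok : Ok core3D := ok_spec (by decide +kernel)
/-- a simplicial 4-polytope with 10 vertices and 29 facets -/
def bD : Raw where
  n := 10
  k := 5
  rows := [[10, 2, 11, 2, 1], [3, 10, 5, 6, 1], [1, 0, 0, 0, 0], [3, 15, 6, 4, 1], [0, 1, 0, 0, 0], [14, 1, 13, 1, 1], [0, 0, 1, 0, 0], [5, 3, 10, 13, 1], [2, 14, 2, 15, 1], [0, 0, 0, 1, 0]]
  faces := [(0, 0, 1, [1, 4, 18, 19, -246]),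
    (512, 1, 1, [7, 4, 1, 0, -56]),
    (2, 1, 1, [7, 6, 18, 19, -285]),
    (1, 1, 1, [1, 4, 18, 23, -262]),
    (4, 1, 1, [0, 4, 18, 20, -245]),
    (8, 1, 1, [11, 4, 18, 20, -281]),
    (16, 1, 1, [1, 0, 4, 7, -54]),
    (32, 1, 1, [2, 10, 11, 21, -202]),
    (64, 1, 1, [36, 14, 0, 36, -459]),
    (128, 1, 1, [2, 40, 42, 1, -563]),
    (256, 1, 1, [53, 2, 4, 6, -232]),
    (3, 2, 2, [28, 23, 18, 30, -584]),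
    (5, 2, 2, [0, 6, 19, 19, -259]),
    (6, 2, 2, [0, 4, 21, 20, -265]),
    (516, 2, 2, [0, 2, 1, 0, -14]),
    (10, 2, 2, [3, 4, 20, 20, -269]),
    (9, 2, 2, [1, 4, 19, 25, -277]),
    (12, 2, 2, [0, 4, 21, 26, -290]),
    (20, 2, 2, [0, 0, 2, 2, -17]),
    (513, 2, 2, [1, 9, 3, 0, -61]),
    (24, 2, 2, [1, 0, 3, 7, -49]),
    (514, 2, 2, [12, 4, 1, 0, -81]),
    (544, 2, 2, [2, 11, 1, 0, -52]),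
    (33, 2, 2, [1, 1, 11, 25, -183]),
    (36, 2, 2, [0, 1, 11, 22, -166]),
    (40, 2, 2, [1, 1, 15, 34, -244]),
    (48, 2, 2, [1, 0, 1, 7, -34]),
    (65, 2, 2, [37, 14, 0, 39, -476]),
    (66, 2, 2, [43, 16, 0, 35, -499]),
    (576, 2, 2, [7, 2, 0, 0, -40]),
    (68, 2, 2, [0, 1, 0, 1, -1]),
    (72, 2, 2, [47, 14, 0, 36, -495]),
    (80, 2, 2, [2, 0, 0, 8, -35]),
    (17, 2, 2, [4, 0, 1, 17, -85]),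
    (18, 2, 2, [3, 0, 7, 3, -62]),
    (96, 2, 2, [1, 1, 0, 4, -19]),
    (528, 2, 2, [1, 0, 1, 0, -3]),
    (640, 2, 2, [7, 3, 1, 0, -54]),
    (129, 2, 2, [10, 70, 42, 2, -706]),
    (130, 2, 2, [7, 33, 42, 1, -567]),
    (132, 2, 2, [0, 39, 53, 1, -660]),
    (160, 2, 2, [13, 54, 1, 1, -250]),
    (192, 2, 2, [30, 28, 0, 11, -377]),
    (768, 2, 2, [4, 1, 1, 0, -24]),
    (258, 2, 2, [53, 2, 3, 6, -230]),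
    (260, 2, 2, [0, 8, 14, 1, -155]),
    (264, 2, 2, [67, 2, 2, 7, -271]),
    (272, 2, 2, [11, 0, 3, 2, -58]),
    (320, 2, 2, [54, 2, 0, 5, -211]),
    (384, 2, 2, [1, 75, 103, 1, -1273]),
    (517, 3, 6, [0, 3, 2, 0, -28]),
    (11, 3, 6, [36, 18, 18, 54, -702]),
    (7, 3, 6, [0, 35, 60, 20, -770]),
    (13, 3, 6, [0, 5, 29, 40, -409]),
    (14, 3, 6, [0, 4, 20, 20, -260]),
    (532, 3, 6, [0, 0, 1, 0, -1]),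
    (22, 3, 6, [0, 0, 5, 2, -37]),
    (25, 3, 6, [3, 0, 1, 13, -67]),
    (26, 3, 6, [3, 0, 4, 2, -41]),
    (28, 3, 6, [0, 0, 5, 8, -62]),
    (545, 3, 6, [1, 8, 2, 0, -48]),
    (548, 3, 6, [0, 3, 1, 0, -16]),
    (37, 3, 6, [0, 3, 12, 21, -180]),
    (41, 3, 6, [1, 1, 12, 27, -198]),
    (44, 3, 6, [0, 1, 14, 28, -211]),
    (49, 3, 6, [2, 0, 1, 10, -51]),
    (52, 3, 6, [0, 0, 3, 8, -47]),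
    (56, 3, 6, [1, 0, 4, 13, -79]),
    (578, 3, 6, [11, 3, 0, 0, -63]),
    (67, 3, 6, [64, 33, 0, 46, -798]),
    (580, 3, 6, [0, 1, 0, 0, 0]),
    (73, 3, 6, [38, 14, 0, 42, -492]),
    (74, 3, 6, [89, 16, 0, 40, -667]),
    (592, 3, 6, [1, 0, 0, 0, -1]),
    (81, 3, 6, [3, 0, 0, 11, -52]),
    (84, 3, 6, [0, 0, 0, 1, 0]),
    (88, 3, 6, [13, 0, 0, 8, -71]),
    (608, 3, 6, [2, 10, 0, 0, -38]),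
    (97, 3, 6, [11, 39, 0, 5, -198]),
    (100, 3, 6, [0, 1, 0, 1, -2]),
    (112, 3, 6, [1, 0, 0, 5, -19]),
    (642, 3, 6, [8, 3, 1, 0, -59]),
    (131, 3, 6, [28, 50, 42, 12, -866]),
    (133, 3, 6, [0, 32, 43, 1, -539]),
    (641, 3, 6, [1, 7, 2, 0, -46]),
    (134, 3, 6, [0, 97, 133, 2, -1647]),
    (644, 3, 6, [0, 9, 12, 0, -147]),
    (672, 3, 6, [3, 15, 1, 0, -70]),
    (161, 3, 6, [11, 45, 1, 1, -213]),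
    (704, 3, 6, [9, 11, 0, 0, -78]),
    (194, 3, 6, [35, 21, 0, 11, -381]),
    (193, 3, 6, [38, 58, 0, 12, -520]),
    (224, 3, 6, [12, 48, 0, 1, -217]),
    (770, 3, 6, [5, 2, 1, 0, -40]),
    (772, 3, 6, [0, 8, 12, 0, -136]),
    (262, 3, 6, [0, 66, 94, 2, -1142]),
    (266, 3, 6, [56, 2, 2, 6, -234]),
    (784, 3, 6, [1, 0, 1, 0, -4]),
    (274, 3, 6, [3, 0, 5, 2, -46]),
    (276, 3, 6, [0, 0, 4, 1, -23]),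
    (280, 3, 6, [14, 0, 2, 2, -62]),
    (832, 3, 6, [5, 1, 0, 0, -24]),
    (322, 3, 6, [57, 3, 0, 5, -231]),
    (328, 3, 6, [64, 2, 0, 6, -246]),
    (336, 3, 6, [12, 0, 0, 1, -39]),
    (896, 3, 6, [1, 9, 12, 0, -152]),
    (386, 3, 6, [1, 67, 92, 1, -1139]),
    (388, 3, 6, [0, 74, 102, 1, -1255]),
    (15, 4, 24, [0, 4, 18, 19, -244]),
    (30, 4, 24, [0, 0, 2, 1, -16]),
    (549, 4, 24, [0, 2, 1, 0, -15]),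
    (45, 4, 24, [0, 1, 11, 21, -165]),
    (57, 4, 24, [1, 0, 1, 6, -33]),
    (60, 4, 24, [0, 0, 3, 7, -46]),
    (75, 4, 24, [36, 14, 0, 35, -458]),
    (596, 4, 24, [0, 0, 0, 0, 1]),
    (89, 4, 24, [2, 0, 0, 7, -34]),
    (612, 4, 24, [0, 1, 0, 0, -1]),
    (113, 4, 24, [1, 0, 0, 4, -18]),
    (116, 4, 24, [0, 0, 0, 1, -1]),
    (645, 4, 24, [0, 1, 1, 0, -13]),
    (135, 4, 24, [0, 31, 42, 1, -526]),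
    (673, 4, 24, [1, 6, 1, 0, -33]),
    (706, 4, 24, [7, 2, 0, 0, -41]),
    (195, 4, 24, [28, 19, 0, 11, -340]),
    (736, 4, 24, [2, 9, 0, 0, -37]),
    (225, 4, 24, [10, 39, 0, 1, -180]),
    (788, 4, 24, [0, 0, 1, 0, -2]),
    (278, 4, 24, [0, 0, 3, 1, -21]),
    (282, 4, 24, [3, 0, 2, 1, -25]),
    (834, 4, 24, [4, 1, 0, 0, -22]),
    (330, 4, 24, [53, 2, 0, 5, -209]),
    (848, 4, 24, [1, 0, 0, 0, -2]),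
    (344, 4, 24, [11, 0, 0, 1, -37]),
    (898, 4, 24, [1, 1, 1, 0, -18]),
    (900, 4, 24, [0, 8, 11, 0, -134]),
    (390, 4, 24, [0, 66, 91, 1, -1121]),
    (1023, 5, 696, [0, 0, 0, 0, 0])]
  circ := [(520, 82, [0, -1, 0, 1, -5, 0, -1, 0, 0, 2]),
    (518, 257, [-1, 3, 5, 0, 0, 0, 0, 0, -2, 14]),
    (356, 144, [0, 0, 9, 0, -64, 1, 45, -7, 6, 0]),
    (85, 34, [5, -1, 9, 0, 4, -4, 2, 0, 0, 0]),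
    (579, 136, [10, 58, 0, -33, 0, 0, 148, -35, 0, 219]),
    (288, 197, [-128, 0, -401, 0, 0, 119, -149, -1, 10, 0]),
    (529, 76, [1, 0, -7, -1, 13, 0, -5, 0, 0, 2]),
    (530, 324, [0, 1, -1, 0, 4, 0, -3, 0, -1, 9]),
    (577, 164, [2, 0, -1, 0, 0, -1, 1, -1, 0, 10]),
    (104, 21, [-3, 0, -1, 1, -11, 2, 1, 0, 0, 0]),
    (515, 448, [1, 52, 0, 0, 0, 0, -5, -20, -33, 441]),
    (560, 69, [-1, 0, -4, 0, 1, 1, -2, 0, 0, 1]),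
    (268, 19, [-3, -47, 29, 42, -266, 0, 0, 0, 8, 0]),
    (529, 196, [1, 0, -5, 0, 1, 0, -1, -1, 0, 11]),
    (529, 70, [1, -1, -7, 0, 8, 0, -6, 0, 0, 4])]

lemma bD_ok : Ok bD := ok_spec (by decide +kernel)
/-- a 3-polytope with 10 vertices -/
def tD : Raw where
  n := 10
  k := 4
  rows := [[0, 0, 1, 1], [0, 1, 0, 1], [0, 2, 0, 1], [0, 2, 2, 1], [1, 0, 0, 1], [1, 2, 0, 1], [1, 2, 2, 1], [2, 0, 0, 1], [2, 1, 0, 1], [2, 2, 1, 1]]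
  faces := [(0, 0, 1, [1, 0, 1, 1]),
    (512, 1, 1, [-3, 0, -1, 7]),
    (1, 1, 1, [1, 2, -1, 1]),
    (128, 1, 1, [-2, 2, -2, 4]),
    (256, 1, 1, [-2, -1, 2, 5]),
    (2, 1, 1, [2, 1, 2, -1]),
    (4, 1, 1, [1, -1, 1, 2]),
    (16, 1, 1, [1, 2, 2, -1]),
    (32, 1, 1, [-1, -2, 2, 5]),
    (8, 1, 1, [1, 0, -2, 4]),
    (64, 1, 1, [-2, 2, -4, 6]),
    (768, 2, 2, [-2, -1, 1, 5]),
    (129, 2, 2, [-2, 4, -4, 4]),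
    (384, 2, 2, [-1, 0, 1, 2]),
    (3, 2, 2, [2, 1, 1, -1]),
    (640, 2, 2, [-3, 1, -2, 6]),
    (9, 2, 2, [1, 1, -2, 2]),
    (6, 2, 2, [1, 0, 1, 0]),
    (12, 2, 2, [1, -1, 0, 2]),
    (144, 2, 2, [0, 1, 1, 0]),
    (17, 2, 2, [1, 2, 1, -1]),
    (18, 2, 2, [1, 1, 2, -1]),
    (288, 2, 2, [-1, -1, 2, 3]),
    (544, 2, 2, [-1, -2, 1, 5]),
    (36, 2, 2, [0, -1, 1, 2]),
    (65, 2, 2, [-2, 4, -6, 6]),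
    (192, 2, 2, [-4, 4, -6, 8]),
    (576, 2, 2, [-2, 0, -2, 6]),
    (72, 2, 2, [0, 0, -2, 4]),
    (896, 3, 6, [-1, 0, 0, 2]),
    (145, 3, 6, [0, 1, 0, 0]),
    (19, 3, 6, [1, 1, 1, -1]),
    (800, 3, 6, [-1, -1, 1, 3]),
    (704, 3, 6, [-2, 1, -2, 4]),
    (193, 3, 6, [-2, 3, -4, 4]),
    (73, 3, 6, [0, 1, -2, 2]),
    (15, 3, 8, [1, 0, 0, 0]),
    (620, 3, 10, [0, -1, 0, 2]),
    (438, 3, 12, [0, 0, 1, 0]),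
    (1023, 4, 72, [0, 0, 0, 0])]
  circ := [(258, 48, [0, 1, 0, 0, -1, -1, 0, 0, 1, 0]),
    (513, 136, [1, 0, 0, -1, 0, 0, 0, -1, 0, 1]),
    (520, 68, [0, 0, -1, 3, 0, 0, -4, 0, 0, 2]),
    (272, 132, [0, 0, -1, 0, 2, 0, 0, -3, 2, 0]),
    (514, 33, [-1, 2, 0, 0, 0, -2, 0, 0, 0, 1]),
    (264, 66, [0, -1, 0, 2, 0, 0, -2, 0, 1, 0]),
    (130, 20, [0, 2, -1, 0, -2, 0, 0, 1, 0, 0]),
    (528, 320, [0, 0, 0, 0, 1, 0, -1, 0, -2, 2]),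
    (260, 160, [0, 0, 1, 0, 0, -2, 0, -1, 2, 0]),
    (10, 5, [-2, 4, -3, 1, 0, 0, 0, 0, 0, 0]),
    (257, 80, [2, 0, 0, 0, -3, 0, -1, 0, 2, 0]),
    (516, 96, [0, 0, 2, 0, 0, -3, -1, 0, 0, 2]),
    (68, 40, [0, 0, 1, -1, 0, -1, 1, 0, 0, 0]),
    (97, 24, [2, 0, 0, -2, -2, 1, 1, 0, 0, 0]),
    (34, 20, [0, 2, -2, 0, -1, 1, 0, 0, 0, 0])]

lemma tD_ok : Ok tD := ok_spec (by decide +kernel)
end Run7.h739.Expl
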