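import Pool.Agent.Run7.h739.ExplData

/-!
# Piece H of the project of helper739 on MP_166b83_co: the explicit configurations
-/

set_option maxRecDepth 100000

namespace Run7.h739.Expl

open Module Function Run7.h249 Run7.h739 Raw

lemma toSet_univ10 : toSet 10 1023 = Set.univ := by
  ext i
  simp only [Set.mem_univ, iff_true]
  revert i
  decide

/-- a list of indices describes the simplex facet with the given mask -/
lemma sf_of {V : Type} [AddCommGroup V] [Module ℝ V] {a : Fin 10 → V} {d : ℕ} {f : Fin d → Fin 10}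
    {t : ℕ} (hinj : ∀ i j, f i = f j → i = j) (hr : ∀ i, (∃ j, f j = i) ↔ i ∈ toSet 10 t)
    (h1 : IsFace a (toSet 10 t)) (h2 : rk a (toSet 10 t) = d) : SF a f := by
  have e : Set.range f = toSet 10 t := by
    ext i
    exact hr i
  exact ⟨fun i j h => hinj i j h, by rw [e]; exact h1, by rw [e]; exact h2⟩

def t1 : Equiv.Perm (Fin 10) := Equiv.swap 4 6 * Equiv.swap 5 7
def t2 : Equiv.Perm (Fin 10) := Equiv.swap 0 2 * Equiv.swap 1 3
def t3 : Equiv.Perm (Fin 10) :=
  Equiv.swap 0 1 * Equiv.swap 2 3 * Equiv.swap 4 5 * Equiv.swap 6 7 * Equiv.swap 8 9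

/-- the action of the group on the vertices of the cores -/
def R : (ℤˣ × ℤˣ) × ℤˣ →* Equiv.Perm (Fin 10) where
  toFun g := (if g.1.1 = 1 then 1 else t1) * (if g.1.2 = 1 then 1 else t2) *
    (if g.2 = 1 then 1 else t3)
  map_one' := by decide +kernel
  map_mul' := by decide +kernel

def fC : Fin 4 → Fin 10 := ![0, 1, 4, 5]

theorem core_aux (m : ℕ) (a : Fin 10 → Fin 5 → ℝ) (κ : ℕ) (hκ : κ % 4 = m % 4)
    (hrk : rk a (toSet 10 1023) = 5) (pt : IsFace a ∅) (vert : ∀ i, IsFace a {i})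
    (hfc : fc a 5 (toSet 10 1023) = 8 * κ)
    (p1 : ∀ S, IsFace a S → IsFace a (t1 '' S)) (p2 : ∀ S, IsFace a S → IsFace a (t2 '' S))
    (p3 : ∀ S, IsFace a S → IsFace a (t3 '' S))
    (h1 : IsFace a (toSet 10 51)) (h2 : rk a (toSet 10 51) = 4) :
    ∃ (C : Cfg 4) (κ : ℕ) (ρ : (ℤˣ × ℤˣ) × ℤˣ →* Equiv.Perm C.ι)
    (f : Fin 4 → C.ι),
    κ % 4 = m % 4 ∧ fc C.a 5 Set.univ = 8 * κ ∧
    (∀ g S, IsFace C.a S → IsFace C.a (ρ g '' S)) ∧
    SF C.a f ∧
    (∀ h, ρ (h, 1) '' Set.range f = Set.range f → h = 1) ∧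
    (∀ i, ρ (1, -1) (f i) = f (![1, 0, 3, 2] i)) := by
  rw [toSet_univ10] at hrk hfc
  refine ⟨⟨Fin 10, Fin 5 → ℝ, a, by rw [Module.finrank_fin_fun], hrk, pt, vert⟩, κ, R, fC, hκ, hfc,
    ?_, ?_, ?_, ?_⟩
  · intro g S hS
    show IsFace a ((R g) '' S)
    have one : ∀ S, IsFace a S → IsFace a (((1 : Equiv.Perm (Fin 10)) : Fin 10 → Fin 10) '' S) := by
      intro S hS
      simpa using hS
    have hR : R g = (if g.1.1 = 1 then 1 else t1) * (if g.1.2 = 1 then 1 else t2) *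
      (if g.2 = 1 then 1 else t3) := rfl
    have step : ∀ (c : Prop) [Decidable c] (t : Equiv.Perm (Fin 10)),
        (∀ S, IsFace a S → IsFace a (t '' S)) → ∀ S, IsFace a S →
          IsFace a (⇑(if c then (1 : Equiv.Perm (Fin 10)) else t : Equiv.Perm (Fin 10)) '' S) := by
      intro c _ t ht S hS
      split_ifs
      · exact one S hS
      · exact ht S hS
    rw [hR, Equiv.Perm.coe_mul, Equiv.Perm.coe_mul, Set.image_comp, Set.image_comp]
    exact step (g.1.1 = 1) t1 p1 _ (step (g.1.2 = 1) t2 p2 _ (step (g.2 = 1) t3 p3 _ hS))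
  · exact sf_of (by decide) (by decide) h1 h2
  · intro h hh
    have key : ∀ h : ℤˣ × ℤˣ, h = 1 ∨ ∃ i : Fin 4, ∀ j : Fin 4, fC j ≠ R (h, 1) (fC i) := by
      decide +kernel
    rcases key h with h3 | ⟨i, hi⟩
    · exact h3
    · exfalso
      have h4 : R (h, 1) (fC i) ∈ Set.range fC := by
        have h5 : R (h, 1) '' Set.range fC = Set.range fC := hh
        rw [← h5]
        exact ⟨fC i, ⟨i, rfl⟩, rfl⟩
      obtain ⟨j, hj⟩ := h4
      exact hi j hj
  · intro i
    show R (1, -1) (fC i) = fC (![1, 0, 3, 2] i)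
    revert i
    decide +kernel

end Run7.h739.Expl

namespace Run7.h739

open Module Function Run7.h249 Expl Expl.Raw

theorem cores (m : ℕ) : ∃ (C : Cfg 4) (κ : ℕ) (ρ : (ℤˣ × ℤˣ) × ℤˣ →* Equiv.Perm C.ι)
    (f : Fin 4 → C.ι),
    κ % 4 = m % 4 ∧ fc C.a 5 Set.univ = 8 * κ ∧
    (∀ g S, IsFace C.a S → IsFace C.a (ρ g '' S)) ∧
    SF C.a f ∧
    (∀ h, ρ (h, 1) '' Set.range f = Set.range f → h = 1) ∧
    (∀ i, ρ (1, -1) (f i) = f (![1, 0, 3, 2] i)) := by
  have e1 : ∀ i : Fin 10, (t1 i : ℕ) = [0, 1, 2, 3, 6, 7, 4, 5, 8, 9].getD i 0 := by decide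
  have e2 : ∀ i : Fin 10, (t2 i : ℕ) = [2, 3, 0, 1, 4, 5, 6, 7, 8, 9].getD i 0 := by decide
  have e3 : ∀ i : Fin 10, (t3 i : ℕ) = [1, 0, 3, 2, 5, 4, 7, 6, 9, 8].getD i 0 := by decide
  obtain h | h | h | h : m % 4 = 0 ∨ m % 4 = 1 ∨ m % 4 = 2 ∨ m % 4 = 3 := by omega
  · have H := core0D_ok
    have u := H.has (t := 1023) (r := 5) (c := 576) (by decide +kernel)
    have v := H.has (t := 51) (r := 4) (c := 24) (by decide +kernel)
    exact core_aux m core0D.vec 72 (by rw [h]) u.2.1 H.empty H.pts u.2.2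
      (H.perm (p := [0, 1, 2, 3, 6, 7, 4, 5, 8, 9]) (by decide +kernel) t1 e1)
      (H.perm (p := [2, 3, 0, 1, 4, 5, 6, 7, 8, 9]) (by decide +kernel) t2 e2)
      (H.perm (p := [1, 0, 3, 2, 5, 4, 7, 6, 9, 8]) (by decide +kernel) t3 e3) v.1 v.2.1
  · have H := core1D_ok
    have u := H.has (t := 1023) (r := 5) (c := 552) (by decide +kernel)
    have v := H.has (t := 51) (r := 4) (c := 24) (by decide +kernel)
    exact core_aux m core1D.vec 69 (by rw [h]) u.2.1 H.empty H.pts u.2.2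
      (H.perm (p := [0, 1, 2, 3, 6, 7, 4, 5, 8, 9]) (by decide +kernel) t1 e1)
      (H.perm (p := [2, 3, 0, 1, 4, 5, 6, 7, 8, 9]) (by decide +kernel) t2 e2)
      (H.perm (p := [1, 0, 3, 2, 5, 4, 7, 6, 9, 8]) (by decide +kernel) t3 e3) v.1 v.2.1
  · have H := core2D_ok
    have u := H.has (t := 1023) (r := 5) (c := 432) (by decide +kernel)
    have v := H.has (t := 51) (r := 4) (c := 24) (by decide +kernel)
    exact core_aux m core2D.vec 54 (by rw [h]) u.2.1 H.empty H.pts u.2.2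
      (H.perm (p := [0, 1, 2, 3, 6, 7, 4, 5, 8, 9]) (by decide +kernel) t1 e1)
      (H.perm (p := [2, 3, 0, 1, 4, 5, 6, 7, 8, 9]) (by decide +kernel) t2 e2)
      (H.perm (p := [1, 0, 3, 2, 5, 4, 7, 6, 9, 8]) (by decide +kernel) t3 e3) v.1 v.2.1
  · have H := core3D_ok
    have u := H.has (t := 1023) (r := 5) (c := 504) (by decide +kernel)
    have v := H.has (t := 51) (r := 4) (c := 24) (by decide +kernel)
    exact core_aux m core3D.vec 63 (by rw [h]) u.2.1 H.empty H.pts u.2.2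
      (H.perm (p := [0, 1, 2, 3, 6, 7, 4, 5, 8, 9]) (by decide +kernel) t1 e1)
      (H.perm (p := [2, 3, 0, 1, 4, 5, 6, 7, 8, 9]) (by decide +kernel) t2 e2)
      (H.perm (p := [1, 0, 3, 2, 5, 4, 7, 6, 9, 8]) (by decide +kernel) t3 e3) v.1 v.2.1

/-- the involution of `bprime` -/
def tauB : Equiv.Perm (Fin 10) := Equiv.swap 2 6 * Equiv.swap 3 7 * Equiv.swap 4 9

lemma pair_ncard {x y : Fin 10} (h : x ≠ y) : ({x, y} : Set (Fin 10)).ncard = 2 :=
  Set.ncard_pair h

theorem bprime : ∃ (Y : Cfg 4) (τ : Equiv.Perm Y.ι) (f f' : Fin 4 → Y.ι),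
    fc Y.a 5 Set.univ = 696 ∧
    (∀ y, τ (τ y) = y) ∧
    (∀ S, IsFace Y.a S → IsFace Y.a (τ '' S)) ∧
    SF Y.a f ∧ SF Y.a f' ∧
    (∀ i, τ (f i) = f (![1, 0, 3, 2] i)) ∧
    τ '' Set.range f' ≠ Set.range f' ∧
    Set.range f' ≠ Set.range f ∧
    Cert Y.a 4 τ (fun S => ¬ (Set.range f ⊆ S) ∧ ¬ (Set.range f' ⊆ S) ∧
      ¬ (τ '' Set.range f' ⊆ S)) := by
  have H := bD_ok
  have u := H.has (t := 1023) (r := 5) (c := 696) (by decide +kernel)
  set a : Fin 10 → Fin 5 → ℝ := bD.vec with ha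
  have hrk : rk a Set.univ = 5 := by rw [← toSet_univ10]; exact u.2.1
  have hfc : fc a 5 Set.univ = 696 := by rw [← toSet_univ10]; exact u.2.2
  have e1 : ∀ i : Fin 10, (tauB i : ℕ) = [0, 1, 6, 7, 9, 5, 2, 3, 8, 4].getD i 0 := by decide
  -- a list of four indices which is a facet
  have sf : ∀ (f : Fin 4 → Fin 10) (t : ℕ), (∀ i j, f i = f j → i = j) →
      (∀ i, (∃ j, f j = i) ↔ i ∈ toSet 10 t) → bD.has t 4 24 = true → SF a f := by
    intro f t h1 h2 h3
    have v := H.has h3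
    exact sf_of h1 h2 v.1 v.2.1
  have sF : SF a ![2, 6, 4, 9] := sf _ 596 (by decide) (by decide) (by decide +kernel)
  have sF' : SF a ![0, 1, 2, 3] := sf _ 15 (by decide) (by decide) (by decide +kernel)
  have g1 : SF a ![0, 5, 2, 3] := sf _ 45 (by decide) (by decide) (by decide +kernel)
  have g2 : SF a ![0, 5, 3, 4] := sf _ 57 (by decide) (by decide) (by decide +kernel)
  have g3 : SF a ![0, 5, 4, 6] := sf _ 113 (by decide) (by decide) (by decide +kernel)
  have g4 : SF a ![1, 8, 2, 4] := sf _ 278 (by decide) (by decide) (by decide +kernel)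
  have g5 : SF a ![1, 8, 4, 3] := sf _ 282 (by decide) (by decide) (by decide +kernel)
  have g6 : SF a ![1, 8, 3, 6] := sf _ 330 (by decide) (by decide) (by decide +kernel)
  have rg : ∀ x y z w : Fin 10, Set.range ![x, y, z, w] = {x, y} ∪ {z, w} := by
    intro x y z w
    ext i
    simp only [Set.mem_range, Fin.exists_fin_succ, Matrix.cons_val_zero, Matrix.cons_val_succ,
      Set.mem_union, Set.mem_insert_iff, Set.mem_singleton_iff]
    simp [eq_comm]
    tauto
  have nQ : ∀ x y z w : Fin 10, ∀ k l n : Fin 10,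
      k ∈ ({2, 6, 4, 9} : Finset (Fin 10)) → l ∈ ({0, 1, 2, 3} : Finset (Fin 10)) →
      n ∈ ({0, 1, 2, 3} : Finset (Fin 10)) →
      (k ≠ x ∧ k ≠ y ∧ k ≠ z ∧ k ≠ w) → (l ≠ x ∧ l ≠ y ∧ l ≠ z ∧ l ≠ w) →
      (tauB n ≠ x ∧ tauB n ≠ y ∧ tauB n ≠ z ∧ tauB n ≠ w) →
      ¬ (Set.range ![2, 6, 4, 9] ⊆ ({x, y} ∪ {z, w} : Set (Fin 10))) ∧
      ¬ (Set.range ![0, 1, 2, 3] ⊆ ({x, y} ∪ {z, w} : Set (Fin 10))) ∧
      ¬ (tauB '' Set.range ![0, 1, 2, 3] ⊆ ({x, y} ∪ {z, w} : Set (Fin 10))) := by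
    intro x y z w k l n hk hl hn h1 h2 h3
    have mk : k ∈ Set.range (![2, 6, 4, 9] : Fin 4 → Fin 10) := by
      rw [rg]
      simp only [Finset.mem_insert, Finset.mem_singleton] at hk
      simp only [Set.mem_union, Set.mem_insert_iff, Set.mem_singleton_iff]
      tauto
    have ml : ∀ l ∈ ({0, 1, 2, 3} : Finset (Fin 10)),
        l ∈ Set.range (![0, 1, 2, 3] : Fin 4 → Fin 10) := by
      intro l hl
      rw [rg]
      simp only [Finset.mem_insert, Finset.mem_singleton] at hl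
      simp only [Set.mem_union, Set.mem_insert_iff, Set.mem_singleton_iff]
      tauto
    refine ⟨fun h => ?_, fun h => ?_, fun h => ?_⟩
    · have := h mk
      simp only [Set.mem_union, Set.mem_insert_iff, Set.mem_singleton_iff] at this
      tauto
    · have := h (ml l hl)
      simp only [Set.mem_union, Set.mem_insert_iff, Set.mem_singleton_iff] at this
      tauto
    · have := h ⟨n, ml n hn, rfl⟩
      simp only [Set.mem_union, Set.mem_insert_iff, Set.mem_singleton_iff] at this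
      tauto
  refine ⟨⟨Fin 10, Fin 5 → ℝ, a, by rw [Module.finrank_fin_fun], hrk, H.empty, H.pts⟩, tauB,
    ![2, 6, 4, 9], ![0, 1, 2, 3], hfc, ?_, ?_, sF, sF', ?_, ?_, ?_, ?_⟩
  · intro y
    revert y
    show ∀ y : Fin 10, tauB (tauB y) = y
    decide
  · exact H.perm (p := [0, 1, 6, 7, 9, 5, 2, 3, 8, 4]) (by decide +kernel) tauB e1
  · intro i
    revert i
    show ∀ i : Fin 4, tauB ((![2, 6, 4, 9] : Fin 4 → Fin 10) i)
      = (![2, 6, 4, 9] : Fin 4 → Fin 10) ((![1, 0, 3, 2] : Fin 4 → Fin 4) i)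
    decide
  · intro h
    have h1 : (6 : Fin 10) ∈ Set.range (![0, 1, 2, 3] : Fin 4 → Fin 10) := by
      have h2 : tauB '' Set.range (![0, 1, 2, 3] : Fin 4 → Fin 10)
        = Set.range (![0, 1, 2, 3] : Fin 4 → Fin 10) := h
      rw [← h2]
      exact ⟨2, ⟨2, rfl⟩, by decide⟩
    obtain ⟨j, hj⟩ := h1
    revert j
    decide
  · intro h
    have h1 : (0 : Fin 10) ∈ Set.range (![2, 6, 4, 9] : Fin 4 → Fin 10) := by
      have h2 : Set.range (![0, 1, 2, 3] : Fin 4 → Fin 10)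
        = Set.range (![2, 6, 4, 9] : Fin 4 → Fin 10) := h
      rw [← h2]
      exact ⟨0, rfl⟩
    obtain ⟨j, hj⟩ := h1
    revert j
    decide
  · show Cert a 4 tauB (fun S => ¬ (Set.range ![2, 6, 4, 9] ⊆ S) ∧
      ¬ (Set.range ![0, 1, 2, 3] ⊆ S) ∧ ¬ (tauB '' Set.range ![0, 1, 2, 3] ⊆ S))
    refine ⟨{0, 5}, {1, 8}, 1, 0, 2, 3, 4, ?_, ?_⟩
    · have T2 : tauB 2 = 6 := by decide
      have T3 : tauB 3 = 7 := by decide
      have T4 : tauB 4 = 9 := by decide
      refine ⟨by rw [pair_ncard (by decide)], Set.toFinite _, ?_, by decide, by decide, ?_,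
        ?_, ?_, ?_, ?_, ?_, ?_, ?_⟩
      · rintro i (rfl | hi)
        · decide
        · rw [Set.mem_singleton_iff.1 hi]; decide
      · simp only [T2, T3, T4, List.mem_cons, List.not_mem_nil, or_false, Set.mem_insert_iff,
          Set.mem_singleton_iff]
        decide
      · simp only [List.mem_cons, List.not_mem_nil, or_false]
        decide
      · rw [← rg]; exact g1.hered
      · rw [← rg]; exact g2.face
      · rw [T2, ← rg]; exact g3.face
      · exact nQ 0 5 2 3 4 1 2 (by decide) (by decide) (by decide) (by decide) (by decide) (by decide)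
      · exact nQ 0 5 3 4 6 1 2 (by decide) (by decide) (by decide) (by decide) (by decide) (by decide)
      · rw [T2]
        exact nQ 0 5 4 6 2 1 3 (by decide) (by decide) (by decide) (by decide) (by decide) (by decide)
    · have T2 : tauB 2 = 6 := by decide
      have T3 : tauB 3 = 7 := by decide
      have T4 : tauB 4 = 9 := by decide
      refine ⟨by rw [pair_ncard (by decide)], Set.toFinite _, ?_, by decide, by decide, ?_,
        ?_, ?_, ?_, ?_, ?_, ?_, ?_⟩
      · rintro i (rfl | hi)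
        · decide
        · rw [Set.mem_singleton_iff.1 hi]; decide
      · simp only [T2, T3, T4, List.mem_cons, List.not_mem_nil, or_false, Set.mem_insert_iff,
          Set.mem_singleton_iff]
        decide
      · simp only [List.mem_cons, List.not_mem_nil, or_false]
        decide
      · rw [← rg]; exact g4.hered
      · rw [← rg]; exact g5.face
      · rw [T2, ← rg]; exact g6.face
      · exact nQ 1 8 2 4 6 0 0 (by decide) (by decide) (by decide) (by decide) (by decide) (by decide)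
      · exact nQ 1 8 4 3 2 0 0 (by decide) (by decide) (by decide) (by decide) (by decide) (by decide)
      · rw [T2]
        exact nQ 1 8 3 6 2 0 0 (by decide) (by decide) (by decide) (by decide) (by decide) (by decide)

theorem core3 : ∃ (Y : Cfg 3) (f g : Fin 3 → Y.ι) (A B C : Set Y.ι),
    SF Y.a f ∧ SF Y.a g ∧ Set.range f ≠ Set.range g ∧
    IsFace Y.a A ∧ IsFace Y.a B ∧ IsFace Y.a C ∧
    fc Y.a 3 A = 8 ∧ fc Y.a 3 B = 12 ∧ fc Y.a 3 C = 10 ∧
    rk Y.a A = 3 ∧ rk Y.a B = 3 ∧ rk Y.a C = 3 ∧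
    rk Y.a (A ∩ B) = 2 ∧ rk Y.a (A ∩ B ∩ C) = 1 ∧
    (∀ S, IsFace Y.a S → rk Y.a S = 3 → S ≠ A → S ≠ B → S ≠ C → fc Y.a 3 S = 6) := by
  have H := tD_ok
  have u := H.has (t := 1023) (r := 4) (c := 72) (by decide +kernel)
  set a : Fin 10 → Fin 4 → ℝ := tD.vec with ha
  have hrk : rk a Set.univ = 4 := by rw [← toSet_univ10]; exact u.2.1
  have vA := H.has (t := 15) (r := 3) (c := 8) (by decide +kernel)
  have vB := H.has (t := 438) (r := 3) (c := 12) (by decide +kernel)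
  have vC := H.has (t := 620) (r := 3) (c := 10) (by decide +kernel)
  have vAB := H.has (t := 6) (r := 2) (c := 2) (by decide +kernel)
  have vABC := H.has (t := 4) (r := 1) (c := 1) (by decide +kernel)
  have eAB : toSet 10 15 ∩ toSet 10 438 = toSet 10 6 := by
    ext i
    simp only [Set.mem_inter_iff]
    revert i
    decide
  have eABC : toSet 10 6 ∩ toSet 10 620 = toSet 10 4 := by
    ext i
    simp only [Set.mem_inter_iff]
    revert i
    decide
  have sf : ∀ (f : Fin 3 → Fin 10) (t : ℕ), (∀ i j, f i = f j → i = j) →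
      (∀ i, (∃ j, f j = i) ↔ i ∈ toSet 10 t) → tD.has t 3 6 = true → SF a f := by
    intro f t h1 h2 h3
    have v := H.has h3
    exact sf_of h1 h2 v.1 v.2.1
  have sf1 : SF a ![0, 1, 4] := sf _ 19 (by decide) (by decide) (by decide +kernel)
  have sf2 : SF a ![7, 8, 9] := sf _ 896 (by decide) (by decide) (by decide +kernel)
  refine ⟨⟨Fin 10, Fin 4 → ℝ, a, by rw [Module.finrank_fin_fun], hrk, H.empty, H.pts⟩,
    ![0, 1, 4], ![7, 8, 9], toSet 10 15, toSet 10 438, toSet 10 620, sf1, sf2, ?_, vA.1, vB.1, vC.1, vA.2.2, vB.2.2,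
    vC.2.2, vA.2.1, vB.2.1, vC.2.1, ?_, ?_, ?_⟩
  · intro h
    have h1 : (0 : Fin 10) ∈ Set.range (![7, 8, 9] : Fin 3 → Fin 10) := by
      have h2 : Set.range (![0, 1, 4] : Fin 3 → Fin 10)
        = Set.range (![7, 8, 9] : Fin 3 → Fin 10) := h
      rw [← h2]
      exact ⟨0, rfl⟩
    obtain ⟨j, hj⟩ := h1
    revert j
    decide
  · show rk a (toSet 10 15 ∩ toSet 10 438) = 2
    rw [eAB]
    exact vAB.2.1
  · show rk a (toSet 10 15 ∩ toSet 10 438 ∩ toSet 10 620) = 1
    rw [eAB, eABC]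
    exact vABC.2.1
  · intro S hS hr hA hB hC
    have key : tD.faces.all (fun F => (F.2.1 != 3) || (F.1 == 15) || (F.1 == 438) ||
        (F.1 == 620) || (F.2.2.1 == 6)) = true := by decide +kernel
    simp only [List.all_eq_true, Bool.or_eq_true, bne_iff_ne, beq_iff_eq] at key
    obtain ⟨F, hF, rfl⟩ := (H.face S).1 hS
    have h1 : F.2.1 = 3 := by
      rw [← H.rk F hF]; exact hr
    rcases key F hF with (((h | h) | h) | h) | h
    · exact absurd h1 h
    · exfalso; apply hA; rw [h]; rfl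
    · exfalso; apply hB; rw [h]; rfl
    · exfalso; apply hC; rw [h]; rfl
    · have h2 := H.fc F hF
      rw [h1, h] at h2
      exact h2

end Run7.h739
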