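import Pool.Agent.Run7.h739.Rigid

/-!
The automorphism group of a datum glued with a rigid block; all large orbit numbers.
-/

namespace Run7.h739

open Module Function Run7.h249

/-- The automorphism of the face poset induced by a permutation of the vertices. -/
def permIso {ι V : Type} [AddCommGroup V] [Module ℝ V] {a : ι → V} (σ : Equiv.Perm ι)
    (h1 : ∀ S, IsFace a S → IsFace a (σ '' S))
    (h2 : ∀ S, IsFace a S → IsFace a (σ.symm '' S)) : FSet a ≃o FSet a where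
  toFun S := ⟨σ '' S.1, h1 _ S.2⟩
  invFun S := ⟨σ.symm '' S.1, h2 _ S.2⟩
  left_inv S := by
    apply Subtype.ext
    show σ.symm '' (σ '' S.1) = S.1
    rw [Equiv.symm_image_image]
  right_inv S := by
    apply Subtype.ext
    show σ '' (σ.symm '' S.1) = S.1
    rw [Equiv.image_symm_image]
  map_rel_iff' := by
    intro S T
    show σ '' S.1 ⊆ σ '' T.1 ↔ S.1 ⊆ T.1
    exact Set.image_subset_image_iff σ.injective

section

variable {d κ : ℕ} (D : Dat d κ)

lemma Dat.symm_image (g : D.G) (S : Set D.P.ι) : (D.ρ g).symm '' S = D.ρ g⁻¹ '' S := by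
  rw [map_inv]
  rfl

/-- The automorphism of the face poset given by a group element. -/
def Dat.iso (g : D.G) : FSet D.P.a ≃o FSet D.P.a :=
  permIso (D.ρ g) (D.hρ g) (fun S hS => by
    rw [D.symm_image]
    exact D.hρ _ S hS)

lemma Dat.card_le : Nat.card D.G ≤ Nat.card (FSet D.P.a ≃o FSet D.P.a) := by
  have := finite_auto (a := D.P.a)
  apply Nat.card_le_card_of_injective D.iso
  intro g g' h
  have h1 : D.iso g ⟨_, D.hf.face⟩ = D.iso g' ⟨_, D.hf.face⟩ := by rw [h]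
  have h2 : D.ρ g '' Set.range D.f = D.ρ g' '' Set.range D.f := congrArg Subtype.val h1
  apply D.orb_ne
  rw [D.orb_range, D.orb_range, h2]

lemma Dat.orbits (h : Nat.card (FSet D.P.a ≃o FSet D.P.a) ≤ Nat.card D.G) :
    Nat.card (Orb (FSet D.P.a)) = κ := by
  have h1 := card_orb D.P.pt
  have h2 : Nat.card (FSet D.P.a ≃o FSet D.P.a) = Nat.card D.G := le_antisymm h D.card_le
  rw [D.P.hrk, D.cnt, h2] at h1
  exact Nat.eq_of_mul_eq_mul_right Nat.card_pos h1

/-- Gluing a rigid block leaves only the automorphisms of the group. -/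
lemma Dat.glue_rigid {n N κ' : ℕ} (R : RB d n N) (hd : 2 ≤ d)
    (hκ : κ' + 2 * d.factorial = κ + N)
    (hsm : ∀ S, IsFace D.P.a S → rk D.P.a S = d → fc D.P.a d S < n)
    {a' : GI D.P R.Y D.G R.f → D.P.V} (h : Glued D.P R.Y D.G D.orb R.f a') :
    Nat.card (FSet (D.glue R.toBlk hd hκ h).P.a ≃o FSet (D.glue R.toBlk hd hκ h).P.a) ≤
      Nat.card (D.glue R.toBlk hd hκ h).G := by
  set D' := D.glue R.toBlk hd hκ h with hD'
  show Nat.card (FSet a' ≃o FSet a') ≤ Nat.card D.G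
  have hpt : IsFace a' ∅ := D'.P.pt
  have hru : rk a' Set.univ = d + 1 := glued_rk_univ h
  have hn : d.factorial < n := by
    have := hsm _ D.hf.face D.hf.rank
    rwa [D.hf.fc] at this
  have hBne : ¬ Set.range R.f ⊆ R.B := by
    intro hs
    have h1 := R.hf.eq_of_sub R.rB hs
    have h2 := R.hf.fc
    rw [h1, R.fB] at h2
    omega
  -- the copies of the rigid facet
  set Bg : D.G → Set (GI D.P R.Y D.G R.f) := fun g => emb D.P R.Y D.G D.orb R.f g '' R.B with hBg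
  have hBf : ∀ g, IsFace a' (Bg g) := fun g => (glued_face_emb h D.orb_SF R.hf g hBne).2 R.hB
  have hBr : ∀ g, rk a' (Bg g) = d := fun g => (glued_rk_emb h g R.B).trans R.rB
  have hBc : ∀ g, fc a' d (Bg g) = n := fun g =>
    (glued_fc_emb h D.orb_SF R.hf g d hBne).trans R.fB
  have hBu : ∀ T, IsFace a' T → rk a' T = d → fc a' d T = n → ∃ g, T = Bg g := by
    intro T hT hr hc
    rcases glued_facet h hT hr with ⟨S, k1, k2, k3, rfl⟩ | ⟨j, S, k1, k2, k3, rfl⟩
    · exfalso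
      rw [glued_fc_inl h d k3] at hc
      have := hsm S k1 k2
      omega
    · refine ⟨j, ?_⟩
      rw [glued_fc_emb h D.orb_SF R.hf j d k3] at hc
      by_contra hne
      have := R.small S k1 k2 (by
        rintro rfl
        exact hne rfl)
      omega
  have hex : ∀ α : FSet a' ≃o FSet a', ∃ g, (α ⟨Bg 1, hBf 1⟩).1 = Bg g := by
    intro α
    apply hBu _ (α ⟨Bg 1, hBf 1⟩).2
    · exact (Fl.rk_map hpt α ⟨Bg 1, hBf 1⟩).trans (hBr 1)
    · exact (fc_map hpt α d ⟨Bg 1, hBf 1⟩).trans (hBc 1)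
  choose F hF using hex
  have : Finite D.G := D.fG
  apply Nat.card_le_card_of_injective F
  intro α β hαβ
  have h1 : α ⟨Bg 1, hBf 1⟩ = β ⟨Bg 1, hBf 1⟩ := by
    apply Subtype.ext
    rw [hF, hF, hαβ]
  have hrig : Rig (Low a' (Bg 1)) :=
    R.rig.of_iso (lowIso (emb_inj D.P R.Y D.G D.orb R.f R.hf.inj (fun j => (D.orb_SF j).inj) 1)
      R.B (fun S hS => glued_face_emb h D.orb_SF R.hf 1 (fun hj => hBne (hj.trans hS))))
  have h2 : (α.trans β.symm) ⟨Bg 1, hBf 1⟩ = ⟨Bg 1, hBf 1⟩ := by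
    show β.symm (α ⟨Bg 1, hBf 1⟩) = _
    rw [h1, OrderIso.symm_apply_apply]
  have h3 := eq_one_of_facet (a := a') hpt (hBf 1) (by rw [hru, hBr 1]) hrig
    (α.trans β.symm) h2
  apply OrderIso.ext
  funext S
  have h4 : β.symm (α S) = S := h3 S
  rw [← h4, OrderIso.apply_symm_apply, h4]

end

/-- A realized polytope with a certified bad automorphism and `k` flag orbits. -/
def Bad (d k : ℕ) : Prop :=
  ∃ (X : Cfg d) (T : Equiv.Perm X.ι), (∀ S, IsFace X.a S → IsFace X.a (T '' S)) ∧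
    Cert X.a d T (fun _ => True) ∧ Nat.card (Orb (FSet X.a)) = k

lemma bad_of_glue {d κ n N κ' : ℕ} (D : Dat d κ) (R : RB d n N) (hd : 2 ≤ d)
    (hκ : κ' + 2 * d.factorial = κ + N)
    (hsm : ∀ S, IsFace D.P.a S → rk D.P.a S = d → fc D.P.a d S < n) : Bad d κ' := by
  obtain ⟨a', h⟩ := exists_glued D.P R.Y D.G D.orb R.f D.orb_SF D.orb_ne R.hf
  set D' := D.glue R.toBlk hd hκ h with hD'
  refine ⟨D'.P, D'.ρ D'.t, D'.hρ D'.t, D'.cert.mono (fun _ _ => trivial), ?_⟩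
  exact D'.orbits (D.glue_rigid R hd hκ hsm h)

/-- All large numbers of orbits. -/
theorem bad_all {e : ℕ} (he : 3 ≤ e) (hK : KK (e + 1)) (hR : RR e) :
    ∃ K, ∀ k, K ≤ k → Bad (e + 1) k := by
  classical
  set m := (e + 1 - 1) * (e + 1).factorial with hm
  have hmpos : 0 < m := Nat.mul_pos (by omega) (Nat.factorial_pos _)
  -- data for all classes
  choose κ hκ hκ' using fun r : Fin m => hK m hmpos (r.1 : ℤ)
  have D : ∀ r : Fin m, Dat (e + 1) (κ r) := fun r => (hκ r).some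
  -- a common bound
  obtain ⟨C, hC⟩ : ∃ C, ∀ r : Fin m, ∀ S : Set (D r).P.ι, fc (D r).P.a (e + 1) S ≤ C := by
    have h1 : ∀ r : Fin m, ∃ C, ∀ S : Set (D r).P.ι, fc (D r).P.a (e + 1) S ≤ C := by
      intro r
      obtain ⟨C, hC⟩ := (Set.finite_range (fun S : Set (D r).P.ι => fc (D r).P.a (e + 1) S)).bddAbove
      exact ⟨C, fun S => hC ⟨S, rfl⟩⟩
    choose C hC using h1
    refine ⟨∑ r, C r, fun r S => (hC r S).trans ?_⟩
    exact Finset.single_le_sum (f := C) (fun _ _ => Nat.zero_le _) (Finset.mem_univ r)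
  obtain ⟨Kb, hKb⟩ : ∃ Kb, ∀ r : Fin m, κ r ≤ Kb :=
    ⟨∑ r, κ r, fun r => Finset.single_le_sum (f := κ) (fun _ _ => Nat.zero_le _)
      (Finset.mem_univ r)⟩
  obtain ⟨N0, hN0, ⟨R0⟩⟩ := hR C
  obtain ⟨R1⟩ := pyrRB R0
  refine ⟨(e + 2) * N0 + Kb, fun k hk => ?_⟩
  -- the class
  have hz : ∃ r : Fin m, ((r.1 : ℤ) - (k + 2 * (e + 1).factorial - (e + 2) * N0)) % m = 0 := by
    have h1 : 0 ≤ ((k + 2 * (e + 1).factorial - (e + 2) * N0 : ℤ)) % m :=
      Int.emod_nonneg _ (by omega)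
    have h2 : ((k + 2 * (e + 1).factorial - (e + 2) * N0 : ℤ)) % m < m :=
      Int.emod_lt_of_pos _ (by omega)
    refine ⟨⟨(((k + 2 * (e + 1).factorial - (e + 2) * N0 : ℤ)) % m).toNat, by omega⟩, ?_⟩
    show (((((k + 2 * (e + 1).factorial - (e + 2) * N0 : ℤ)) % m).toNat : ℤ) -
      (k + 2 * (e + 1).factorial - (e + 2) * N0)) % m = 0
    rw [Int.toNat_of_nonneg h1]
    rw [← Int.emod_add_mul_ediv (k + 2 * (e + 1).factorial - (e + 2) * N0 : ℤ) m]
    simp [Int.sub_emod]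
  obtain ⟨r, hr⟩ := hz
  have h3 : ((κ r : ℤ) : ZMod m) = ((r.1 : ℤ) : ZMod m) := hκ' r
  rw [ZMod.intCast_eq_intCast_iff, Int.modEq_iff_dvd] at h3
  obtain ⟨w, hw⟩ := h3
  obtain ⟨v, hv⟩ := Int.dvd_of_emod_eq_zero hr
  have hrk := hKb r
  -- k + 2 d! - (e+2) N0 - κ = m * (w - v)
  have hL : (k : ℤ) + 2 * (e + 1).factorial - (e + 2) * N0 - κ r = m * (w - v) := by
    linear_combination hw - hv
  have hpos : 0 ≤ w - v := by
    have h5 : (0 : ℤ) ≤ (k : ℤ) + 2 * (e + 1).factorial - (e + 2) * N0 - κ r := by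
      have h6 : ((e + 2) * N0 + Kb : ℤ) ≤ k := by exact_mod_cast hk
      have h7 : (κ r : ℤ) ≤ Kb := by exact_mod_cast hrk
      have h8 : (0 : ℤ) ≤ 2 * (e + 1).factorial := by positivity
      linarith
    rw [hL] at h5
    have h9 : (0 : ℤ) < m := by exact_mod_cast hmpos
    exact nonneg_of_mul_nonneg_right h5 h9
  obtain ⟨L, hL'⟩ : ∃ L : ℕ, (L : ℤ) = w - v := ⟨(w - v).toNat, Int.toNat_of_nonneg hpos⟩
  obtain ⟨R2⟩ := stackRB_many (by omega) R0.lt R1 L
  apply bad_of_glue (D r) R2 (by omega)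
  · have h10 : (k : ℤ) + 2 * (e + 1).factorial = κ r + ((e + 2) * N0 + L * m) := by
      rw [hL']
      linear_combination hL
    rw [← hm]
    exact_mod_cast h10
  · intro S _ _
    exact lt_of_le_of_lt (hC r S) hN0

end Run7.h739
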