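import Pool.Agent.Run7.h739.Basic

/-!
Frames adapted to a simplex facet.
-/

namespace Run7.h739

open Module Function Run7.h249 Filter

/-- A basis `e_1, …, e_d, w` with its coordinate functionals. -/
structure Frame (V : Type) [AddCommGroup V] [Module ℝ V] (d : ℕ) where
  e : Fin d → V
  w : V
  X : Fin d → Dual ℝ V
  φ : Dual ℝ V
  Xe : ∀ i k, X i (e k) = if i = k then 1 else 0
  Xw : ∀ i, X i w = 0
  φe : ∀ i, φ (e i) = 0
  φw : φ w = 1
  dec : ∀ v, v = ∑ i, X i v • e i + φ v • w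

section

variable {V W : Type} [AddCommGroup V] [Module ℝ V] [AddCommGroup W] [Module ℝ W] {d : ℕ}

/-- The map sending `e'_i` to `e_i` and `w'` to `M Σ e_i - w`. -/
noncomputable def Frame.mp (F : Frame V d) (F' : Frame W d) (M : ℝ) : W →ₗ[ℝ] V :=
  ∑ i, (F'.X i).smulRight (F.e i) + F'.φ.smulRight (M • ∑ i, F.e i - F.w)

lemma Frame.mp_apply (F : Frame V d) (F' : Frame W d) (M : ℝ) (y : W) :
    F.mp F' M y = ∑ i, F'.X i y • F.e i + F'.φ y • (M • ∑ i, F.e i - F.w) := by
  simp [Frame.mp]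

lemma Frame.mp_e (F : Frame V d) (F' : Frame W d) (M : ℝ) (i : Fin d) :
    F.mp F' M (F'.e i) = F.e i := by
  rw [Frame.mp_apply, F'.φe, zero_smul, add_zero]
  simp_rw [F'.Xe]
  simp

lemma Frame.mp_w (F : Frame V d) (F' : Frame W d) (M : ℝ) :
    F.mp F' M F'.w = M • ∑ i, F.e i - F.w := by
  rw [Frame.mp_apply, F'.φw, one_smul]
  simp_rw [F'.Xw]
  simp

lemma Frame.mp_mp (F : Frame V d) (F' : Frame W d) (M : ℝ) (v : V) :
    F.mp F' M (F'.mp F M v) = v := by
  rw [F'.mp_apply F M v, map_add, map_smul, map_sub, map_smul, map_sum, map_sum, Frame.mp_w]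
  simp_rw [map_smul, Frame.mp_e]
  rw [sub_sub_cancel]
  exact (F.dec v).symm

/-- The linear isomorphism. -/
noncomputable def Frame.eqv (F : Frame V d) (F' : Frame W d) (M : ℝ) : W ≃ₗ[ℝ] V :=
  LinearEquiv.ofLinear (F.mp F' M) (F'.mp F M) (by ext v; simp [Frame.mp_mp])
    (by ext v; simp [Frame.mp_mp])

lemma Frame.eqv_apply (F : Frame V d) (F' : Frame W d) (M : ℝ) (y : W) :
    F.eqv F' M y = F.mp F' M y := rfl

/-- the constant part -/
noncomputable def Frame.p (F : Frame V d) (F' : Frame W d) (y : W) : V :=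
  ∑ i, F'.X i y • F.e i - F'.φ y • F.w

/-- the part linear in `M` -/
noncomputable def Frame.q (F : Frame V d) (F' : Frame W d) (y : W) : V :=
  F'.φ y • ∑ i, F.e i

lemma Frame.mp_eq (F : Frame V d) (F' : Frame W d) (M : ℝ) (y : W) :
    F.mp F' M y = F.p F' y + M • F.q F' y := by
  rw [Frame.mp_apply, Frame.p, Frame.q, smul_sub, smul_smul, smul_smul, mul_comm M]
  abel

/-- the constant part of the pulled back functional -/
noncomputable def Frame.al (F : Frame V d) (F' : Frame W d) (ψ : Dual ℝ W) : Dual ℝ V :=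
  ∑ i, ψ (F'.e i) • F.X i - ψ F'.w • F.φ

/-- the linear part of the pulled back functional -/
noncomputable def Frame.ga (F : Frame V d) (F' : Frame W d) (ψ : Dual ℝ W) : Dual ℝ V :=
  (∑ i, ψ (F'.e i)) • F.φ

lemma Frame.pull (F : Frame V d) (F' : Frame W d) (M : ℝ) (ψ : Dual ℝ W) (v : V) :
    ψ (F'.mp F M v) = F.al F' ψ v + M * F.ga F' ψ v := by
  rw [Frame.mp_apply, Frame.al, Frame.ga]
  simp only [map_add, map_sum, map_smul, map_sub, smul_eq_mul, LinearMap.sub_apply,
    LinearMap.sum_apply, LinearMap.smul_apply]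
  have : ∑ i, F.X i v * ψ (F'.e i) = ∑ i, ψ (F'.e i) * F.X i v :=
    Finset.sum_congr rfl (fun i _ => mul_comm _ _)
  rw [this]
  ring

lemma Frame.eval (F : Frame V d) {θ : Dual ℝ V} (h : ∀ i, θ (F.e i) = 0) (v : V) :
    θ v = F.φ v * θ F.w := by
  have h1 := congrArg θ (F.dec v)
  rw [map_add, map_sum, map_smul, smul_eq_mul] at h1
  rw [h1]
  have h2 : ∑ i, θ (F.X i v • F.e i) = 0 := by
    apply Finset.sum_eq_zero
    intro i _
    rw [map_smul, h, smul_zero]
  rw [h2, zero_add]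

lemma Frame.eval_mp (F : Frame V d) (F' : Frame W d) (M : ℝ) {θ : Dual ℝ V}
    (h : ∀ i, θ (F.e i) = 0) (y : W) : θ (F.mp F' M y) = -(F'.φ y * θ F.w) := by
  have h1 : ∀ c : Fin d → ℝ, θ (∑ i, c i • F.e i) = 0 := by
    intro c
    rw [map_sum]
    apply Finset.sum_eq_zero
    intro i _
    rw [map_smul, h, smul_zero]
  have h2 : θ (∑ i, F.e i) = 0 := by
    rw [map_sum]
    exact Finset.sum_eq_zero (fun i _ => h i)
  rw [Frame.mp_apply, map_add, h1, map_smul, map_sub, map_smul, h2]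
  simp

/-- A functional vanishing on all `e_i` and on a vector off the facet is zero. -/
lemma Frame.zero_of (F : Frame V d) {θ : Dual ℝ V} (h : ∀ i, θ (F.e i) = 0) {v : V}
    (hv : θ v = 0) (hφ : F.φ v ≠ 0) : θ = 0 := by
  have hw : θ F.w = 0 := by
    have h1 := congrArg θ (F.dec v)
    simp only [map_add, map_sum, map_smul, smul_eq_mul, h, mul_zero, Finset.sum_const_zero,
      zero_add, hv] at h1
    rcases mul_eq_zero.1 h1.symm with h2 | h2
    · exact absurd h2 hφ
    · exact h2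
  ext u
  have h1 := congrArg θ (F.dec u)
  simp only [map_add, map_sum, map_smul, smul_eq_mul, h, mul_zero, Finset.sum_const_zero,
    zero_add, hw] at h1
  rw [h1]
  rfl

lemma Frame.comb (F : Frame V d) (F' : Frame W d) (M : ℝ) (y : W) (v : V) :
    F'.φ y • v + F.φ v • F.mp F' M y
      = ∑ i, (F'.φ y * F.X i v + F.φ v * (F'.X i y + F'.φ y * M)) • F.e i := by
  have h1 : F'.φ y • v = ∑ i, (F'.φ y * F.X i v) • F.e i + (F'.φ y * F.φ v) • F.w := by
    conv_lhs => rw [F.dec v]
    rw [smul_add, Finset.smul_sum, smul_smul]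
    congr 1
    exact Finset.sum_congr rfl (fun i _ => smul_smul _ _ _)
  have h2 : F.φ v • F.mp F' M y = ∑ i, (F.φ v * (F'.X i y + F'.φ y * M)) • F.e i
      - (F'.φ y * F.φ v) • F.w := by
    rw [Frame.mp_apply, smul_add, Finset.smul_sum, smul_sub, smul_sub, Finset.smul_sum,
      Finset.smul_sum, Finset.smul_sum, smul_smul, ← add_sub_assoc, ← Finset.sum_add_distrib]
    congr 1
    · apply Finset.sum_congr rfl
      intro i _
      rw [smul_smul, smul_smul, smul_smul, ← add_smul]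
      congr 1
      ring
    · rw [mul_comm]
  rw [h1, h2]
  simp_rw [add_smul]
  rw [Finset.sum_add_distrib]
  abel

end

/-- A simplex facet has an adapted frame. -/
lemma exists_frame {ι V : Type} [AddCommGroup V] [Module ℝ V] [FiniteDimensional ℝ V]
    {a : ι → V} {d : ℕ} (hV : finrank ℝ V = d + 1) (hr : rk a Set.univ = d + 1)
    {f : Fin d → ι} (hf : SF a f) :
    ∃ F : Frame V d, (∀ i, F.e i = a (f i)) ∧ (∀ i, i ∉ Set.range f → 0 < F.φ (a i)) := by
  obtain ⟨φ, h0, h1⟩ := hf.face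
  obtain ⟨i0, -, hi0⟩ := exists_of_rk_lt (a := a) (S := Set.range f) (T := Set.univ)
    (by rw [hf.rank, hr]; omega)
  have hpos := h1 i0 hi0
  set w : V := (φ (a i0))⁻¹ • a i0 with hw
  have hφw : φ w = 1 := by
    rw [hw, map_smul, smul_eq_mul, inv_mul_cancel₀ hpos.ne']
  have hli : LinearIndependent ℝ (Fin.cons w (fun i => a (f i)) : Fin (d + 1) → V) := by
    rw [linearIndependent_finCons]
    refine ⟨hf.li, ?_⟩
    intro hmem
    have hz : φ w = 0 := by
      have hle : Submodule.span ℝ (Set.range fun i => a (f i)) ≤ LinearMap.ker φ := by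
        rw [Submodule.span_le]
        rintro _ ⟨i, rfl⟩
        exact h0 _ ⟨i, rfl⟩
      exact hle hmem
    rw [hz] at hφw
    exact zero_ne_one hφw
  let b := basisOfLinearIndependentOfCardEqFinrank hli (by rw [Fintype.card_fin, hV])
  have hb : ∀ k, b k = (Fin.cons w (fun i => a (f i)) : Fin (d + 1) → V) k := fun k => by
    simp [b]
  have hb0 : b 0 = w := by rw [hb, Fin.cons_zero]
  have hbs : ∀ i : Fin d, b i.succ = a (f i) := fun i => by rw [hb, Fin.cons_succ]
  have hsum : ∀ v, v = ∑ i : Fin d, b.coord i.succ v • a (f i) + b.coord 0 v • w := by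
    intro v
    have h2 := b.sum_repr v
    rw [Fin.sum_univ_succ] at h2
    rw [hb0] at h2
    simp_rw [hbs] at h2
    rw [add_comm] at h2
    exact h2.symm
  have hφ0 : ∀ v, φ v = b.coord 0 v := by
    intro v
    have h2 := congrArg φ (hsum v)
    rw [map_add, map_sum, map_smul, hφw, smul_eq_mul, mul_one] at h2
    rw [h2]
    have h3 : ∑ i : Fin d, φ (b.coord i.succ v • a (f i)) = 0 := by
      apply Finset.sum_eq_zero
      intro i _
      rw [map_smul, h0 _ ⟨i, rfl⟩, smul_zero]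
    rw [h3, zero_add]
  refine ⟨⟨fun i => a (f i), w, fun i => b.coord i.succ, φ, ?_, ?_, ?_, hφw, ?_⟩,
    fun i => rfl, h1⟩
  · intro i k
    rw [← hbs k, Basis.coord_apply, Basis.repr_self, Finsupp.single_apply]
    simp [eq_comm]
  · intro i
    rw [← hb0, Basis.coord_apply, Basis.repr_self, Finsupp.single_apply,
      if_neg (Fin.succ_ne_zero i).symm]
  · intro i
    exact h0 _ ⟨i, rfl⟩
  · intro v
    rw [hφ0 v]
    exact hsum v

lemma ev_lin {A B : ℝ} (hB : 0 < B) : ∀ᶠ M : ℝ in atTop, 0 < A + M * B := by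
  filter_upwards [eventually_gt_atTop (-A / B)] with M hM
  rw [div_lt_iff₀ hB] at hM
  linarith

lemma ev_quad {A B C : ℝ} (hC : 0 < C) : ∀ᶠ M : ℝ in atTop, 0 < A + M * B + M * M * C := by
  filter_upwards [eventually_gt_atTop ((|A| + |B|) / C), eventually_ge_atTop (1 : ℝ)]
    with M hM h1
  rw [div_lt_iff₀ hC] at hM
  have hA := neg_abs_le A
  have hB := neg_abs_le B
  have hA0 := abs_nonneg A
  nlinarith [mul_nonneg (sub_nonneg.2 h1) hA0, mul_nonneg (le_trans zero_le_one h1)
    (by linarith : (0 : ℝ) ≤ B + |B|), mul_pos (lt_of_lt_of_le zero_lt_one h1)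
    (by linarith : (0 : ℝ) < M * C - (|A| + |B|))]

end Run7.h739
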