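import Pool.Agent.Run7.h739.Count

/-!
Automorphisms act freely on flags.
-/

namespace Run7.h739

open Module Function Run7.h249

lemma card_free {G β : Type} [Group G] [Finite G] [MulAction G β] [Finite β]
    (h : ∀ (g : G) (x : β), g • x = x → g = 1) :
    Nat.card (MulAction.orbitRel.Quotient G β) * Nat.card G = Nat.card β := by
  classical
  have e := MulAction.selfEquivSigmaOrbitsQuotientStabilizer G β
  have : Finite (MulAction.orbitRel.Quotient G β) := inferInstance
  have := Fintype.ofFinite (Quotient (MulAction.orbitRel G β))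
  rw [Nat.card_congr e, Nat.card_sigma]
  have hs : ∀ ω : MulAction.orbitRel.Quotient G β,
      Nat.card (G ⧸ MulAction.stabilizer G ω.out) = Nat.card G := by
    intro ω
    have : MulAction.stabilizer G ω.out = ⊥ := by
      rw [eq_bot_iff]
      intro g hg
      exact h g _ hg
    rw [this]
    exact Subgroup.index_bot
  rw [Finset.sum_congr rfl (fun ω _ => hs ω)]
  simp [Nat.card_eq_fintype_card]

section

variable {ι V : Type} [AddCommGroup V] [Module ℝ V] {a : ι → V}
variable [Finite ι] [FiniteDimensional ℝ V]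

open Fl

omit [FiniteDimensional ℝ V] in
lemma finite_auto : Finite (FSet a ≃o FSet a) := by
  have : Finite (FSet a) := inferInstance
  exact Finite.of_injective (fun α : FSet a ≃o FSet a => (α : FSet a → FSet a))
    (fun α β h => OrderIso.ext (by simpa using h))

lemma mp_congr (hE : IsFace a ∅) {α β : FSet a ≃o FSet a} {x : Fl a}
    (h : mp hE α x = mp hE β x) (y : Fl a) : mp hE α y = mp hE β y := by
  obtain ⟨w, -, hw⟩ := res_all hE x y
  subst hw
  show mp hE α (act sw w x) = mp hE β (act sw w x)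
  rw [mp_act, mp_act, h]

lemma exists_fl (hE : IsFace a ∅) : Nonempty (Fl a) := by
  obtain ⟨c, h0, h1, h2, h3⟩ := exists_chain (a := a) (rk a Set.univ) hE IsFace.univ
    (Set.empty_subset _) (by rw [rk_empty, zero_add])
  refine ⟨⟨fun r => if r ≤ rk a Set.univ then c r else Set.univ, ?_, ?_, ?_⟩⟩
  · intro r hr
    rw [if_pos hr]
    have := h2 r hr
    rw [rk_empty, zero_add] at this
    exact this
  · intro r
    show (if r ≤ rk a Set.univ then c r else Set.univ) ⊆
      (if r + 1 ≤ rk a Set.univ then c (r + 1) else Set.univ)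
    by_cases h : r + 1 ≤ rk a Set.univ
    · rw [if_pos (by omega), if_pos h]
      exact h3 r (by omega)
    · rw [if_neg h]
      exact Set.subset_univ _
  · intro r hr
    show (if r ≤ rk a Set.univ then c r else Set.univ) = _
    by_cases h : r ≤ rk a Set.univ
    · have : r = rk a Set.univ := by omega
      rw [if_pos h, this, h1]
    · rw [if_neg h]

lemma exists_fl_through (hE : IsFace a ∅) (S : FSet a) : ∃ x : Fl a, x.f (rk a S.1) = S.1 := by
  obtain ⟨x⟩ := exists_fl hE
  obtain ⟨y, -, hy⟩ := exists_through x (r := 0) (s := rk a S.1) (t := rk a Set.univ)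
    (Nat.zero_le _) (rk_mono (Set.subset_univ _)) le_rfl S.2 rfl
    (by rw [f_zero x hE]; exact Set.empty_subset _) (by rw [x.top _ le_rfl]; exact Set.subset_univ _)
  exact ⟨y, hy⟩

lemma auto_ext (hE : IsFace a ∅) {α β : FSet a ≃o FSet a} {x : Fl a}
    (h : mp hE α x = mp hE β x) : α = β := by
  apply OrderIso.ext
  funext S
  obtain ⟨y, hy⟩ := exists_fl_through hE S
  have h1 := congrArg (fun z : Fl a => z.f (rk a S.1)) (mp_congr hE h y)
  have h2 : (α ⟨y.f (rk a S.1), y.isFace _⟩).1 = (β ⟨y.f (rk a S.1), y.isFace _⟩).1 := h1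
  have h3 : (⟨y.f (rk a S.1), y.isFace _⟩ : FSet a) = S := Subtype.ext hy
  rw [h3] at h2
  exact Subtype.ext h2

/-- An automorphism fixing all faces of a flag is the identity. -/
lemma eq_one_of_fix (hE : IsFace a ∅) (α : FSet a ≃o FSet a) (x : Fl a)
    (h : ∀ r, r ≤ rk a Set.univ → α ⟨x.f r, x.isFace r⟩ = ⟨x.f r, x.isFace r⟩) (S : FSet a) :
    α S = S := by
  have h1 : mp hE α x = mp hE (OrderIso.refl _) x := by
    ext1 r
    rw [mp_f, mp_f]
    by_cases hr : r ≤ rk a Set.univ
    · rw [h r hr]
      rfl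
    · show (α ⟨x.f r, x.isFace r⟩).1 = x.f r
      have hx : x.f r = x.f (rk a Set.univ) := by rw [x.top r (by omega), x.top _ le_rfl]
      have h2 : (⟨x.f r, x.isFace r⟩ : FSet a) = ⟨x.f (rk a Set.univ), x.isFace _⟩ :=
        Subtype.ext hx
      rw [h2, h _ le_rfl, hx]
  rw [auto_ext hE h1]
  rfl

lemma flag_free (hE : IsFace a ∅) (α : FSet a ≃o FSet a) (c : Flag (FSet a)) (h : α • c = c) :
    α = 1 := by
  obtain ⟨x, rfl⟩ := toFlag_surj hE c
  rw [← toFlag_mp hE] at h
  have h1 : mp hE α x = mp hE (OrderIso.refl _) x := by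
    rw [toFlag_inj h]
    ext1 r
    rfl
  rw [auto_ext hE h1]
  rfl

omit [FiniteDimensional ℝ V] in
lemma finite_flag : Finite (Flag (FSet a)) := Finite.of_injective _ SetLike.coe_injective

theorem card_orb (hE : IsFace a ∅) :
    Nat.card (Orb (FSet a)) * Nat.card (FSet a ≃o FSet a) = fc a (rk a Set.univ) Set.univ := by
  have := finite_flag (a := a)
  have := finite_auto (a := a)
  rw [card_free (flag_free hE), ← card_Fl]
  exact (Nat.card_congr (Equiv.ofBijective toFlag ⟨toFlag_inj, toFlag_surj hE⟩)).symm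

end

end Run7.h739
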