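import Pool.Agent.Run7.h739.Frame

/-!
The connected sum of configurations along simplex facets.
-/

namespace Run7.h739

open Module Function Run7.h249 Filter

section

variable {d : ℕ} (P Y : Cfg d) (J : Type) (f : J → Fin d → P.ι) (f' : Fin d → Y.ι)

lemma emb_f (hf' : Injective f') (j : J) (i : Fin d) :
    emb P Y J f f' j (f' i) = Sum.inl (f j i) := by
  classical
  have h : ∃ k, f' k = f' i := ⟨i, rfl⟩
  unfold emb
  rw [dif_pos h]
  exact congrArg (fun k => Sum.inl (f j k)) (hf' h.choose_spec)

lemma emb_new (j : J) (y : Y.ι) (h : y ∉ Set.range f') :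
    emb P Y J f f' j y = Sum.inr (j, ⟨y, h⟩) := by
  classical
  unfold emb
  have h' : ¬ ∃ i, f' i = y := h
  rw [dif_neg h']

lemma emb_inj (hf' : Injective f') (hf : ∀ j, Injective (f j)) (j : J) :
    Injective (emb P Y J f f' j) := by
  intro x y h
  by_cases hx : x ∈ Set.range f'
  · obtain ⟨i, rfl⟩ := hx
    rw [emb_f P Y J f f' hf'] at h
    by_cases hy : y ∈ Set.range f'
    · obtain ⟨k, rfl⟩ := hy
      rw [emb_f P Y J f f' hf'] at h
      rw [hf j (Sum.inl_injective h)]
    · rw [emb_new P Y J f f' j y hy] at h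
      exact absurd h Sum.inl_ne_inr
  · rw [emb_new P Y J f f' j x hx] at h
    by_cases hy : y ∈ Set.range f'
    · obtain ⟨k, rfl⟩ := hy
      rw [emb_f P Y J f f' hf'] at h
      exact absurd h.symm Sum.inl_ne_inr
    · rw [emb_new P Y J f f' j y hy] at h
      have := Sum.inr_injective h
      simpa using this

end

section

variable {V W : Type} [AddCommGroup V] [Module ℝ V] [AddCommGroup W] [Module ℝ W] {d : ℕ}

lemma ev_pos_q (F : Frame V d) (F' : Frame W d) (y : W) (θ : Dual ℝ V)
    (h : 0 < θ (F.q F' y)) : ∀ᶠ M : ℝ in atTop, 0 < θ (F.mp F' M y) := by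
  have h1 := ev_lin (A := θ (F.p F' y)) h
  filter_upwards [h1] with M hM
  rw [Frame.mp_eq, map_add, map_smul, smul_eq_mul]
  exact hM

end

theorem exists_glued {d : ℕ} (P Y : Cfg d) (J : Type) [Finite J]
    (f : J → Fin d → P.ι) (f' : Fin d → Y.ι) (hf : ∀ j, SF P.a (f j))
    (hne : ∀ j j', Set.range (f j) = Set.range (f j') → j = j') (hf' : SF Y.a f') :
    ∃ a', Glued P Y J f f' a' := by
  classical
  choose F hFe hFp using fun j => exists_frame P.hV P.hrk (hf j)
  obtain ⟨F', hF'e, hF'p⟩ := exists_frame Y.hV Y.hrk hf'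
  -- functionals of the faces
  choose φ φ0 φ1 using fun S : {S : Set P.ι // IsFace P.a S} => S.2
  choose ψ ψ0 ψ1 using fun S : {S : Set Y.ι // IsFace Y.a S} => S.2
  have φnn : ∀ S i, 0 ≤ φ S (P.a i) := fun S => IsFace.nonneg (φ0 S) (φ1 S)
  have ψnn : ∀ S i, 0 ≤ ψ S (Y.a i) := fun S => IsFace.nonneg (ψ0 S) (ψ1 S)
  have hFnn : ∀ j i, 0 ≤ (F j).φ (P.a i) := by
    intro j i
    by_cases hi : i ∈ Set.range (f j)
    · obtain ⟨k, rfl⟩ := hi
      rw [← hFe j k, (F j).φe]
    · exact (hFp j i hi).le
  have hqform : ∀ (j : J) (y : Y.ι) (θ : Dual ℝ P.V),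
      θ ((F j).q F' (Y.a y)) = F'.φ (Y.a y) * ∑ k, θ (P.a (f j k)) := by
    intro j y θ
    rw [Frame.q, map_smul, map_sum, smul_eq_mul]
    simp_rw [hFe]
  -- a facet which does not contain the other facet is positive on its sum
  have hsumpos : ∀ (j : J) (θ : Dual ℝ P.V), (∀ i, 0 ≤ θ (P.a i)) →
      (∃ k, 0 < θ (P.a (f j k))) → 0 < ∑ k, θ (P.a (f j k)) := by
    rintro j θ h ⟨k, hk⟩
    exact Finset.sum_pos' (fun i _ => h _) ⟨k, Finset.mem_univ _, hk⟩
  have hsub : ∀ j j', j ≠ j' → ∃ k, f j' k ∉ Set.range (f j) := by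
    intro j j' hjj
    by_contra hcon
    push Not at hcon
    apply hjj
    apply hne
    symm
    apply (hf j').eq_of_sub (hf j).rank
    rintro _ ⟨k, rfl⟩
    exact hcon k
  have hqF : ∀ j j', j ≠ j' → ∀ y : Y.ι, y ∉ Set.range f' →
      0 < (F j).φ ((F j').q F' (Y.a y)) := by
    intro j j' hjj y hy
    rw [hqform]
    apply mul_pos (hF'p y hy)
    apply hsumpos _ _ (hFnn j)
    obtain ⟨k, hk⟩ := hsub j j' hjj
    exact ⟨k, hFp j _ hk⟩
  -- (a)
  have ha : ∀ᶠ M : ℝ in atTop, ∀ S : {S : Set P.ι // IsFace P.a S},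
      (∀ j, ¬ Set.range (f j) ⊆ S.1) → ∀ (j : J) (y : Y.ι), y ∉ Set.range f' →
      0 < φ S ((F j).mp F' M (Y.a y)) := by
    rw [eventually_all]
    intro S
    by_cases hS : ∀ j, ¬ Set.range (f j) ⊆ S.1
    · have : ∀ᶠ M : ℝ in atTop, ∀ (j : J) (y : Y.ι), y ∉ Set.range f' →
          0 < φ S ((F j).mp F' M (Y.a y)) := by
        rw [eventually_all]
        intro j
        rw [eventually_all]
        intro y
        by_cases hy : y ∉ Set.range f'
        · have : ∀ᶠ M : ℝ in atTop, 0 < φ S ((F j).mp F' M (Y.a y)) := by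
            apply ev_pos_q
            rw [hqform]
            apply mul_pos (hF'p y hy)
            apply hsumpos _ _ (φnn S)
            obtain ⟨_, ⟨k, rfl⟩, hk⟩ := Set.not_subset.1 (hS j)
            exact ⟨k, φ1 S _ hk⟩
          filter_upwards [this] with M hM _ using hM
        · exact Eventually.of_forall (fun M h => absurd h hy)
      filter_upwards [this] with M hM _ using hM
    · exact Eventually.of_forall (fun M h => absurd h hS)
  -- (b)
  have hgas : ∀ S : {S : Set Y.ι // IsFace Y.a S}, ¬ Set.range f' ⊆ S.1 →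
      0 < ∑ k, ψ S (F'.e k) := by
    intro S hS
    obtain ⟨_, ⟨k, rfl⟩, hk⟩ := Set.not_subset.1 hS
    apply Finset.sum_pos'
    · intro i _
      rw [hF'e]
      exact ψnn S _
    · refine ⟨k, Finset.mem_univ _, ?_⟩
      rw [hF'e]
      exact ψ1 S _ hk
  have hb : ∀ᶠ M : ℝ in atTop, ∀ S : {S : Set Y.ι // IsFace Y.a S},
      ¬ Set.range f' ⊆ S.1 → ∀ (j : J) (i : P.ι), i ∉ Set.range (f j) →
      0 < ψ S (F'.mp (F j) M (P.a i)) := by
    rw [eventually_all]
    intro S
    by_cases hS : ¬ Set.range f' ⊆ S.1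
    · have : ∀ᶠ M : ℝ in atTop, ∀ (j : J) (i : P.ι), i ∉ Set.range (f j) →
          0 < ψ S (F'.mp (F j) M (P.a i)) := by
        rw [eventually_all]
        intro j
        rw [eventually_all]
        intro i
        by_cases hi : i ∉ Set.range (f j)
        · have : ∀ᶠ M : ℝ in atTop, 0 < ψ S (F'.mp (F j) M (P.a i)) := by
            have h1 : 0 < (F j).ga F' (ψ S) (P.a i) := by
              rw [Frame.ga, LinearMap.smul_apply, smul_eq_mul]
              exact mul_pos (hgas S hS) (hFp j i hi)
            filter_upwards [ev_lin (A := (F j).al F' (ψ S) (P.a i)) h1] with M hM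
            rw [Frame.pull]
            exact hM
          filter_upwards [this] with M hM _ using hM
        · exact Eventually.of_forall (fun M h => absurd h hi)
      filter_upwards [this] with M hM _ using hM
    · exact Eventually.of_forall (fun M h => absurd h hS)
  -- (c)
  have hc : ∀ᶠ M : ℝ in atTop, ∀ S : {S : Set Y.ι // IsFace Y.a S},
      ¬ Set.range f' ⊆ S.1 → ∀ (j j' : J), j ≠ j' → ∀ (y : Y.ι), y ∉ Set.range f' →
      0 < ψ S (F'.mp (F j) M ((F j').mp F' M (Y.a y))) := by
    rw [eventually_all]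
    intro S
    by_cases hS : ¬ Set.range f' ⊆ S.1
    · have : ∀ᶠ M : ℝ in atTop, ∀ (j j' : J), j ≠ j' → ∀ (y : Y.ι), y ∉ Set.range f' →
          0 < ψ S (F'.mp (F j) M ((F j').mp F' M (Y.a y))) := by
        rw [eventually_all]
        intro j
        rw [eventually_all]
        intro j'
        by_cases hjj : j ≠ j'
        · have : ∀ᶠ M : ℝ in atTop, ∀ (y : Y.ι), y ∉ Set.range f' →
              0 < ψ S (F'.mp (F j) M ((F j').mp F' M (Y.a y))) := by
            rw [eventually_all]
            intro y
            by_cases hy : y ∉ Set.range f'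
            · have : ∀ᶠ M : ℝ in atTop,
                  0 < ψ S (F'.mp (F j) M ((F j').mp F' M (Y.a y))) := by
                set p := (F j').p F' (Y.a y)
                set q := (F j').q F' (Y.a y) with hq
                have h1 : 0 < (F j).ga F' (ψ S) q := by
                  rw [Frame.ga, LinearMap.smul_apply, smul_eq_mul]
                  exact mul_pos (hgas S hS) (hqF j j' hjj y hy)
                filter_upwards [ev_quad (A := (F j).al F' (ψ S) p)
                  (B := (F j).al F' (ψ S) q + (F j).ga F' (ψ S) p) h1] with M hM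
                rw [Frame.pull, Frame.mp_eq, map_add, map_add, map_smul, map_smul, smul_eq_mul,
                  smul_eq_mul]
                have e : (F j).al F' (ψ S) ((F j').p F' (Y.a y)) +
                    M * (F j).al F' (ψ S) ((F j').q F' (Y.a y)) +
                    M * ((F j).ga F' (ψ S) ((F j').p F' (Y.a y)) +
                      M * (F j).ga F' (ψ S) ((F j').q F' (Y.a y)))
                    = (F j).al F' (ψ S) p + M * ((F j).al F' (ψ S) q + (F j).ga F' (ψ S) p) +
                      M * M * (F j).ga F' (ψ S) q := by ring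
                rw [e]
                exact hM
              filter_upwards [this] with M hM _ using hM
            · exact Eventually.of_forall (fun M h => absurd h hy)
          filter_upwards [this] with M hM _ using hM
        · exact Eventually.of_forall (fun M h => absurd h hjj)
      filter_upwards [this] with M hM _ using hM
    · exact Eventually.of_forall (fun M h => absurd h hS)
  -- (d1)
  have hd1 : ∀ᶠ M : ℝ in atTop, ∀ (j : J) (y : Y.ι), y ∉ Set.range f' → ∀ i : P.ι,
      i ∉ Set.range (f j) → ∀ k, 0 < F'.φ (Y.a y) * (F j).X k (P.a i) +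
        (F j).φ (P.a i) * (F'.X k (Y.a y) + F'.φ (Y.a y) * M) := by
    rw [eventually_all]
    intro j
    rw [eventually_all]
    intro y
    by_cases hy : y ∉ Set.range f'
    · have : ∀ᶠ M : ℝ in atTop, ∀ i : P.ι,
          i ∉ Set.range (f j) → ∀ k, 0 < F'.φ (Y.a y) * (F j).X k (P.a i) +
            (F j).φ (P.a i) * (F'.X k (Y.a y) + F'.φ (Y.a y) * M) := by
        rw [eventually_all]
        intro i
        by_cases hi : i ∉ Set.range (f j)
        · have : ∀ᶠ M : ℝ in atTop, ∀ k, 0 < F'.φ (Y.a y) * (F j).X k (P.a i) +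
              (F j).φ (P.a i) * (F'.X k (Y.a y) + F'.φ (Y.a y) * M) := by
            rw [eventually_all]
            intro k
            filter_upwards [ev_lin (A := F'.φ (Y.a y) * (F j).X k (P.a i) +
              (F j).φ (P.a i) * F'.X k (Y.a y)) (mul_pos (hFp j i hi) (hF'p y hy))] with M hM
            linarith
          filter_upwards [this] with M hM _ using hM
        · exact Eventually.of_forall (fun M h => absurd h hi)
      filter_upwards [this] with M hM _ using hM
    · exact Eventually.of_forall (fun M h => absurd h hy)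
  -- (d2)
  have hd2 : ∀ᶠ M : ℝ in atTop, ∀ (j : J) (y : Y.ι), y ∉ Set.range f' → ∀ (j' : J), j ≠ j' →
      ∀ (y' : Y.ι), y' ∉ Set.range f' → 0 < (F j).φ ((F j').mp F' M (Y.a y')) ∧
      ∀ k, 0 < F'.φ (Y.a y) * (F j).X k ((F j').mp F' M (Y.a y')) +
        (F j).φ ((F j').mp F' M (Y.a y')) * (F'.X k (Y.a y) + F'.φ (Y.a y) * M) := by
    rw [eventually_all]
    intro j
    rw [eventually_all]
    intro y
    by_cases hy : y ∉ Set.range f'
    · have : ∀ᶠ M : ℝ in atTop, ∀ (j' : J), j ≠ j' →
          ∀ (y' : Y.ι), y' ∉ Set.range f' → 0 < (F j).φ ((F j').mp F' M (Y.a y')) ∧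
          ∀ k, 0 < F'.φ (Y.a y) * (F j).X k ((F j').mp F' M (Y.a y')) +
            (F j).φ ((F j').mp F' M (Y.a y')) * (F'.X k (Y.a y) + F'.φ (Y.a y) * M) := by
        rw [eventually_all]
        intro j'
        by_cases hjj : j ≠ j'
        · have : ∀ᶠ M : ℝ in atTop,
              ∀ (y' : Y.ι), y' ∉ Set.range f' → 0 < (F j).φ ((F j').mp F' M (Y.a y')) ∧
              ∀ k, 0 < F'.φ (Y.a y) * (F j).X k ((F j').mp F' M (Y.a y')) +
                (F j).φ ((F j').mp F' M (Y.a y')) * (F'.X k (Y.a y) + F'.φ (Y.a y) * M) := by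
            rw [eventually_all]
            intro y'
            by_cases hy' : y' ∉ Set.range f'
            · have h1 : ∀ᶠ M : ℝ in atTop, 0 < (F j).φ ((F j').mp F' M (Y.a y')) :=
                ev_pos_q _ _ _ _ (hqF j j' hjj y' hy')
              have h2 : ∀ᶠ M : ℝ in atTop, ∀ k,
                  0 < F'.φ (Y.a y) * (F j).X k ((F j').mp F' M (Y.a y')) +
                  (F j).φ ((F j').mp F' M (Y.a y')) * (F'.X k (Y.a y) + F'.φ (Y.a y) * M) := by
                rw [eventually_all]
                intro k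
                set p := (F j').p F' (Y.a y')
                set q := (F j').q F' (Y.a y')
                have h3 : 0 < F'.φ (Y.a y) * (F j).φ q :=
                  mul_pos (hF'p y hy) (hqF j j' hjj y' hy')
                filter_upwards [ev_quad (A := F'.φ (Y.a y) * (F j).X k p +
                    (F j).φ p * F'.X k (Y.a y))
                  (B := F'.φ (Y.a y) * (F j).X k q + (F j).φ q * F'.X k (Y.a y) +
                    (F j).φ p * F'.φ (Y.a y)) h3] with M hM
                rw [Frame.mp_eq, map_add, map_add, map_smul, map_smul, smul_eq_mul, smul_eq_mul]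
                have e : F'.φ (Y.a y) * ((F j).X k ((F j').p F' (Y.a y')) +
                      M * (F j).X k ((F j').q F' (Y.a y'))) +
                    ((F j).φ ((F j').p F' (Y.a y')) + M * (F j).φ ((F j').q F' (Y.a y'))) *
                      (F'.X k (Y.a y) + F'.φ (Y.a y) * M)
                    = F'.φ (Y.a y) * (F j).X k p + (F j).φ p * F'.X k (Y.a y) +
                      M * (F'.φ (Y.a y) * (F j).X k q + (F j).φ q * F'.X k (Y.a y) +
                        (F j).φ p * F'.φ (Y.a y)) + M * M * (F'.φ (Y.a y) * (F j).φ q) := by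
                  ring
                rw [e]
                exact hM
              filter_upwards [h1, h2] with M hM1 hM2 _ using ⟨hM1, hM2⟩
            · exact Eventually.of_forall (fun M h => absurd h hy')
          filter_upwards [this] with M hM _ using hM
        · exact Eventually.of_forall (fun M h => absurd h hjj)
      filter_upwards [this] with M hM _ using hM
    · exact Eventually.of_forall (fun M h => absurd h hy)
  obtain ⟨M, ⟨⟨⟨⟨ha, hb⟩, hc⟩, hd1⟩, hd2⟩⟩ := ((((ha.and hb).and hc).and hd1).and hd2).exists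
  -- the configuration
  set a' : GI P Y J f' → P.V := Sum.elim P.a (fun x => (F x.1).mp F' M (Y.a x.2.1)) with ha'
  have hnew : ∀ j y, a' (emb P Y J f f' j y) = (F j).eqv F' M (Y.a y) := by
    intro j y
    rw [Frame.eqv_apply]
    by_cases hy : y ∈ Set.range f'
    · obtain ⟨i, rfl⟩ := hy
      rw [emb_f P Y J f f' hf'.inj, ← hF'e i, Frame.mp_e, hFe]
      rfl
    · rw [emb_new P Y J f f' j y hy]
      rfl
  refine ⟨a', ⟨fun i => rfl, fun j => ⟨(F j).eqv F' M, hnew j⟩, ?_⟩⟩
  intro T
  constructor
  · intro hT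
    obtain ⟨θ, t0, t1⟩ := id hT
    have tnn := IsFace.nonneg t0 t1
    -- reduction
    have hred : ∀ j (v : P.V), (∀ k, θ (P.a (f j k)) = 0) → θ v = 0 → (F j).φ v ≠ 0 →
        T = Set.univ := by
      intro j v h1 h2 h3
      have hz : θ = 0 := (F j).zero_of (fun i => by rw [hFe]; exact h1 i) h2 h3
      ext x
      simp only [Set.mem_univ, iff_true]
      by_contra hx
      have := t1 x hx
      rw [hz] at this
      exact lt_irrefl _ this
    by_cases hall : ∀ x ∈ T, ∃ i, x = Sum.inl i
    · have hTS : T = Sum.inl '' (Sum.inl ⁻¹' T) := by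
        ext x
        constructor
        · intro hx
          obtain ⟨i, rfl⟩ := hall x hx
          exact ⟨i, hx, rfl⟩
        · rintro ⟨i, hi, rfl⟩
          exact hi
      have hS : IsFace P.a (Sum.inl ⁻¹' T) := isFace_comp hT Sum.inl
      by_cases hex : ∃ j, Set.range (f j) ⊆ (Sum.inl ⁻¹' T : Set P.ι)
      · left
        obtain ⟨j, hj⟩ := hex
        have hz : ∀ k, θ (P.a (f j k)) = 0 := fun k => t0 (Sum.inl (f j k)) (hj ⟨k, rfl⟩)
        obtain ⟨y0, -, hy0⟩ := exists_of_rk_lt (a := Y.a) (S := Set.range f') (T := Set.univ)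
          (by rw [hf'.rank, Y.hrk]; omega)
        obtain ⟨i0, -, hi0⟩ := exists_of_rk_lt (a := P.a) (S := Set.range (f j))
          (T := Set.univ) (by rw [(hf j).rank, P.hrk]; omega)
        have hz' : ∀ k, θ ((F j).e k) = 0 := fun k => by rw [hFe]; exact hz k
        have e1 : θ ((F j).mp F' M (Y.a y0)) = -(F'.φ (Y.a y0) * θ (F j).w) :=
          (F j).eval_mp F' M hz' _
        have e2 : θ (P.a i0) = (F j).φ (P.a i0) * θ (F j).w := (F j).eval hz' _
        have n1 : 0 ≤ θ ((F j).mp F' M (Y.a y0)) := tnn (Sum.inr (j, ⟨y0, hy0⟩))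
        have n2 : 0 ≤ θ (P.a i0) := tnn (Sum.inl i0)
        have p1 := hF'p y0 hy0
        have p2 := hFp j i0 hi0
        have hw : θ (F j).w = 0 := by
          apply le_antisymm
          · by_contra hcon
            push Not at hcon
            have := mul_pos p1 hcon
            linarith
          · by_contra hcon
            push Not at hcon
            have := mul_neg_of_pos_of_neg p2 hcon
            linarith
        apply hred j (F j).w hz hw
        rw [(F j).φw]
        exact one_ne_zero
      · right; left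
        push Not at hex
        exact ⟨_, hS, hex, hTS⟩
    · push Not at hall
      obtain ⟨x0, hx0, hx0'⟩ := hall
      rcases x0 with i | ⟨j, ⟨y, hy⟩⟩
      · exact absurd rfl (hx0' i)
      have hθy : θ ((F j).mp F' M (Y.a y)) = 0 := t0 _ hx0
      have hφy : (F j).φ ((F j).mp F' M (Y.a y)) = -F'.φ (Y.a y) := by
        rw [(F j).eval_mp F' M (F j).φe, (F j).φw, mul_one]
      by_cases h2 : ∀ x ∈ T, x ∈ Set.range (emb P Y J f f' j)
      · have hTS : T = emb P Y J f f' j '' (emb P Y J f f' j ⁻¹' T) := by
          ext x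
          constructor
          · intro hx
            obtain ⟨s, rfl⟩ := h2 x hx
            exact ⟨s, hx, rfl⟩
          · rintro ⟨i, hi, rfl⟩
            exact hi
        have hS : IsFace Y.a (emb P Y J f f' j ⁻¹' T) :=
          isFace_preimage_iff ((F j).eqv F' M) (hnew j) hT
        by_cases hsub' : Set.range f' ⊆ emb P Y J f f' j ⁻¹' T
        · left
          apply hred j ((F j).mp F' M (Y.a y)) _ hθy
          · rw [hφy]
            have := hF'p y hy
            linarith
          · intro k
            have h3 : emb P Y J f f' j (f' k) ∈ T := hsub' ⟨k, rfl⟩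
            rw [emb_f P Y J f f' hf'.inj] at h3
            exact t0 _ h3
        · right; right
          exact ⟨j, _, hS, hsub', hTS⟩
      · left
        push Not at h2
        obtain ⟨x, hx, hx'⟩ := h2
        -- the general argument
        have main : ∀ v : P.V, θ v = 0 → 0 < (F j).φ v →
            (∀ k, 0 < F'.φ (Y.a y) * (F j).X k v +
              (F j).φ v * (F'.X k (Y.a y) + F'.φ (Y.a y) * M)) → T = Set.univ := by
          intro v hv hpos hk
          apply hred j v _ hv hpos.ne'
          have hcomb := congrArg θ ((F j).comb F' M (Y.a y) v)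
          rw [map_add, map_smul, map_smul, hv, hθy, smul_zero, smul_zero, add_zero,
            map_sum] at hcomb
          have hz := (Finset.sum_eq_zero_iff_of_nonneg (s := Finset.univ) (f := fun i =>
            θ ((F'.φ (Y.a y) * (F j).X i v + (F j).φ v * (F'.X i (Y.a y) +
              F'.φ (Y.a y) * M)) • (F j).e i)) (by
              intro i _
              rw [map_smul, smul_eq_mul, hFe]
              exact mul_nonneg (hk i).le (tnn (Sum.inl (f j i))))).1 hcomb.symm
          intro k
          have h3 := hz k (Finset.mem_univ _)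
          rw [map_smul, smul_eq_mul, hFe] at h3
          rcases mul_eq_zero.1 h3 with h4 | h4
          · exact absurd h4 (hk k).ne'
          · exact h4
        rcases x with i | ⟨j', ⟨y', hy'⟩⟩
        · have hi : i ∉ Set.range (f j) := by
            rintro ⟨k, rfl⟩
            exact hx' ⟨f' k, emb_f P Y J f f' hf'.inj j k⟩
          exact main (P.a i) (t0 _ hx) (hFp j i hi) (hd1 j y hy i hi)
        · have hjj : j ≠ j' := by
            rintro rfl
            exact hx' ⟨y', emb_new P Y J f f' j y' hy'⟩
          exact main _ (t0 _ hx) (hd2 j y hy j' hjj y' hy').1 (hd2 j y hy j' hjj y' hy').2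
  · rintro (h | ⟨S, hS, hS', rfl⟩ | ⟨j, S, hS, hS', rfl⟩)
    · rw [h]
      exact IsFace.univ
    · refine ⟨φ ⟨S, hS⟩, ?_, ?_⟩
      · rintro _ ⟨i, hi, rfl⟩
        exact φ0 ⟨S, hS⟩ i hi
      · rintro (i | ⟨j, ⟨y, hy⟩⟩) hx
        · apply φ1 ⟨S, hS⟩ i
          intro hi
          exact hx ⟨i, hi, rfl⟩
        · exact ha ⟨S, hS⟩ hS' j y hy
    · refine ⟨ψ ⟨S, hS⟩ ∘ₗ F'.mp (F j) M, ?_, ?_⟩
      · rintro _ ⟨y, hy, rfl⟩
        show ψ ⟨S, hS⟩ (F'.mp (F j) M (a' (emb P Y J f f' j y))) = 0
        rw [hnew, Frame.eqv_apply, Frame.mp_mp]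
        exact ψ0 ⟨S, hS⟩ y hy
      · have own : ∀ y, emb P Y J f f' j y ∉ emb P Y J f f' j '' S →
            0 < ψ ⟨S, hS⟩ (F'.mp (F j) M (a' (emb P Y J f f' j y))) := by
          intro y hy
          rw [hnew, Frame.eqv_apply, Frame.mp_mp]
          apply ψ1 ⟨S, hS⟩ y
          intro h
          exact hy ⟨y, h, rfl⟩
        rintro (i | ⟨j', ⟨y, hy⟩⟩) hx
        · by_cases hi : i ∈ Set.range (f j)
          · obtain ⟨k, rfl⟩ := hi
            rw [← emb_f P Y J f f' hf'.inj] at hx ⊢
            exact own _ hx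
          · exact hb ⟨S, hS⟩ hS' j i hi
        · by_cases hjj : j = j'
          · subst hjj
            rw [← emb_new P Y J f f' j y hy] at hx ⊢
            exact own _ hx
          · exact hc ⟨S, hS⟩ hS' j j' hjj y hy

end Run7.h739
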