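import Pool.Agent.Run7.h739.Glue
import Pool.Agent.Run7.h739.Bip

/-!
The glued configuration: ranks, flags, facets.
-/

namespace Run7.h739

open Module Function Run7.h249

section

variable {d : ℕ} {P Y : Cfg d} {J : Type} {f : J → Fin d → P.ι} {f' : Fin d → Y.ι}
variable {a' : GI P Y J f' → P.V}

lemma glued_rk_inl (h : Glued P Y J f f' a') (S : Set P.ι) :
    rk a' (Sum.inl '' S) = rk P.a S := by
  rw [← rk_comp a' Sum.inl S]
  have : (fun k => a' (Sum.inl k)) = P.a := funext h.old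
  rw [this]

lemma glued_rk_emb (h : Glued P Y J f f' a') (j : J) (S : Set Y.ι) :
    rk a' (emb P Y J f f' j '' S) = rk Y.a S := by
  obtain ⟨A, hA⟩ := h.new j
  rw [← rk_comp a' _ S]
  have : (fun k => a' (emb P Y J f f' j k)) = fun k => A (Y.a k) := funext hA
  rw [this, rk_lin]

lemma glued_face_inl (h : Glued P Y J f f' a') {S : Set P.ι}
    (hS : ∀ j, ¬ Set.range (f j) ⊆ S) : IsFace a' (Sum.inl '' S) ↔ IsFace P.a S := by
  constructor
  · intro h1
    have h2 := isFace_comp h1 (Sum.inl : P.ι → GI P Y J f')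
    have : (fun k => a' (Sum.inl k)) = P.a := funext h.old
    rw [this, Set.preimage_image_eq _ Sum.inl_injective] at h2
    exact h2
  · intro h1
    rw [h.face]
    exact Or.inr (Or.inl ⟨S, h1, hS, rfl⟩)

lemma glued_face_emb (h : Glued P Y J f f' a') (hf : ∀ j, SF P.a (f j)) (hf' : SF Y.a f') (j : J)
    {S : Set Y.ι} (hS : ¬ Set.range f' ⊆ S) :
    IsFace a' (emb P Y J f f' j '' S) ↔ IsFace Y.a S := by
  constructor
  · intro h1
    obtain ⟨A, hA⟩ := h.new j
    have h2 := isFace_preimage_iff A hA h1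
    rw [Set.preimage_image_eq _ (emb_inj P Y J f f' hf'.inj (fun j => (hf j).inj) j)] at h2
    exact h2
  · intro h1
    rw [h.face]
    exact Or.inr (Or.inr ⟨j, S, h1, hS, rfl⟩)

lemma glued_fc_inl (h : Glued P Y J f f' a') (r : ℕ) {S : Set P.ι}
    (hS : ∀ j, ¬ Set.range (f j) ⊆ S) : fc a' r (Sum.inl '' S) = fc P.a r S :=
  fc_transfer Sum.inl_injective r S
    (fun _ hT => glued_face_inl h (fun j hj => hS j (hj.trans hT)))
    (fun T _ => glued_rk_inl h T)

lemma glued_fc_emb (h : Glued P Y J f f' a') (hf : ∀ j, SF P.a (f j)) (hf' : SF Y.a f') (j : J)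
    (r : ℕ) {S : Set Y.ι} (hS : ¬ Set.range f' ⊆ S) :
    fc a' r (emb P Y J f f' j '' S) = fc Y.a r S :=
  fc_transfer (emb_inj P Y J f f' hf'.inj (fun j => (hf j).inj) j) r S
    (fun _ hT => glued_face_emb h hf hf' j (fun hj => hS (hj.trans hT)))
    (fun T _ => glued_rk_emb h j T)

lemma glued_rk_univ [Finite J] (h : Glued P Y J f f' a') : rk a' Set.univ = d + 1 := by
  apply le_antisymm
  · have h := Submodule.finrank_le (Submodule.span ℝ (a' '' Set.univ))
    rw [P.hV] at h
    exact h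
  · rw [← P.hrk, ← glued_rk_inl h]
    exact rk_mono (Set.subset_univ _)

lemma SF.not_sub_empty {ι V : Type} [AddCommGroup V] [Module ℝ V] {a : ι → V} {d : ℕ}
    (hd : 1 ≤ d) (f : Fin d → ι) : ¬ Set.range f ⊆ ∅ := by
  intro h
  exact h ⟨⟨0, by omega⟩, rfl⟩

lemma SF.not_sub_single {ι V : Type} [AddCommGroup V] [Module ℝ V] {a : ι → V} {d : ℕ}
    (hd : 2 ≤ d) {f : Fin d → ι} (hf : SF a f) (i : ι) : ¬ Set.range f ⊆ {i} := by
  intro h
  have h0 : f ⟨0, by omega⟩ = i := h ⟨_, rfl⟩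
  have h1 : f ⟨1, by omega⟩ = i := h ⟨_, rfl⟩
  have h2 := hf.inj (h0.trans h1.symm)
  have h3 : (0 : ℕ) = 1 := congrArg Fin.val h2
  exact absurd h3 (by decide)

/-- The glued configuration. -/
def gluedC [Finite J] (hd : 2 ≤ d) (h : Glued P Y J f f' a') (hf : ∀ j, SF P.a (f j))
    (hf' : SF Y.a f') : Cfg d where
  ι := GI P Y J f'
  V := P.V
  a := a'
  hV := P.hV
  hrk := glued_rk_univ h
  pt := by
    have h1 := (glued_face_inl h (S := ∅)
      (fun j => SF.not_sub_empty (a := P.a) (by omega) (f j))).2 P.pt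
    rwa [Set.image_empty] at h1
  vert := by
    rintro (i | ⟨j, ⟨y, hy⟩⟩)
    · have h1 := (glued_face_inl h (S := {i}) (fun j => (hf j).not_sub_single hd i)).2 (P.vert i)
      rwa [Set.image_singleton] at h1
    · have h1 := (glued_face_emb h hf hf' j (S := {y}) (hf'.not_sub_single hd y)).2 (Y.vert y)
      rwa [Set.image_singleton, emb_new P Y J f f' j y hy] at h1

/-- The facets of the glued configuration. -/
lemma glued_facet [Finite J] (h : Glued P Y J f f' a') {T : Set (GI P Y J f')}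
    (hT : IsFace a' T) (hr : rk a' T = d) :
    (∃ S, IsFace P.a S ∧ rk P.a S = d ∧ (∀ j, ¬ Set.range (f j) ⊆ S) ∧ T = Sum.inl '' S) ∨
    (∃ j S, IsFace Y.a S ∧ rk Y.a S = d ∧ ¬ Set.range f' ⊆ S ∧ T = emb P Y J f f' j '' S) := by
  rcases (h.face T).1 hT with h1 | ⟨S, h1, h2, h3⟩ | ⟨j, S, h1, h2, h3⟩
  · exfalso
    rw [h1, glued_rk_univ h] at hr
    omega
  · left
    subst h3
    exact ⟨S, h1, (glued_rk_inl h S).symm.trans hr, h2, rfl⟩
  · right
    subst h3
    exact ⟨j, S, h1, (glued_rk_emb h j S).symm.trans hr, h2, rfl⟩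

lemma inl_ne_emb [Finite J] (h : Glued P Y J f f' a') (hf : ∀ j, SF P.a (f j)) (hf' : SF Y.a f')
    {S : Set P.ι} {j : J} {S' : Set Y.ι} (hr : rk P.a S = d) (hS : ¬ Set.range (f j) ⊆ S)
    (hF : IsFace P.a S) (he : (Sum.inl '' S : Set (GI P Y J f')) = emb P Y J f f' j '' S') :
    False := by
  have h1 : S ⊆ Set.range (f j) := by
    intro i hi
    have : (Sum.inl i : GI P Y J f') ∈ emb P Y J f f' j '' S' := by
      rw [← he]
      exact ⟨i, hi, rfl⟩
    obtain ⟨y, hy, hy'⟩ := this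
    by_cases hyr : y ∈ Set.range f'
    · obtain ⟨k, rfl⟩ := hyr
      rw [emb_f P Y J f f' hf'.inj] at hy'
      exact ⟨k, Sum.inl_injective hy'⟩
    · rw [emb_new P Y J f f' j y hyr] at hy'
      exact absurd hy'.symm Sum.inl_ne_inr
  have h2 := eq_of_rk hF h1 (by rw [(hf j).rank, hr])
  exact hS h2.symm.subset

lemma emb_ne_emb [Finite J] (h : Glued P Y J f f' a') (hf' : SF Y.a f')
    {j j' : J} (hjj : j ≠ j') {S S' : Set Y.ι} (hr : rk Y.a S = d) (hS : ¬ Set.range f' ⊆ S)
    (hF : IsFace Y.a S) (he : emb P Y J f f' j '' S = emb P Y J f f' j' '' S') : False := by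
  have h1 : S ⊆ Set.range f' := by
    intro y hy
    by_contra hyr
    have : emb P Y J f f' j y ∈ emb P Y J f f' j' '' S' := by
      rw [← he]
      exact ⟨y, hy, rfl⟩
    rw [emb_new P Y J f f' j y hyr] at this
    obtain ⟨y', hy', hy''⟩ := this
    by_cases hyr' : y' ∈ Set.range f'
    · obtain ⟨k, rfl⟩ := hyr'
      rw [emb_f P Y J f f' hf'.inj] at hy''
      exact absurd hy'' Sum.inl_ne_inr
    · rw [emb_new P Y J f f' j' y' hyr'] at hy''
      have := Sum.inr_injective hy''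
      exact hjj (congrArg Prod.fst this).symm
  have h2 := eq_of_rk hF h1 (by rw [hf'.rank, hr])
  exact hS h2.symm.subset

/-- The number of flags of the glued configuration. -/
theorem glued_cnt [Finite J] (h : Glued P Y J f f' a') (hf : ∀ j, SF P.a (f j))
    (hne : ∀ j j', Set.range (f j) = Set.range (f j') → j = j') (hf' : SF Y.a f') :
    fc a' (d + 1) Set.univ + 2 * (Nat.card J * d.factorial) =
      fc P.a (d + 1) Set.univ + Nat.card J * fc Y.a (d + 1) Set.univ := by
  classical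
  letI := Fintype.ofFinite J
  set A : Set (Set P.ι) := {S | (IsFace P.a S ∧ rk P.a S = d ∧ S ⊆ Set.univ) ∧
    ∀ j, ¬ Set.range (f j) ⊆ S} with hA
  set B : Set (Set Y.ι) := {S | (IsFace Y.a S ∧ rk Y.a S = d ∧ S ⊆ Set.univ) ∧
    ¬ Set.range f' ⊆ S} with hB
  -- the facets of P
  have hP : fc P.a (d + 1) Set.univ = ∑ᶠ S ∈ A, fc P.a d S + Nat.card J * d.factorial := by
    have hset : {S : Set P.ι | IsFace P.a S ∧ rk P.a S = d ∧ S ⊆ Set.univ} =
        A ∪ Set.range (fun j => Set.range (f j)) := by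
      ext S
      constructor
      · intro hS
        by_cases hj : ∀ j, ¬ Set.range (f j) ⊆ S
        · exact Or.inl ⟨hS, hj⟩
        · push Not at hj
          obtain ⟨j, hj⟩ := hj
          exact Or.inr ⟨j, (hf j).eq_of_sub hS.2.1 hj⟩
      · rintro (hS | ⟨j, rfl⟩)
        · exact hS.1
        · exact ⟨(hf j).face, (hf j).rank, Set.subset_univ _⟩
    have hdisj : Disjoint A (Set.range (fun j => Set.range (f j))) := by
      rw [Set.disjoint_left]
      rintro _ hS ⟨j, rfl⟩
      exact hS.2 j (subset_refl _)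
    rw [fc_succ, hset, finsum_mem_union hdisj (Set.toFinite _) (Set.toFinite _)]
    congr 1
    rw [finsum_mem_range (fun j j' hjj => hne j j' hjj), finsum_eq_sum_of_fintype,
      Finset.sum_congr rfl (fun j _ => (hf j).fc), Finset.sum_const, smul_eq_mul,
      Finset.card_univ, Nat.card_eq_fintype_card]
  -- the facets of Y
  have hY : fc Y.a (d + 1) Set.univ = ∑ᶠ S ∈ B, fc Y.a d S + d.factorial := by
    have hset : {S : Set Y.ι | IsFace Y.a S ∧ rk Y.a S = d ∧ S ⊆ Set.univ} =
        insert (Set.range f') B := by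
      ext S
      constructor
      · intro hS
        by_cases hj : ¬ Set.range f' ⊆ S
        · exact Or.inr ⟨hS, hj⟩
        · push Not at hj
          exact Or.inl (hf'.eq_of_sub hS.2.1 hj).symm
      · rintro (hS | hS)
        · rw [hS]
          exact ⟨hf'.face, hf'.rank, Set.subset_univ _⟩
        · exact hS.1
    rw [fc_succ, hset, finsum_mem_insert _ (fun hh => hh.2 (subset_refl _)) (Set.toFinite _),
      hf'.fc, add_comm]
  -- the facets of the glued configuration
  have hX : fc a' (d + 1) Set.univ = ∑ᶠ S ∈ A, fc P.a d S +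
      Nat.card J * ∑ᶠ S ∈ B, fc Y.a d S := by
    have hset : {T : Set (GI P Y J f') | IsFace a' T ∧ rk a' T = d ∧ T ⊆ Set.univ} =
        ((fun S : Set P.ι => (Sum.inl '' S : Set (GI P Y J f'))) '' A) ∪
        ⋃ j, ((fun S : Set Y.ι => emb P Y J f f' j '' S) '' B) := by
      ext T
      constructor
      · rintro ⟨h1, h2, -⟩
        rcases glued_facet h h1 h2 with ⟨S, k1, k2, k3, rfl⟩ | ⟨j, S, k1, k2, k3, rfl⟩
        · exact Or.inl ⟨S, ⟨⟨k1, k2, Set.subset_univ _⟩, k3⟩, rfl⟩
        · exact Or.inr (Set.mem_iUnion.2 ⟨j, S, ⟨⟨k1, k2, Set.subset_univ _⟩, k3⟩, rfl⟩)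
      · rintro (⟨S, ⟨⟨k1, k2, -⟩, k3⟩, rfl⟩ | hT)
        · exact ⟨(glued_face_inl h k3).2 k1, (glued_rk_inl h S).trans k2, Set.subset_univ _⟩
        · obtain ⟨j, S, ⟨⟨k1, k2, -⟩, k3⟩, rfl⟩ := Set.mem_iUnion.1 hT
          exact ⟨(glued_face_emb h hf hf' j k3).2 k1, (glued_rk_emb h j S).trans k2,
            Set.subset_univ _⟩
    have hdisj : Disjoint ((fun S : Set P.ι => (Sum.inl '' S : Set (GI P Y J f'))) '' A)
        (⋃ j, ((fun S : Set Y.ι => emb P Y J f f' j '' S) '' B)) := by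
      rw [Set.disjoint_left]
      rintro _ ⟨S, ⟨⟨k1, k2, -⟩, k3⟩, rfl⟩ hT
      obtain ⟨j, S', -, he⟩ := Set.mem_iUnion.1 hT
      exact inl_ne_emb h hf hf' k2 (k3 j) k1 he.symm
    have hpw : Pairwise (Disjoint on fun j =>
        ((fun S : Set Y.ι => emb P Y J f f' j '' S) '' B)) := by
      intro j j' hjj
      show Disjoint _ _
      rw [Set.disjoint_left]
      rintro _ ⟨S, ⟨⟨k1, k2, -⟩, k3⟩, rfl⟩ ⟨S', -, he⟩
      exact emb_ne_emb h hf' hjj k2 k3 k1 he.symm
    rw [fc_succ, hset, finsum_mem_union hdisj (Set.toFinite _) (Set.toFinite _)]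
    congr 1
    · rw [finsum_mem_image]
      · apply finsum_mem_congr rfl
        rintro S ⟨-, k3⟩
        exact glued_fc_inl h d k3
      · exact (Set.image_injective.2 Sum.inl_injective).injOn
    · rw [finsum_mem_iUnion hpw (fun j => Set.toFinite _), finsum_eq_sum_of_fintype]
      have : ∀ j ∈ (Finset.univ : Finset J), ∑ᶠ T ∈ ((fun S : Set Y.ι =>
          emb P Y J f f' j '' S) '' B), fc a' d T = ∑ᶠ S ∈ B, fc Y.a d S := by
        intro j _
        rw [finsum_mem_image]
        · apply finsum_mem_congr rfl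
          rintro S ⟨-, k3⟩
          exact glued_fc_emb h hf hf' j d k3
        · exact (Set.image_injective.2
            (emb_inj P Y J f f' hf'.inj (fun j => (hf j).inj) j)).injOn
      rw [Finset.sum_congr rfl this, Finset.sum_const, smul_eq_mul, Finset.card_univ,
        Nat.card_eq_fintype_card]
  rw [hX, hP, hY]
  ring

/-- A simplex facet of a copy of the block. -/
lemma glued_SF_emb [Finite J] (h : Glued P Y J f f' a') (hf : ∀ j, SF P.a (f j))
    (hf' : SF Y.a f') (j : J) {g : Fin d → Y.ι} (hg : SF Y.a g)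
    (hne : Set.range f' ≠ Set.range g) : SF a' (fun i => emb P Y J f f' j (g i)) := by
  have hns : ¬ Set.range f' ⊆ Set.range g := fun hs => hne (hf'.eq_of_sub hg.rank hs)
  have hr : Set.range (fun i => emb P Y J f f' j (g i)) = emb P Y J f f' j '' Set.range g := by
    rw [← Set.range_comp]
    rfl
  refine ⟨fun x y hxy => hg.inj
    (emb_inj P Y J f f' hf'.inj (fun j => (hf j).inj) j hxy), ?_, ?_⟩
  · rw [hr]
    exact (glued_face_emb h hf hf' j hns).2 hg.face
  · rw [hr, glued_rk_emb h, hg.rank]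

/-- A simplex facet of the old polytope. -/
lemma glued_SF_inl [Finite J] (h : Glued P Y J f f' a') (hf : ∀ j, SF P.a (f j))
    {g : Fin d → P.ι} (hg : SF P.a g) (hne : ∀ j, Set.range (f j) ≠ Set.range g) :
    SF a' (fun i => (Sum.inl (g i) : GI P Y J f')) := by
  have hns : ∀ j, ¬ Set.range (f j) ⊆ Set.range g := fun j hs =>
    hne j ((hf j).eq_of_sub hg.rank hs)
  have hr : Set.range (fun i => (Sum.inl (g i) : GI P Y J f')) = Sum.inl '' Set.range g := by
    rw [← Set.range_comp]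
    rfl
  refine ⟨fun x y hxy => hg.inj (Sum.inl_injective hxy), ?_, ?_⟩
  · rw [hr]
    exact (glued_face_inl h hns).2 hg.face
  · rw [hr, glued_rk_inl h, hg.rank]

end

end Run7.h739
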