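import Pool.Agent.Run7.h739.Basic

/-!
# Piece J1 of the project of helper739 on MP_166b83_co: from configurations to polytopes
-/

namespace Run7.h739

open Module Function Run7.h249

section

variable {ι κ V W : Type} [AddCommGroup V] [Module ℝ V] [AddCommGroup W] [Module ℝ W]
  {a : ι → V} {b : κ → W}

/-- Faces are invariant under positive rescaling, linear equivalences and reindexing. -/
lemma isFace_rescale (e : ι ≃ κ) (A : V ≃ₗ[ℝ] W) (c : ι → ℝ) (hc : ∀ i, 0 < c i)
    (h : ∀ i, b (e i) = c i • A (a i)) (S : Set ι) : IsFace b (e '' S) ↔ IsFace a S := by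
  constructor
  · rintro ⟨φ, h0, h1⟩
    refine ⟨φ ∘ₗ A.toLinearMap, fun i hi => ?_, fun i hi => ?_⟩
    · have h2 := h0 (e i) ⟨i, hi, rfl⟩
      rw [h, map_smul, smul_eq_mul] at h2
      exact (mul_eq_zero.1 h2).resolve_left (hc i).ne'
    · have h2 := h1 (e i) (by
        rintro ⟨j, hj, hji⟩
        exact hi (e.injective hji ▸ hj))
      rw [h, map_smul, smul_eq_mul] at h2
      exact pos_of_mul_pos_right h2 (hc i).le
  · rintro ⟨φ, h0, h1⟩
    have key : ∀ i, (φ ∘ₗ A.symm.toLinearMap) (b (e i)) = c i * φ (a i) := by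
      intro i
      rw [h, map_smul, smul_eq_mul]
      show c i * φ (A.symm (A (a i))) = _
      rw [A.symm_apply_apply]
    refine ⟨φ ∘ₗ A.symm.toLinearMap, ?_, fun k hk => ?_⟩
    · rintro _ ⟨i, hi, rfl⟩
      rw [key, h0 i hi, mul_zero]
    · obtain ⟨i, rfl⟩ := e.surjective k
      rw [key]
      exact mul_pos (hc i) (h1 i (fun hi => hk ⟨i, hi, rfl⟩))

/-- The order isomorphism of face posets. -/
noncomputable def fsetIso (e : ι ≃ κ) (A : V ≃ₗ[ℝ] W) (c : ι → ℝ) (hc : ∀ i, 0 < c i)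
    (h : ∀ i, b (e i) = c i • A (a i)) : FSet a ≃o FSet b :=
  Equiv.toOrderIso
    { toFun := fun S => ⟨e '' S.1, (isFace_rescale e A c hc h S.1).2 S.2⟩
      invFun := fun S => ⟨e ⁻¹' S.1, by
        rw [← isFace_rescale e A c hc h, Set.image_preimage_eq _ e.surjective]
        exact S.2⟩
      left_inv := fun S => Subtype.ext (Set.preimage_image_eq _ e.injective)
      right_inv := fun S => Subtype.ext (Set.image_preimage_eq _ e.surjective) }
    (fun _ _ h => Set.image_mono h)
    (fun _ _ h => Set.preimage_mono h)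

end

/-- Coordinates in which a given functional is the last coordinate. -/
lemma exists_coord {V : Type} [AddCommGroup V] [Module ℝ V] [FiniteDimensional ℝ V] {d : ℕ}
    (hV : finrank ℝ V = d + 1) (φ : Dual ℝ V) (hφ : φ ≠ 0) :
    ∃ L : V ≃ₗ[ℝ] (EuclideanSpace ℝ (Fin d) × ℝ), ∀ v, (L v).2 = φ v := by
  obtain ⟨u, hu⟩ : ∃ u, φ u ≠ 0 := by
    by_contra hcon
    push Not at hcon
    exact hφ (LinearMap.ext hcon)
  set v0 : V := (φ u)⁻¹ • u with hv0
  have h0 : φ v0 = 1 := by
    rw [hv0, map_smul, smul_eq_mul, inv_mul_cancel₀ hu]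
  have hsurj : Surjective φ := by
    intro t
    exact ⟨t • v0, by rw [map_smul, h0]; simp⟩
  have hk : finrank ℝ (LinearMap.ker φ) = d := by
    have h1 := LinearMap.finrank_range_add_finrank_ker φ
    rw [LinearMap.range_eq_top.2 hsurj, finrank_top, finrank_self, hV] at h1
    omega
  have hk' : finrank ℝ (LinearMap.ker φ) = finrank ℝ (EuclideanSpace ℝ (Fin d)) := by
    rw [hk, finrank_euclideanSpace_fin]
  let K : LinearMap.ker φ ≃ₗ[ℝ] EuclideanSpace ℝ (Fin d) := LinearEquiv.ofFinrankEq _ _ hk'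
  let p : V →ₗ[ℝ] LinearMap.ker φ := (LinearMap.id - φ.smulRight v0).codRestrict _ (by
    intro v
    rw [LinearMap.mem_ker]
    simp [h0])
  let L0 : V →ₗ[ℝ] (EuclideanSpace ℝ (Fin d) × ℝ) := (K.toLinearMap ∘ₗ p).prod φ
  have hinj : Injective L0 := by
    rw [← LinearMap.ker_eq_bot, LinearMap.ker_eq_bot']
    intro v hv
    have h1 : K (p v) = 0 := congrArg Prod.fst hv
    have h2 : φ v = 0 := congrArg Prod.snd hv
    have h3 : p v = 0 := (LinearEquiv.map_eq_zero_iff K).1 h1
    have h4 : v - φ v • v0 = 0 := congrArg Subtype.val h3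
    rw [h2, zero_smul, sub_zero] at h4
    exact h4
  have hfr : finrank ℝ V = finrank ℝ (EuclideanSpace ℝ (Fin d) × ℝ) := by
    rw [hV, Module.finrank_prod, finrank_euclideanSpace_fin, finrank_self]
  refine ⟨LinearEquiv.ofInjectiveOfFinrankEq L0 hinj hfr, fun v => rfl⟩

theorem exists_poly {d : ℕ} (X : Cfg d) :
    ∃ s : Finset (EuclideanSpace ℝ (Fin d)),
      (interior (convexHull ℝ (s : Set (EuclideanSpace ℝ (Fin d))))).Nonempty ∧
      Nonempty (FSet X.a ≃o EFace (convexHull ℝ (s : Set (EuclideanSpace ℝ (Fin d))))) := by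
  classical
  have := Fintype.ofFinite X.ι
  obtain ⟨φ, -, hφ⟩ := X.pt
  have hpos : ∀ i, 0 < φ (X.a i) := fun i => hφ i (by simp)
  have hne : Nonempty X.ι := by
    by_contra hcon
    rw [not_nonempty_iff] at hcon
    have h1 := X.hrk
    rw [Set.univ_eq_empty_iff.2 hcon, rk, Set.image_empty, Submodule.span_empty,
      finrank_bot] at h1
    omega
  have hφ0 : φ ≠ 0 := by
    intro h
    have := hpos hne.some
    rw [h] at this
    simp at this
  obtain ⟨L, hL⟩ := exists_coord X.hV φ hφ0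
  set p : X.ι → EuclideanSpace ℝ (Fin d) := fun i => (φ (X.a i))⁻¹ • (L (X.a i)).1 with hp
  have hhom : ∀ i, (p i, (1 : ℝ)) = (φ (X.a i))⁻¹ • L (X.a i) := by
    intro i
    apply Prod.ext
    · rfl
    · show (1 : ℝ) = (φ (X.a i))⁻¹ • (L (X.a i)).2
      rw [hL, smul_eq_mul, inv_mul_cancel₀ (hpos i).ne']
  have hinj : Injective p := by
    intro i j hij
    by_contra hne'
    have h1 := hhom i
    rw [hij, hhom j] at h1
    have h2 : L ((φ (X.a j))⁻¹ • X.a j) = L ((φ (X.a i))⁻¹ • X.a i) := by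
      rw [map_smul, map_smul, h1]
    have h3 := L.injective h2
    obtain ⟨ψ, k0, k1⟩ := X.vert i
    have h4 := congrArg ψ h3
    rw [map_smul, map_smul, k0 i rfl, smul_eq_mul, smul_zero] at h4
    have h5 := mul_pos (inv_pos.2 (hpos j)) (k1 j (fun h => hne' (Set.mem_singleton_iff.1 h).symm))
    linarith
  set s : Finset (EuclideanSpace ℝ (Fin d)) := Finset.univ.image p with hs
  let e : X.ι ≃ {v : EuclideanSpace ℝ (Fin d) // v ∈ s} := Equiv.ofBijective
    (fun i => ⟨p i, Finset.mem_image_of_mem _ (Finset.mem_univ i)⟩)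
    ⟨fun i j hij => hinj (congrArg Subtype.val hij), fun v => by
      obtain ⟨i, -, hi⟩ := Finset.mem_image.1 v.2
      exact ⟨i, Subtype.ext hi⟩⟩
  have he : ∀ i, hom s (e i) = (φ (X.a i))⁻¹ • L (X.a i) := fun i => hhom i
  have hc : ∀ i, 0 < (φ (X.a i))⁻¹ := fun i => inv_pos.2 (hpos i)
  refine ⟨s, ?_, ⟨(fsetIso e L _ hc he).trans (faceIso s).symm⟩⟩
  -- the interior
  have hspan : ∀ f : Dual ℝ (EuclideanSpace ℝ (Fin d) × ℝ), (∀ i, f (p i, 1) = 0) → f = 0 := by
    intro f hf
    have h1 : ∀ i, f (L (X.a i)) = 0 := by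
      intro i
      have h2 := hf i
      rw [hhom, map_smul, smul_eq_mul] at h2
      exact (mul_eq_zero.1 h2).resolve_left (hc i).ne'
    have htop : Submodule.span ℝ (X.a '' Set.univ) = ⊤ := by
      apply Submodule.eq_top_of_finrank_eq
      rw [X.hV]
      exact X.hrk
    have h2 : ∀ v, f (L v) = 0 := by
      intro v
      have h3 : v ∈ Submodule.span ℝ (X.a '' Set.univ) := by rw [htop]; trivial
      exact vanish_span (φ := f ∘ₗ L.toLinearMap) (fun i _ => h1 i) h3
    apply LinearMap.ext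
    intro w
    rw [← L.apply_symm_apply w, h2]
    rfl
  rw [interior_convexHull_nonempty_iff_affineSpan_eq_top]
  have hsne : ((affineSpan ℝ (s : Set (EuclideanSpace ℝ (Fin d))) :
      AffineSubspace ℝ (EuclideanSpace ℝ (Fin d))) : Set (EuclideanSpace ℝ (Fin d))).Nonempty := by
    rw [affineSpan_nonempty]
    exact ⟨p hne.some, by simp [hs]⟩
  rw [← AffineSubspace.direction_eq_top_iff_of_nonempty hsne, direction_affineSpan]
  by_contra hcon
  obtain ⟨f, hf, hker⟩ := Submodule.exists_le_ker_of_lt_top _ (lt_top_iff_ne_top.2 hcon)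
  apply hf
  set i0 := hne.some
  have h1 : ∀ i, f (p i) = f (p i0) := by
    intro i
    have h2 : p i -ᵥ p i0 ∈ vectorSpan ℝ (s : Set (EuclideanSpace ℝ (Fin d))) :=
      vsub_mem_vectorSpan ℝ (by simp [hs]) (by simp [hs])
    have h3 := hker h2
    rw [LinearMap.mem_ker, vsub_eq_sub, map_sub, sub_eq_zero] at h3
    exact h3
  have h2 := hspan (f ∘ₗ LinearMap.fst ℝ _ _ - (f (p i0)) • LinearMap.snd ℝ _ _) (by
    intro i
    simp [h1 i])
  apply LinearMap.ext
  intro u
  have h3 := LinearMap.congr_fun h2 (u, 0)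
  simpa using h3

end Run7.h739
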