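import Pool.Agent.Run7.h739.CertL

/-!
# Piece J2 of the project of helper739 on MP_166b83_co: the certificate and isometries
-/

namespace Run7.h739

open Module Function Run7.h249

section

variable {d : ℕ} (s : Finset (EuclideanSpace ℝ (Fin d)))

lemma eface_free (α : EFace (convexHull ℝ (s : Set (EuclideanSpace ℝ (Fin d)))) ≃o
      EFace (convexHull ℝ (s : Set (EuclideanSpace ℝ (Fin d)))))
    (c : Flag (EFace (convexHull ℝ (s : Set (EuclideanSpace ℝ (Fin d))))))
    (h : α • c = c) : α = 1 := by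
  have h1 := map_smul_flag (faceIso s) α c
  rw [h] at h1
  have h2 := flag_free (hom_empty s) _ _ h1.symm
  apply OrderIso.ext
  funext F
  have h3 : ((faceIso s).symm.trans (α.trans (faceIso s))) (faceIso s F) = faceIso s F := by
    rw [h2]; rfl
  have h4 : faceIso s (α ((faceIso s).symm (faceIso s F))) = faceIso s F := h3
  rw [OrderIso.symm_apply_apply] at h4
  exact (faceIso s).injective h4

theorem orbits_ne
    (α : EFace (convexHull ℝ (s : Set (EuclideanSpace ℝ (Fin d)))) ≃o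
        EFace (convexHull ℝ (s : Set (EuclideanSpace ℝ (Fin d)))))
    (hα : α ∉ geomAut (convexHull ℝ (s : Set (EuclideanSpace ℝ (Fin d))))) :
    Nat.card (MulAction.orbitRel.Quotient
      (geomAut (convexHull ℝ (s : Set (EuclideanSpace ℝ (Fin d)))))
      (Flag (EFace (convexHull ℝ (s : Set (EuclideanSpace ℝ (Fin d))))))) ≠
    Nat.card (Orb (EFace (convexHull ℝ (s : Set (EuclideanSpace ℝ (Fin d)))))) := by
  classical
  set P := convexHull ℝ (s : Set (EuclideanSpace ℝ (Fin d))) with hP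
  have f1 : Finite (EFace P) := Finite.of_equiv _ (faceIso s).symm.toEquiv
  have f2 : Finite (EFace P ≃o EFace P) :=
    Finite.of_injective (fun α : EFace P ≃o EFace P => (α : EFace P → EFace P))
      (fun α β h => OrderIso.ext (by simpa using h))
  have f3 : Finite (Flag (EFace P)) := Finite.of_injective _ SetLike.coe_injective
  intro heq
  have h1 := card_free (G := EFace P ≃o EFace P) (β := Flag (EFace P)) (eface_free s)
  have h2 := card_free (G := geomAut P) (β := Flag (EFace P))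
    (fun g x hx => Subtype.ext (eface_free s g.1 x hx))
  rw [heq] at h2
  have hne : Nonempty (Flag (EFace P)) := by
    obtain ⟨x⟩ := exists_fl (hom_empty s)
    exact ⟨Flag.map (faceIso s).symm (Fl.toFlag x)⟩
  have hpos : 0 < Nat.card (Orb (EFace P)) := by
    have : Nonempty (Orb (EFace P)) := ⟨Quotient.mk _ hne.some⟩
    exact Nat.card_pos
  have h3 : Nat.card (geomAut P) = Nat.card (EFace P ≃o EFace P) := by
    have h4 : Nat.card (Orb (EFace P)) * Nat.card (geomAut P)
        = Nat.card (Orb (EFace P)) * Nat.card (EFace P ≃o EFace P) := by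
      rw [h2]; exact h1.symm
    exact Nat.eq_of_mul_eq_mul_left hpos h4
  apply hα
  rw [Subgroup.eq_top_of_card_eq _ h3]
  trivial

end

lemma face_inv {ι V : Type} [Finite ι] [AddCommGroup V] [Module ℝ V] {a : ι → V}
    (T : Equiv.Perm ι) (hT : ∀ S, IsFace a S → IsFace a (T '' S)) (S : Set ι) (hS : IsFace a S) :
    IsFace a (⇑T⁻¹ '' S) := by
  have h1 : ∀ n : ℕ, IsFace a (⇑(T ^ n) '' S) := by
    intro n
    induction n with
    | zero => simpa using hS
    | succ n ih =>
      have h2 := hT _ ih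
      rw [← Set.image_comp] at h2
      rw [pow_succ']
      exact h2
  have h2 : T⁻¹ = T ^ (orderOf T - 1) := by
    symm
    apply eq_inv_of_mul_eq_one_left
    rw [← pow_succ, Nat.sub_add_cancel (orderOf_pos T), pow_orderOf_eq_one]
  rw [h2]
  exact h1 _

/-- The order automorphism of the faces which is induced by a permutation. -/
def tauIso {ι V : Type} [Finite ι] [AddCommGroup V] [Module ℝ V] {a : ι → V}
    (T : Equiv.Perm ι) (hT : ∀ S, IsFace a S → IsFace a (T '' S)) : FSet a ≃o FSet a :=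
  Equiv.toOrderIso
    { toFun := fun S => ⟨T '' S.1, hT _ S.2⟩
      invFun := fun S => ⟨⇑T⁻¹ '' S.1, face_inv T hT _ S.2⟩
      left_inv := fun S => Subtype.ext (by
        show ⇑T⁻¹ '' (T '' S.1) = S.1
        rw [← Set.image_comp, ← Equiv.Perm.coe_mul, inv_mul_cancel]
        simp)
      right_inv := fun S => Subtype.ext (by
        show T '' (⇑T⁻¹ '' S.1) = S.1
        rw [← Set.image_comp, ← Equiv.Perm.coe_mul, mul_inv_cancel]
        simp) }
    (fun _ _ h => Set.image_mono h)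
    (fun _ _ h => Set.image_mono h)

/-- A minimal nonempty face of the homogenisation is one point. -/
lemma point_face {d : ℕ} (s : Finset (EuclideanSpace ℝ (Fin d)))
    {S : Set {v : EuclideanSpace ℝ (Fin d) // v ∈ s}} (hS : IsFace (hom s) S) (hne : S.Nonempty)
    (hmin : ∀ S', IsFace (hom s) S' → S' ⊆ S → S'.Nonempty → S' = S) : ∃ v, S = {v} := by
  have h0 : 0 < rk (hom s) S := by
    obtain ⟨v, hv⟩ := hne
    have := rk_lt (hom_empty s) (Set.empty_subset S) hv (by simp)
    omega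
  obtain ⟨G, g1, g2, g3, g4⟩ := cover (hom_empty s) hS (Set.empty_subset _)
    (by rw [rk_empty]; exact h0)
  rw [rk_empty, zero_add] at g4
  have hGne : G.Nonempty := by
    by_contra hcon
    rw [Set.not_nonempty_iff_eq_empty] at hcon
    rw [hcon, rk_empty] at g4
    omega
  rw [hmin G g1 g3 hGne] at g4
  obtain ⟨v, hv⟩ := hne
  refine ⟨v, Set.Subset.antisymm ?_ (Set.singleton_subset_iff.2 hv)⟩
  intro w hw
  obtain ⟨α, -, h2⟩ := ray (hom_empty s) (Set.empty_subset S) (by rw [rk_empty, zero_add]; exact g4)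
    hv (by simp) hw (by simp)
  have h3 := h2 (LinearMap.snd ℝ _ ℝ) (by simp)
  have h4 : α = 1 := by
    have h5 : (1 : ℝ) = α * 1 := h3
    linarith
  have h6 : hom s w = hom s v := by
    rw [← sub_eq_zero, ← Module.forall_dual_apply_eq_zero_iff ℝ]
    intro χ
    rw [map_sub, h2 χ (by simp), h4, one_mul, sub_self]
  have h7 : w.1 = v.1 := congrArg Prod.fst h6
  exact Set.mem_singleton_iff.2 (Subtype.ext h7)

theorem cert_geom {d : ℕ} (_hd : 2 ≤ d) (X : Cfg d) (T : Equiv.Perm X.ι)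
    (hT : ∀ S, IsFace X.a S → IsFace X.a (T '' S)) (hc : Cert X.a d T (fun _ => True))
    (s : Finset (EuclideanSpace ℝ (Fin d)))
    (_hs : (interior (convexHull ℝ (s : Set (EuclideanSpace ℝ (Fin d))))).Nonempty)
    (e : FSet X.a ≃o EFace (convexHull ℝ (s : Set (EuclideanSpace ℝ (Fin d))))) :
    ∃ α : EFace (convexHull ℝ (s : Set (EuclideanSpace ℝ (Fin d)))) ≃o
        EFace (convexHull ℝ (s : Set (EuclideanSpace ℝ (Fin d)))),
      α ∉ geomAut (convexHull ℝ (s : Set (EuclideanSpace ℝ (Fin d)))) := by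
  classical
  refine ⟨e.symm.trans ((tauIso T hT).trans e), ?_⟩
  rintro ⟨g, hg⟩
  -- the vertices
  have hpt : ∀ i, ∃ p : EuclideanSpace ℝ (Fin d), p ∈ s ∧
      ((e ⟨{i}, X.vert i⟩ : EFace _) : Set (EuclideanSpace ℝ (Fin d))) = {p} := by
    intro i
    set F := e ⟨{i}, X.vert i⟩ with hF
    set E' : FSet X.a ≃o FSet (hom s) := e.trans (faceIso s) with hE'
    have hE : (E' ⟨{i}, X.vert i⟩).1 = {v | v.1 ∈ F.1} := rfl
    obtain ⟨v, hv⟩ := point_face s (S := {v | v.1 ∈ F.1}) (face_of_exposed s F.2).1 (by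
      rw [← hE]
      by_contra hcon
      rw [Set.not_nonempty_iff_eq_empty] at hcon
      have h1 : E' ⟨{i}, X.vert i⟩ ≤ E' ⟨∅, X.pt⟩ := by
        show (E' ⟨{i}, X.vert i⟩).1 ⊆ _
        rw [hcon]
        exact Set.empty_subset _
      have h2 : ({i} : Set X.ι) ⊆ ∅ := E'.le_iff_le.1 h1
      exact h2 rfl) (by
      intro S' hS' hsub hne
      have h1 : (⟨S', hS'⟩ : FSet (hom s)) ≤ E' ⟨{i}, X.vert i⟩ := by
        show S' ⊆ _
        rw [hE]
        exact hsub
      have h2 : E'.symm ⟨S', hS'⟩ ≤ ⟨{i}, X.vert i⟩ := (E'.symm_apply_le).2 h1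
      have h3 : (E'.symm ⟨S', hS'⟩).1 ⊆ {i} := h2
      rcases Set.subset_singleton_iff_eq.1 h3 with h4 | h4
      · exfalso
        have h5 : E'.symm ⟨S', hS'⟩ ≤ E'.symm ⟨∅, hom_empty s⟩ := by
          show (E'.symm ⟨S', hS'⟩).1 ⊆ _
          rw [h4]
          exact Set.empty_subset _
        have h6 : S' ⊆ ∅ := E'.symm.le_iff_le.1 h5
        obtain ⟨w, hw⟩ := hne
        exact h6 hw
      · have h5 : E'.symm ⟨S', hS'⟩ = ⟨{i}, X.vert i⟩ := Subtype.ext h4
        have h6 : (⟨S', hS'⟩ : FSet (hom s)) = E' ⟨{i}, X.vert i⟩ := by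
          rw [← h5, E'.apply_symm_apply]
        have h7 := congrArg Subtype.val h6
        rw [hE] at h7
        exact h7)
    refine ⟨v.1, v.2, ?_⟩
    have h1 := (face_of_exposed s F.2).2
    rw [hv, Set.image_singleton, convexHull_singleton] at h1
    exact h1.symm
  choose p hps hp using hpt
  have hle : ∀ (i : X.ι) (S : FSet X.a), i ∈ S.1 ↔
      p i ∈ ((e S : EFace _) : Set (EuclideanSpace ℝ (Fin d))) := by
    intro i S
    have h1 : (⟨{i}, X.vert i⟩ : FSet X.a) ≤ S ↔ i ∈ S.1 := Set.singleton_subset_iff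
    rw [← h1, ← e.le_iff_le]
    show ((e ⟨{i}, X.vert i⟩ : EFace _) : Set (EuclideanSpace ℝ (Fin d))) ⊆ _ ↔ _
    rw [hp, Set.singleton_subset_iff]
  refine cert_false hc (V' := EuclideanSpace ℝ (Fin d) × ℝ) (fun i => (p i, (1 : ℝ))) ?_ ?_
    (((g.toRealAffineIsometryEquiv.linearIsometryEquiv.toLinearEquiv :
        EuclideanSpace ℝ (Fin d) →ₗ[ℝ] EuclideanSpace ℝ (Fin d)) ∘ₗ LinearMap.fst ℝ _ ℝ
      + (LinearMap.snd ℝ (EuclideanSpace ℝ (Fin d)) ℝ).smulRight (g 0)).prod
        (LinearMap.snd ℝ _ ℝ)) ?_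
  · rw [Module.finrank_prod, finrank_euclideanSpace_fin, finrank_self]
  · intro S hS
    obtain ⟨φ, h0, h1⟩ := (face_of_exposed s (e ⟨S, hS⟩).2).1
    refine ⟨φ, fun i hi => ?_, fun i hi => ?_⟩
    · exact h0 ⟨p i, hps i⟩ ((hle i ⟨S, hS⟩).1 hi)
    · exact h1 ⟨p i, hps i⟩ (fun h => hi ((hle i ⟨S, hS⟩).2 h))
  · intro i
    have h1 := hg (e ⟨{i}, X.vert i⟩)
    have h2 : (e.symm.trans ((tauIso T hT).trans e)) (e ⟨{i}, X.vert i⟩)
        = e ⟨{T i}, X.vert (T i)⟩ := by
      show e (tauIso T hT (e.symm (e ⟨{i}, X.vert i⟩))) = _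
      rw [e.symm_apply_apply]
      congr 1
      apply Subtype.ext
      show T '' {i} = {T i}
      rw [Set.image_singleton]
    rw [h2, hp, hp, Set.image_singleton, Set.singleton_eq_singleton_iff] at h1
    apply Prod.ext
    · show g.toRealAffineIsometryEquiv.linearIsometryEquiv (p i) + (1 : ℝ) • g 0 = p (T i)
      rw [h1, one_smul]
      have h3 := g.toRealAffineIsometryEquiv.map_vadd 0 (p i)
      simp only [vadd_eq_add, add_zero] at h3
      have h4 : ∀ x, g.toRealAffineIsometryEquiv x = g x := fun x => by simp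
      rw [h4, h4] at h3
      exact h3.symm
    · rfl

end Run7.h739
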