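import Pool.Agent.Run7.h739.Tri
import Pool.Agent.Run7.h739.Real1
import Pool.Agent.Run7.h739.Real2

/-!
The main theorem, from the explicit configurations.
-/

namespace Run7.h739

open Module Function Run7.h249

/-- `P` is a convex `d`-polytope. -/
def IsPoly {d : ℕ} (P : Set (EuclideanSpace ℝ (Fin d))) : Prop :=
  (∃ s : Finset (EuclideanSpace ℝ (Fin d)),
      P = convexHull ℝ (s : Set (EuclideanSpace ℝ (Fin d)))) ∧ (interior P).Nonempty

/-- Property (R). -/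
def PropR (k d : ℕ) : Prop :=
  ∀ P : Set (EuclideanSpace ℝ (Fin d)), IsPoly P → Nat.card (Orb (EFace P)) = k →
    ∃ Q : Set (EuclideanSpace ℝ (Fin d)), IsPoly Q ∧ Nonempty (EFace P ≃o EFace Q) ∧
      Nat.card (MulAction.orbitRel.Quotient (geomAut Q) (Flag (EFace Q))) = k

theorem not_R_of_bad {d k : ℕ} (hd : 2 ≤ d) (h : Bad d k) : ¬ PropR k d := by
  obtain ⟨X, T, hT, hc, hk⟩ := h
  obtain ⟨s, hs, ⟨e⟩⟩ := exists_poly X
  intro hR
  obtain ⟨Q, ⟨⟨s', rfl⟩, hs'⟩, ⟨e'⟩, hQ⟩ := hR _ ⟨⟨s, rfl⟩, hs⟩ ((card_orb_congr e).symm.trans hk)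
  obtain ⟨α, hα⟩ := cert_geom hd X T hT hc s' hs' (e.trans e')
  apply orbits_ne s' α hα
  rw [hQ, ← hk]
  exact card_orb_congr (e.trans e')

theorem main_of (hC : CoreS) (hB : BlockS) (h3 : Core3S) (d : ℕ) (hd : 4 ≤ d) :
    ∃ K, ∀ k, K ≤ k → ¬ PropR k d := by
  obtain ⟨e, rfl⟩ : ∃ e, d = e + 1 := ⟨d - 1, by omega⟩
  obtain ⟨K, hK⟩ := bad_all (e := e) (by omega) (KK_all (base_dat hC hB) (e + 1) hd)
    (RR_all (RR_three h3) e (by omega))
  exact ⟨K, fun k hk => not_R_of_bad (by omega) (hK k hk)⟩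

end Run7.h739
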