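import Pool.Agent.Run7.h739.Main
import Pool.Agent.Run7.h739.ExplMain

/-!
The theorem without hypotheses: the explicit configurations of `ExplMain` are put into `main_of`.
-/

namespace Run7.h739

theorem coreS : CoreS := cores

theorem blockS : BlockS := bprime

theorem core3S : Core3S := core3

theorem main_all (d : ℕ) (hd : 4 ≤ d) : ∃ K, ∀ k, K ≤ k → ¬ PropR k d :=
  main_of coreS blockS core3S d hd

end Run7.h739
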