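import Pool.Agent.Run7.h739.Basic

/-!
Pyramids.
-/

namespace Run7.h739

open Module Function Run7.h249

section

variable {ι V : Type} [AddCommGroup V] [Module ℝ V]

/-- The pyramid over a configuration. -/
def pyrA (a : ι → V) : Option ι → V × ℝ
  | none => (0, 1)
  | some i => (a i, 0)

variable {a : ι → V}

lemma pyr_face (T : Set (Option ι)) : IsFace (pyrA a) T ↔ IsFace a (some ⁻¹' T) := by
  classical
  constructor
  · rintro ⟨φ, h0, h1⟩
    exact ⟨φ ∘ₗ LinearMap.inl ℝ V ℝ, fun i hi => h0 (some i) hi, fun i hi => h1 (some i) hi⟩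
  · rintro ⟨φ, h0, h1⟩
    refine ⟨φ ∘ₗ LinearMap.fst ℝ V ℝ + (if none ∈ T then (0 : ℝ) else 1) • LinearMap.snd ℝ V ℝ,
      ?_, ?_⟩
    · rintro (_ | i) hi
      · show φ 0 + (if none ∈ T then (0 : ℝ) else 1) * 1 = 0
        rw [if_pos hi, map_zero]
        norm_num
      · show φ (a i) + (if none ∈ T then (0 : ℝ) else 1) * 0 = 0
        rw [h0 i hi]
        ring
    · rintro (_ | i) hi
      · show 0 < φ 0 + (if none ∈ T then (0 : ℝ) else 1) * 1
        rw [if_neg hi, map_zero]
        norm_num
      · show 0 < φ (a i) + (if none ∈ T then (0 : ℝ) else 1) * 0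
        have := h1 i hi
        linarith

lemma pre_some (S : Set ι) : some ⁻¹' (some '' S) = S :=
  Set.preimage_image_eq _ (Option.some_injective ι)

lemma pre_none (S : Set ι) : some ⁻¹' (insert none (some '' S)) = S := by
  ext i
  simp

lemma opt_cases (T : Set (Option ι)) :
    T = some '' (some ⁻¹' T) ∨ T = insert none (some '' (some ⁻¹' T)) := by
  by_cases h : none ∈ T
  · right
    ext x
    cases x with
    | none => simp [h]
    | some i => simp
  · left
    ext x
    cases x with
    | none => simp [h]
    | some i => simp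

lemma pyr_face_some (S : Set ι) : IsFace (pyrA a) (some '' S) ↔ IsFace a S := by
  rw [pyr_face, pre_some]

lemma pyr_face_none (S : Set ι) : IsFace (pyrA a) (insert none (some '' S)) ↔ IsFace a S := by
  rw [pyr_face, pre_none]

lemma pyr_rk_some (S : Set ι) : rk (pyrA a) (some '' S) = rk a S := by
  rw [← rk_comp (pyrA a) some S]
  exact rk_lin_inj (LinearMap.inl ℝ V ℝ) LinearMap.inl_injective S

variable [FiniteDimensional ℝ V]

lemma pyr_rk_none (S : Set ι) : rk (pyrA a) (insert none (some '' S)) = rk a S + 1 := by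
  rw [← pyr_rk_some (a := a) S]
  apply le_antisymm rk_insert_le
  apply rk_insert_gt (φ := LinearMap.snd ℝ V ℝ)
  · rintro _ ⟨i, -, rfl⟩
    rfl
  · show (1 : ℝ) ≠ 0
    exact one_ne_zero

variable [Finite ι]

omit [FiniteDimensional ℝ V] [Finite ι] in
lemma pyr_fc_some (r : ℕ) (T : Set ι) : fc (pyrA a) r (some '' T) = fc a r T :=
  fc_transfer (Option.some_injective ι) r T (fun S _ => pyr_face_some S) (fun S _ => pyr_rk_some S)

lemma pyr_fc_none : ∀ (r : ℕ) (T : Set ι), IsFace a T → rk a T = r →
    fc (pyrA a) (r + 1) (insert none (some '' T)) = (r + 1) * fc a r T := by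
  have step : ∀ (r : ℕ) (T : Set ι), IsFace a T → rk a T = r →
      fc (pyrA a) (r + 1) (insert none (some '' T)) = fc a r T +
        ∑ᶠ S ∈ {S : Set ι | IsFace a S ∧ rk a S + 1 = r ∧ S ⊆ T},
          fc (pyrA a) r (insert none (some '' S)) := by
    intro r T hT hr
    have hset : {S' : Set (Option ι) | IsFace (pyrA a) S' ∧ rk (pyrA a) S' = r ∧
        S' ⊆ insert none (some '' T)} = insert (some '' T)
        ((fun S : Set ι => (insert none (some '' S) : Set (Option ι))) ''
          {S : Set ι | IsFace a S ∧ rk a S + 1 = r ∧ S ⊆ T}) := by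
      ext S'
      constructor
      · rintro ⟨h1, h2, h3⟩
        have h3' : some ⁻¹' S' ⊆ T := by
          intro i hi
          have := h3 hi
          simpa using this
        rcases opt_cases S' with h | h
        · left
          rw [h] at h1 h2
          rw [pyr_face_some] at h1
          rw [pyr_rk_some] at h2
          rw [h, eq_of_rk h1 h3' (by rw [h2, hr])]
        · right
          rw [h] at h1 h2
          rw [pyr_face_none] at h1
          rw [pyr_rk_none] at h2
          exact ⟨_, ⟨h1, h2, h3'⟩, h.symm⟩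
      · rintro (h | ⟨S, ⟨h1, h2, h3⟩, rfl⟩)
        · subst h
          exact ⟨(pyr_face_some T).2 hT, by rw [pyr_rk_some, hr], Set.subset_insert _ _⟩
        · exact ⟨(pyr_face_none S).2 h1, by rw [pyr_rk_none, h2],
            Set.insert_subset_insert (Set.image_mono h3)⟩
    rw [fc_succ, hset, finsum_mem_insert _ _ (Set.toFinite _), pyr_fc_some, finsum_mem_image]
    · intro S _ S' _ h
      have h' : (insert none (some '' S) : Set (Option ι)) = insert none (some '' S') := h
      rw [← pre_none S, ← pre_none S', h']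
    · rintro ⟨S, -, h⟩
      have h' : (insert none (some '' S) : Set (Option ι)) = some '' T := h
      have : (none : Option ι) ∈ some '' T := by rw [← h']; exact Set.mem_insert _ _
      obtain ⟨i, -, hi⟩ := this
      exact Option.some_ne_none i hi
  intro r
  induction r with
  | zero =>
    intro T hT hr
    rw [step 0 T hT hr]
    have : {S : Set ι | IsFace a S ∧ rk a S + 1 = 0 ∧ S ⊆ T} = ∅ := by
      ext S
      simp
    rw [this, finsum_mem_empty]
    ring
  | succ r ih =>
    intro T hT hr
    rw [step (r + 1) T hT hr]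
    have e : ∑ᶠ S ∈ {S : Set ι | IsFace a S ∧ rk a S + 1 = r + 1 ∧ S ⊆ T},
          fc (pyrA a) (r + 1) (insert none (some '' S))
        = ∑ᶠ S ∈ {S : Set ι | IsFace a S ∧ rk a S = r ∧ S ⊆ T}, (r + 1) * fc a r S := by
      apply finsum_mem_congr
      · ext S
        simp
      · rintro S ⟨h1, h2, -⟩
        exact ih S h1 (by omega)
    rw [e, ← mul_finsum_mem, ← fc_succ]
    ring

end

/-- The pyramid. -/
def pyrC {d : ℕ} (P : Cfg d) : Cfg (d + 1) where
  ι := Option P.ι
  V := P.V × ℝ
  a := pyrA P.a
  hV := by rw [finrank_prod, P.hV, finrank_self]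
  hrk := by
    have : (Set.univ : Set (Option P.ι)) = insert none (some '' Set.univ) := by
      ext x
      cases x <;> simp
    rw [this, pyr_rk_none, P.hrk]
  pt := by
    rw [pyr_face, Set.preimage_empty]
    exact P.pt
  vert := by
    rintro (_ | i)
    · rw [pyr_face]
      have : some ⁻¹' ({none} : Set (Option P.ι)) = ∅ := by
        ext i
        simp
      rw [this]
      exact P.pt
    · rw [pyr_face]
      have : some ⁻¹' ({some i} : Set (Option P.ι)) = {i} := by
        ext k
        simp
      rw [this]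
      exact P.vert i

lemma pyr_cnt {d : ℕ} (P : Cfg d) :
    fc (pyrC P).a (d + 1 + 1) Set.univ = (d + 2) * fc P.a (d + 1) Set.univ := by
  have : (Set.univ : Set (Option P.ι)) = insert none (some '' Set.univ) := by
    ext x
    cases x <;> simp
  show fc (pyrA P.a) (d + 1 + 1) (Set.univ : Set (Option P.ι)) = _
  rw [this, pyr_fc_none (d + 1) Set.univ IsFace.univ P.hrk]

/-- The pyramid over a simplex facet. -/
lemma pyr_SF {ι V : Type} [AddCommGroup V] [Module ℝ V] [Finite ι] [FiniteDimensional ℝ V]
    {a : ι → V} {d : ℕ} {f : Fin d → ι} (hf : SF a f) :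
    SF (pyrA a) (Fin.cons none (fun i => some (f i)) : Fin (d + 1) → Option ι) := by
  apply SF.of_hered
  · rw [Fin.cons_injective_iff]
    refine ⟨?_, ?_⟩
    · rintro ⟨i, hi⟩
      exact Option.some_ne_none _ hi
    · intro i j h
      exact hf.inj (Option.some_injective _ h)
  · intro S hS
    rw [pyr_face]
    apply hf.hered
    intro i hi
    obtain ⟨k, hk⟩ := hS hi
    refine Fin.cases (fun hk => ?_) (fun k hk => ?_) k hk
    · rw [Fin.cons_zero] at hk
      exact absurd hk.symm (Option.some_ne_none _)
    · rw [Fin.cons_succ] at hk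
      exact ⟨k, Option.some_injective _ hk⟩

lemma range_cons {ι : Type} {d : ℕ} (f : Fin d → ι) :
    Set.range (Fin.cons none (fun i => some (f i)) : Fin (d + 1) → Option ι)
      = insert none (some '' Set.range f) := by
  rw [Fin.range_cons, ← Set.range_comp]
  rfl

end Run7.h739
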