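import Pool.Agent.Run7.h739.BlkOps

/-!
Rigid blocks.
-/

namespace Run7.h739

open Module Function Run7.h249

lemma Rig.of_iso {X Z : Type} [PartialOrder X] [PartialOrder Z] (e : X ≃o Z) (h : Rig X) :
    Rig Z := by
  intro α z
  have h1 := h (e.trans (α.trans e.symm)) (e.symm z)
  have h2 : e.symm (α (e (e.symm z))) = e.symm z := h1
  rw [OrderIso.apply_symm_apply] at h2
  exact e.symm.injective h2

section low

variable {ι V : Type} [AddCommGroup V] [Module ℝ V] {a : ι → V}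
variable {κ W : Type} [AddCommGroup W] [Module ℝ W] {b : κ → W}

/-- Transfer of the faces below a face along an injection. -/
def lowIso {j : κ → ι} (hj : Injective j) (B : Set κ)
    (h : ∀ S ⊆ B, (IsFace a (j '' S) ↔ IsFace b S)) : Low b B ≃o Low a (j '' B) where
  toFun S := ⟨j '' S.1, (h S.1 S.2.2).2 S.2.1, Set.image_mono S.2.2⟩
  invFun T := ⟨j ⁻¹' T.1, by
    obtain ⟨S, hS, hST⟩ := Set.subset_image_iff.1 T.2.2
    have h1 : IsFace a (j '' S) := by
      rw [hST]
      exact T.2.1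
    have h2 : j ⁻¹' T.1 = S := by rw [← hST, Set.preimage_image_eq _ hj]
    rw [h2]
    exact ⟨(h S hS).1 h1, hS⟩⟩
  left_inv S := Subtype.ext (Set.preimage_image_eq _ hj)
  right_inv T := by
    apply Subtype.ext
    show j '' (j ⁻¹' T.1) = T.1
    obtain ⟨S, -, hST⟩ := Set.subset_image_iff.1 T.2.2
    rw [← hST, Set.preimage_image_eq _ hj]
  map_rel_iff' := by
    intro S T
    show j '' S.1 ⊆ j '' T.1 ↔ S.1 ⊆ T.1
    exact Set.image_subset_image_iff hj

/-- Restriction of an automorphism fixing `B`. -/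
def lowRes {B : Set ι} (hB : IsFace a B) (α : FSet a ≃o FSet a) (h : α ⟨B, hB⟩ = ⟨B, hB⟩) :
    Low a B ≃o Low a B where
  toFun S := ⟨(α ⟨S.1, S.2.1⟩).1, (α ⟨S.1, S.2.1⟩).2, by
    have h1 : α ⟨S.1, S.2.1⟩ ≤ α ⟨B, hB⟩ := α.monotone (show (⟨S.1, S.2.1⟩ : FSet a) ≤ ⟨B, hB⟩
      from S.2.2)
    rw [h] at h1
    exact h1⟩
  invFun S := ⟨(α.symm ⟨S.1, S.2.1⟩).1, (α.symm ⟨S.1, S.2.1⟩).2, by
    have h1 : α.symm ⟨S.1, S.2.1⟩ ≤ α.symm ⟨B, hB⟩ := α.symm.monotone
      (show (⟨S.1, S.2.1⟩ : FSet a) ≤ ⟨B, hB⟩ from S.2.2)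
    have h2 : α.symm ⟨B, hB⟩ = ⟨B, hB⟩ := by rw [← h, OrderIso.symm_apply_apply, h]
    rw [h2] at h1
    exact h1⟩
  left_inv S := by
    apply Subtype.ext
    show (α.symm (α ⟨S.1, S.2.1⟩)).1 = S.1
    rw [OrderIso.symm_apply_apply]
  right_inv S := by
    apply Subtype.ext
    show (α (α.symm ⟨S.1, S.2.1⟩)).1 = S.1
    rw [OrderIso.apply_symm_apply]
  map_rel_iff' := by
    intro S T
    show α ⟨S.1, S.2.1⟩ ≤ α ⟨T.1, T.2.1⟩ ↔ S.1 ⊆ T.1
    rw [OrderIso.le_iff_le]
    rfl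

variable [Finite ι] [FiniteDimensional ℝ V]

omit [Finite ι] [FiniteDimensional ℝ V] in
lemma map_univ (α : FSet a ≃o FSet a) :
    α ⟨Set.univ, IsFace.univ⟩ = ⟨Set.univ, IsFace.univ⟩ := by
  apply Subtype.ext
  apply Set.eq_univ_of_univ_subset
  have h1 : α (α.symm ⟨Set.univ, IsFace.univ⟩) ≤ α ⟨Set.univ, IsFace.univ⟩ :=
    α.monotone (show (α.symm ⟨Set.univ, IsFace.univ⟩).1 ⊆ Set.univ from Set.subset_univ _)
  rw [OrderIso.apply_symm_apply] at h1
  exact h1

/-- An automorphism fixing a rigid facet is trivial. -/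
lemma eq_one_of_facet (hE : IsFace a ∅) {B : Set ι} (hB : IsFace a B)
    (hr : rk a Set.univ = rk a B + 1) (hrig : Rig (Low a B)) (α : FSet a ≃o FSet a)
    (h : α ⟨B, hB⟩ = ⟨B, hB⟩) (S : FSet a) : α S = S := by
  obtain ⟨x, hx⟩ := exists_fl_through hE ⟨B, hB⟩
  have hx' : x.f (rk a B) = B := hx
  apply eq_one_of_fix hE α x
  intro r hrr
  by_cases h1 : r ≤ rk a B
  · have h2 : x.f r ⊆ B := by
      rw [← hx']
      exact x.mono' h1
    have h3 := hrig (lowRes hB α h) ⟨x.f r, x.isFace r, h2⟩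
    have h4 : (lowRes hB α h ⟨x.f r, x.isFace r, h2⟩).1 = x.f r := congrArg Subtype.val h3
    exact Subtype.ext h4
  · have h2 : r = rk a Set.univ := by omega
    have h3 : (⟨x.f r, x.isFace r⟩ : FSet a) = ⟨Set.univ, IsFace.univ⟩ := by
      apply Subtype.ext
      show x.f r = Set.univ
      rw [h2]
      exact x.top _ le_rfl
    rw [h3]
    exact map_univ α

end low

/-- A `d`-polytope with trivial automorphism group all of whose facets are small. -/
structure Rg (d N : ℕ) extends Blk d N where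
  rig : Rig (FSet Y.a)
  small : ∀ S, IsFace Y.a S → rk Y.a S = d → (d + 1) * fc Y.a d S < N

lemma Rg.lt {d N : ℕ} (R : Rg d N) : (d + 1).factorial < N := by
  have h := R.small _ R.hf.face R.hf.rank
  rwa [R.hf.fc, ← Nat.factorial_succ] at h

/-- The pyramid over a rigid polytope. -/
theorem pyrRB {d N : ℕ} (R : Rg d N) : Nonempty (RB (d + 1) N ((d + 2) * N)) := by
  have hpre : some ⁻¹' (some '' (Set.univ : Set R.Y.ι)) = Set.univ := pre_some _
  refine ⟨{ pyrBlk R.toBlk with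
    B := (some '' Set.univ : Set (Option R.Y.ι))
    hB := (pyr_face_some Set.univ).2 IsFace.univ
    rB := (pyr_rk_some (a := R.Y.a) Set.univ).trans R.Y.hrk
    fB := (pyr_fc_some (a := R.Y.a) (d + 1) Set.univ).trans R.cnt
    small := ?_
    rig := ?_ }⟩
  · intro S (hS : IsFace (pyrA R.Y.a) S) (hr : rk (pyrA R.Y.a) S = d + 1) hne
    show fc (pyrA R.Y.a) (d + 1) S < N
    rcases opt_cases S with h | h
    · exfalso
      apply hne
      rw [h] at hS hr
      rw [pyr_face_some] at hS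
      rw [pyr_rk_some] at hr
      have h1 := eq_of_rk hS (Set.subset_univ _) (by rw [hr, R.Y.hrk])
      rw [h, h1]
    · rw [h] at hS hr ⊢
      rw [pyr_face_none] at hS
      rw [pyr_rk_none] at hr
      rw [pyr_fc_none d _ hS (by omega)]
      exact R.small _ hS (by omega)
  · have h1 : Low (a := R.Y.a) (Set.univ : Set R.Y.ι) ≃o Low (pyrA R.Y.a) (some '' Set.univ) :=
      lowIso (Option.some_injective _) Set.univ (fun S _ => pyr_face_some S)
    have h2 : FSet R.Y.a ≃o Low R.Y.a (Set.univ : Set R.Y.ι) :=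
      { toFun := fun S => ⟨S.1, S.2, Set.subset_univ _⟩
        invFun := fun S => ⟨S.1, S.2.1⟩
        left_inv := fun _ => rfl
        right_inv := fun _ => rfl
        map_rel_iff' := Iff.rfl }
    exact (R.rig.of_iso h2).of_iso h1

/-- A facet of a simplex has `d!` flags. -/
lemma sim_small {d : ℕ} (hd : 1 ≤ d) (S : Set (Fin (d + 1))) (hr : rk (simA d) S = d) :
    fc (simA d) d S = d.factorial := by
  apply fc_hered _ _ _ (fun T _ => sim_face d T)
  exact (rk_hered (Set.toFinite _) (fun T _ => sim_face d T)).symm.trans hr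

/-- Stacking on a rigid block. -/
theorem stackRB {d n N N' : ℕ} (hd : 2 ≤ d) (hn : d.factorial < n) (R : RB d n N)
    (hN : N' + 2 * d.factorial = N + (d + 1).factorial) : Nonempty (RB d n N') := by
  have hne : ∀ j j' : Unit, Set.range (fun i => R.g i) = Set.range (fun i => R.g i) →
      j = j' := fun j j' _ => rfl
  set B2 := simBlk d (by omega) with hB2
  obtain ⟨a', h⟩ := exists_glued R.Y B2.Y Unit (fun _ => R.g) B2.f (fun _ => R.hg) hne B2.hf
  have hBne : ∀ j : Unit, ¬ Set.range R.g ⊆ R.B := by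
    intro _ hs
    have h1 := R.hg.eq_of_sub R.rB hs
    have h2 := R.hg.fc
    rw [h1, R.fB] at h2
    omega
  have hcnt : fc a' (d + 1) Set.univ = N' := by
    have h1 := glued_cnt h (fun _ => R.hg) hne B2.hf
    rw [R.cnt, B2.cnt, Nat.card_unique, one_mul, one_mul] at h1
    omega
  refine ⟨{
    Y := gluedC hd h (fun _ => R.hg) B2.hf
    f := fun i => Sum.inl (R.f i)
    g := fun i => emb R.Y B2.Y Unit (fun _ => R.g) B2.f () (B2.g i)
    hf := glued_SF_inl h (fun _ => R.hg) R.hf (fun _ => R.ne.symm)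
    hg := glued_SF_emb h (fun _ => R.hg) B2.hf () B2.hg B2.ne
    ne := ?_
    cnt := hcnt
    B := (Sum.inl '' R.B : Set (GI R.Y B2.Y Unit B2.f))
    hB := (glued_face_inl h hBne).2 R.hB
    rB := (glued_rk_inl h R.B).trans R.rB
    fB := (glued_fc_inl h d hBne).trans R.fB
    small := ?_
    rig := ?_ }⟩
  · intro he
    have e1 : Set.range (fun i => (Sum.inl (R.f i) : GI R.Y B2.Y Unit B2.f)) =
        Sum.inl '' Set.range R.f := by
      rw [← Set.range_comp]
      rfl
    have e2 : Set.range (fun i => emb R.Y B2.Y Unit (fun _ => R.g) B2.f () (B2.g i)) =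
        emb R.Y B2.Y Unit (fun _ => R.g) B2.f () '' Set.range B2.g := by
      rw [← Set.range_comp]
      rfl
    have he' : Set.range (fun i => (Sum.inl (R.f i) : GI R.Y B2.Y Unit B2.f)) =
      Set.range (fun i => emb R.Y B2.Y Unit (fun _ => R.g) B2.f () (B2.g i)) := he
    rw [e1, e2] at he'
    exact inl_ne_emb h (fun _ => R.hg) B2.hf R.hf.rank
      (fun hs => R.ne.symm (R.hg.eq_of_sub R.hf.rank hs)) R.hf.face he'
  · intro T (hT : IsFace a' T) (hr : rk a' T = d) hTne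
    show fc a' d T < n
    rcases glued_facet h hT hr with ⟨S, k1, k2, k3, rfl⟩ | ⟨j, S, k1, k2, k3, rfl⟩
    · rw [glued_fc_inl h d k3]
      apply R.small S k1 k2
      rintro rfl
      exact hTne rfl
    · rw [glued_fc_emb h (fun _ => R.hg) B2.hf j d k3]
      have : fc B2.Y.a d S = d.factorial := sim_small (by omega) S k2
      rw [this]
      exact hn
  · exact R.rig.of_iso (lowIso Sum.inl_injective R.B
      (fun S hS => glued_face_inl h (fun j hj => hBne j (hj.trans hS))))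

/-- Many stackings. -/
theorem stackRB_many {d n N : ℕ} (hd : 2 ≤ d) (hn : d.factorial < n) (R : RB d n N) (L : ℕ) :
    Nonempty (RB d n (N + L * ((d - 1) * d.factorial))) := by
  induction L with
  | zero => exact ⟨by simpa using R⟩
  | succ L ih =>
    obtain ⟨R'⟩ := ih
    apply stackRB hd hn R'
    obtain ⟨e, rfl⟩ : ∃ e, d = e + 2 := ⟨d - 2, by omega⟩
    rw [Nat.factorial_succ (e + 2), show e + 2 - 1 = e + 1 by omega]
    ring

/-- A rigid block with many flags is rigid. -/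
theorem rgOfRB {d n N : ℕ} (R : RB d n N) (hn : (d + 1) * n < N) : Nonempty (Rg d N) := by
  refine ⟨{ R.toBlk with rig := ?_, small := ?_ }⟩
  · intro α S
    have h1 : α ⟨R.B, R.hB⟩ = ⟨R.B, R.hB⟩ := by
      apply Subtype.ext
      by_contra hne
      have h2 := R.small (α ⟨R.B, R.hB⟩).1 (α ⟨R.B, R.hB⟩).2
        ((Fl.rk_map R.Y.pt α ⟨R.B, R.hB⟩).trans R.rB) hne
      rw [fc_map R.Y.pt α d ⟨R.B, R.hB⟩] at h2
      exact absurd R.fB h2.ne
    exact eq_one_of_facet R.Y.pt R.hB (by rw [R.Y.hrk, R.rB]) R.rig α h1 S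
  · intro S hS hr
    refine lt_of_le_of_lt (Nat.mul_le_mul_left _ ?_) hn
    by_cases hSB : S = R.B
    · rw [hSB, R.fB]
    · exact (R.small S hS hr hSB).le

/-- Rigid polytopes with arbitrarily many flags. -/
def RR (d : ℕ) : Prop := ∀ C : ℕ, ∃ N, C < N ∧ Nonempty (Rg d N)

lemma RR_succ {d : ℕ} (hd : 1 ≤ d) (h : RR d) : RR (d + 1) := by
  intro C
  obtain ⟨N, -, ⟨R⟩⟩ := h 0
  obtain ⟨R1⟩ := pyrRB R
  obtain ⟨R2⟩ := stackRB_many (by omega) R.lt R1 (C + 1)
  have h1 : 1 ≤ (d + 1 - 1) * (d + 1).factorial :=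
    Nat.mul_pos (by omega) (Nat.factorial_pos _)
  have h2 : (C + 1) * 1 ≤ (C + 1) * ((d + 1 - 1) * (d + 1).factorial) :=
    Nat.mul_le_mul_left _ h1
  have h3 : (d + 1 + 1) * N = (d + 2) * N := by ring
  exact ⟨_, by omega, rgOfRB R2 (by omega)⟩

lemma RR_all (h : RR 3) : ∀ d, 3 ≤ d → RR d := by
  intro d hd
  induction d, hd using Nat.le_induction with
  | base => exact h
  | succ d hd ih => exact RR_succ (by omega) ih

end Run7.h739
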