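import Pool.Agent.Run7.h739.MainAll

/-!
Orbits of flags under the isometries which map a polytope onto itself, and the group of the induced
automorphisms of the face lattice.
-/

namespace Run7.h739

open Module Function Run7.h249

variable {d : ℕ}

/-- An isometry maps exposed faces to exposed faces. -/
lemma exposed_image {P F : Set (EuclideanSpace ℝ (Fin d))}
    (g : EuclideanSpace ℝ (Fin d) ≃ᵢ EuclideanSpace ℝ (Fin d)) (hF : IsExposed ℝ P F) :
    IsExposed ℝ (g '' P) (g '' F) := by
  rintro ⟨_, x0, hx0, rfl⟩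
  obtain ⟨l, hl⟩ := hF ⟨x0, hx0⟩
  set A := g.toRealAffineIsometryEquiv with hA
  set L := A.linearIsometryEquiv with hL
  have key : ∀ x y, l.comp (L.symm.toContinuousLinearEquiv : _ →L[ℝ] _) (g x)
      - l.comp (L.symm.toContinuousLinearEquiv : _ →L[ℝ] _) (g y) = l x - l y := by
    intro x y
    have h1 : g x - g y = L (x - y) := by
      have := A.map_vsub x y
      simpa [hA] using this.symm
    rw [← map_sub, h1]
    simp
  refine ⟨l.comp (L.symm.toContinuousLinearEquiv : _ →L[ℝ] _), ?_⟩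
  ext z
  constructor
  · rintro ⟨x, hx, rfl⟩
    rw [hl] at hx
    refine ⟨⟨x, hx.1, rfl⟩, ?_⟩
    rintro _ ⟨y, hy, rfl⟩
    have h1 := hx.2 y hy
    have h2 := key x y
    linarith
  · rintro ⟨⟨x, hx, rfl⟩, h⟩
    refine ⟨x, ?_, rfl⟩
    rw [hl]
    refine ⟨hx, fun y hy => ?_⟩
    have h1 := h (g y) ⟨y, hy, rfl⟩
    have h2 := key x y
    linarith

lemma exposed_image' {P F : Set (EuclideanSpace ℝ (Fin d))}
    (g : EuclideanSpace ℝ (Fin d) ≃ᵢ EuclideanSpace ℝ (Fin d)) (hg : g '' P = P)
    (hF : IsExposed ℝ P F) : IsExposed ℝ P (g '' F) := by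
  have h := exposed_image g hF
  rwa [hg] at h

lemma symm_image {P : Set (EuclideanSpace ℝ (Fin d))}
    (g : EuclideanSpace ℝ (Fin d) ≃ᵢ EuclideanSpace ℝ (Fin d)) (hg : g '' P = P) :
    g.symm '' P = P := by
  conv_lhs => rw [← hg]
  rw [Set.image_image]
  simp

/-- The automorphism of the face lattice induced by a symmetry. -/
def symAut {P : Set (EuclideanSpace ℝ (Fin d))}
    (g : EuclideanSpace ℝ (Fin d) ≃ᵢ EuclideanSpace ℝ (Fin d)) (hg : g '' P = P) :
    EFace P ≃o EFace P where
  toFun F := ⟨g '' F.1, exposed_image' g hg F.2⟩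
  invFun F := ⟨g.symm '' F.1, exposed_image' g.symm (symm_image g hg) F.2⟩
  left_inv F := by
    apply Subtype.ext
    show g.symm '' (g '' F.1) = F.1
    rw [Set.image_image]
    simp
  right_inv F := by
    apply Subtype.ext
    show g '' (g.symm '' F.1) = F.1
    rw [Set.image_image]
    simp
  map_rel_iff' := by
    intro F G
    show g '' F.1 ⊆ g '' G.1 ↔ F.1 ⊆ G.1
    exact Set.image_subset_image_iff g.injective

lemma symAut_mem {P : Set (EuclideanSpace ℝ (Fin d))}
    (g : EuclideanSpace ℝ (Fin d) ≃ᵢ EuclideanSpace ℝ (Fin d)) (hg : g '' P = P) :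
    symAut g hg ∈ geomAut P := ⟨g, fun _ => rfl⟩

/-- The orbit of a flag under the isometries which map `P` onto itself. -/
def flagOrbit (P : Set (EuclideanSpace ℝ (Fin d))) (A : Flag (EFace P)) : Set (Flag (EFace P)) :=
  {B | ∃ g : EuclideanSpace ℝ (Fin d) ≃ᵢ EuclideanSpace ℝ (Fin d), g '' P = P ∧
    (fun F : EFace P => g '' F.1) '' (A : Set (EFace P)) =
      (fun F : EFace P => F.1) '' (B : Set (EFace P))}

lemma top_image {P : Set (EuclideanSpace ℝ (Fin d))} {α : EFace P ≃o EFace P}
    {g : EuclideanSpace ℝ (Fin d) ≃ᵢ EuclideanSpace ℝ (Fin d)}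
    (h : ∀ F : EFace P, ((α F : EFace P) : Set (EuclideanSpace ℝ (Fin d))) = g '' F.1) :
    g '' P = P := by
  have h1 := h ⟨P, IsExposed.refl P⟩
  have h2 : α ⟨P, IsExposed.refl P⟩ = ⟨P, IsExposed.refl P⟩ := by
    apply le_antisymm
    · show (α ⟨P, IsExposed.refl P⟩).1 ⊆ P
      exact (α ⟨P, IsExposed.refl P⟩).2.subset
    · rw [← α.symm_apply_le]
      show (α.symm ⟨P, IsExposed.refl P⟩).1 ⊆ P
      exact (α.symm ⟨P, IsExposed.refl P⟩).2.subset
  rw [h2] at h1
  exact h1.symm

lemma flagOrbit_eq (P : Set (EuclideanSpace ℝ (Fin d))) (A : Flag (EFace P)) :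
    flagOrbit P A = MulAction.orbit (geomAut P) A := by
  have key : ∀ (α : EFace P ≃o EFace P)
      (g : EuclideanSpace ℝ (Fin d) ≃ᵢ EuclideanSpace ℝ (Fin d))
      (_ : ∀ F : EFace P, ((α F : EFace P) : Set (EuclideanSpace ℝ (Fin d))) = g '' F.1),
      (fun F : EFace P => g '' F.1) '' (A : Set (EFace P)) =
      (fun F : EFace P => F.1) '' ((α • A : Flag (EFace P)) : Set (EFace P)) := by
    intro α g h
    rw [Flag.coe_smul]
    show _ = (fun F : EFace P => F.1) '' ((fun F => α F) '' (A : Set (EFace P)))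
    rw [Set.image_image]
    apply Set.image_congr
    intro F _
    exact (h F).symm
  ext B
  constructor
  · rintro ⟨g, hg, h⟩
    refine ⟨⟨symAut g hg, symAut_mem g hg⟩, ?_⟩
    show symAut g hg • A = B
    have h1 := key (symAut g hg) g (fun _ => rfl)
    rw [h] at h1
    apply SetLike.coe_injective
    exact (Set.image_injective.2 Subtype.val_injective h1).symm
  · rintro ⟨⟨α, g, hα⟩, rfl⟩
    exact ⟨g, top_image hα, key α g hα⟩

lemma card_flagOrbit (P : Set (EuclideanSpace ℝ (Fin d))) :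
    (Set.range (flagOrbit P)).ncard =
      Nat.card (MulAction.orbitRel.Quotient (geomAut P) (Flag (EFace P))) := by
  have h0 : flagOrbit P = fun A => MulAction.orbit (geomAut P) A := funext (flagOrbit_eq P)
  set f : MulAction.orbitRel.Quotient (geomAut P) (Flag (EFace P)) → Set (Flag (EFace P)) :=
    MulAction.orbitRel.Quotient.orbit with hf
  have hinj : Injective f := MulAction.orbitRel.Quotient.orbit_injective
  have hr : Set.range (flagOrbit P) = Set.range f := by
    rw [h0]
    ext S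
    constructor
    · rintro ⟨A, rfl⟩
      exact ⟨Quotient.mk'' A, rfl⟩
    · rintro ⟨q, rfl⟩
      induction q using Quotient.inductionOn' with
      | h A => exact ⟨A, rfl⟩
  rw [hr, ← Nat.card_coe_set_eq]
  exact (Nat.card_congr (Equiv.ofInjective f hinj)).symm

end Run7.h739
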