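import Pool.Agent.Run7.h739.Base

/-!
Rigid three-dimensional polytopes.
-/

namespace Run7.h739

open Module Function Run7.h249

/-- A 3-polytope with three facets with `8`, `12`, `10` flags, meeting in a vertex, all other
facets being triangles. -/
structure Tri (N : ℕ) extends Blk 3 N where
  A : Set Y.ι
  B : Set Y.ι
  C : Set Y.ι
  hA : IsFace Y.a A
  hB : IsFace Y.a B
  hC : IsFace Y.a C
  fA : fc Y.a 3 A = 8
  fB : fc Y.a 3 B = 12
  fC : fc Y.a 3 C = 10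
  rA : rk Y.a A = 3
  rB : rk Y.a B = 3
  rC : rk Y.a C = 3
  rAB : rk Y.a (A ∩ B) = 2
  rABC : rk Y.a (A ∩ B ∩ C) = 1
  oth : ∀ S, IsFace Y.a S → rk Y.a S = 3 → S ≠ A → S ≠ B → S ≠ C → fc Y.a 3 S = 6

/-- The statement about the explicit 3-polytope. -/
def Core3S : Prop := ∃ (Y : Cfg 3) (f g : Fin 3 → Y.ι) (A B C : Set Y.ι),
    SF Y.a f ∧ SF Y.a g ∧ Set.range f ≠ Set.range g ∧
    IsFace Y.a A ∧ IsFace Y.a B ∧ IsFace Y.a C ∧
    fc Y.a 3 A = 8 ∧ fc Y.a 3 B = 12 ∧ fc Y.a 3 C = 10 ∧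
    rk Y.a A = 3 ∧ rk Y.a B = 3 ∧ rk Y.a C = 3 ∧
    rk Y.a (A ∩ B) = 2 ∧ rk Y.a (A ∩ B ∩ C) = 1 ∧
    (∀ S, IsFace Y.a S → rk Y.a S = 3 → S ≠ A → S ≠ B → S ≠ C → fc Y.a 3 S = 6)

lemma Tri.fix {N : ℕ} (R : Tri N) (α : FSet R.Y.a ≃o FSet R.Y.a) :
    α ⟨R.A, R.hA⟩ = ⟨R.A, R.hA⟩ ∧ α ⟨R.B, R.hB⟩ = ⟨R.B, R.hB⟩ ∧
      α ⟨R.C, R.hC⟩ = ⟨R.C, R.hC⟩ := by
  have key : ∀ (D : Set R.Y.ι) (hD : IsFace R.Y.a D), rk R.Y.a D = 3 → fc R.Y.a 3 D ≠ 6 →
      (α ⟨D, hD⟩).1 = R.A ∨ (α ⟨D, hD⟩).1 = R.B ∨ (α ⟨D, hD⟩).1 = R.C := by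
    intro D hD hr hf
    by_contra hcon
    push Not at hcon
    apply hf
    have h1 := R.oth _ (α ⟨D, hD⟩).2 ((Fl.rk_map R.Y.pt α ⟨D, hD⟩).trans hr) hcon.1 hcon.2.1
      hcon.2.2
    rw [← h1]
    exact (fc_map R.Y.pt α 3 ⟨D, hD⟩).symm
  have hval : ∀ (D : Set R.Y.ι) (hD : IsFace R.Y.a D), fc R.Y.a 3 (α ⟨D, hD⟩).1 = fc R.Y.a 3 D :=
    fun D hD => fc_map R.Y.pt α 3 ⟨D, hD⟩
  refine ⟨?_, ?_, ?_⟩
  · apply Subtype.ext
    have hv := hval _ R.hA
    rcases key _ R.hA R.rA (by rw [R.fA]; norm_num) with h | h | h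
    · exact h
    · rw [h, R.fB, R.fA] at hv
      exact absurd hv (by norm_num)
    · rw [h, R.fC, R.fA] at hv
      exact absurd hv (by norm_num)
  · apply Subtype.ext
    have hv := hval _ R.hB
    rcases key _ R.hB R.rB (by rw [R.fB]; norm_num) with h | h | h
    · rw [h, R.fB, R.fA] at hv
      exact absurd hv (by norm_num)
    · exact h
    · rw [h, R.fC, R.fB] at hv
      exact absurd hv (by norm_num)
  · apply Subtype.ext
    have hv := hval _ R.hC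
    rcases key _ R.hC R.rC (by rw [R.fC]; norm_num) with h | h | h
    · rw [h, R.fC, R.fA] at hv
      exact absurd hv (by norm_num)
    · rw [h, R.fC, R.fB] at hv
      exact absurd hv (by norm_num)
    · exact h

lemma Tri.rig {N : ℕ} (R : Tri N) : Rig (FSet R.Y.a) := by
  intro α S
  obtain ⟨hA, hB, hC⟩ := R.fix α
  have hABf := R.hA.inter R.hB
  have hABCf := hABf.inter R.hC
  have h2 : α ⟨R.A ∩ R.B, hABf⟩ = ⟨R.A ∩ R.B, hABf⟩ := by
    apply Subtype.ext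
    have h3 : α ⟨R.A ∩ R.B, hABf⟩ ≤ α ⟨R.A, R.hA⟩ := α.monotone Set.inter_subset_left
    have h4 : α ⟨R.A ∩ R.B, hABf⟩ ≤ α ⟨R.B, R.hB⟩ := α.monotone Set.inter_subset_right
    rw [hA] at h3
    rw [hB] at h4
    exact eq_of_rk (α ⟨R.A ∩ R.B, hABf⟩).2 (Set.subset_inter h3 h4)
      (Fl.rk_map R.Y.pt α ⟨R.A ∩ R.B, hABf⟩).symm.le
  have h1 : α ⟨R.A ∩ R.B ∩ R.C, hABCf⟩ = ⟨R.A ∩ R.B ∩ R.C, hABCf⟩ := by
    apply Subtype.ext
    have h3 : α ⟨R.A ∩ R.B ∩ R.C, hABCf⟩ ≤ α ⟨R.A ∩ R.B, hABf⟩ :=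
      α.monotone Set.inter_subset_left
    have h4 : α ⟨R.A ∩ R.B ∩ R.C, hABCf⟩ ≤ α ⟨R.C, R.hC⟩ := α.monotone Set.inter_subset_right
    rw [h2] at h3
    rw [hC] at h4
    exact eq_of_rk (α ⟨R.A ∩ R.B ∩ R.C, hABCf⟩).2 (Set.subset_inter h3 h4)
      (Fl.rk_map R.Y.pt α ⟨R.A ∩ R.B ∩ R.C, hABCf⟩).symm.le
  have hru : rk R.Y.a Set.univ = 4 := R.Y.hrk
  -- the flag
  let x : Fl R.Y.a :=
    { f := fun r => match r with
        | 0 => ∅
        | 1 => R.A ∩ R.B ∩ R.C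
        | 2 => R.A ∩ R.B
        | 3 => R.A
        | _ + 4 => Set.univ
      face := by
        intro r hr
        rw [hru] at hr
        match r, hr with
        | 0, _ => exact ⟨R.Y.pt, rk_empty⟩
        | 1, _ => exact ⟨hABCf, R.rABC⟩
        | 2, _ => exact ⟨hABf, R.rAB⟩
        | 3, _ => exact ⟨R.hA, R.rA⟩
        | 4, _ => exact ⟨IsFace.univ, hru⟩
        | n + 5, h => omega
      mono := by
        intro r
        match r with
        | 0 => exact Set.empty_subset _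
        | 1 => exact Set.inter_subset_left
        | 2 => exact Set.inter_subset_left
        | 3 => exact Set.subset_univ _
        | n + 4 => exact subset_refl _
      top := by
        intro r hr
        rw [hru] at hr
        match r, hr with
        | 0, h => omega
        | 1, h => omega
        | 2, h => omega
        | 3, h => omega
        | n + 4, _ => rfl }
  apply eq_one_of_fix R.Y.pt α x
  intro r hr
  rw [hru] at hr
  match r, hr with
  | 0, _ =>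
    apply Subtype.ext
    have h5 : rk R.Y.a (α ⟨∅, R.Y.pt⟩).1 = 0 := (Fl.rk_map R.Y.pt α ⟨∅, R.Y.pt⟩).trans rk_empty
    exact (eq_of_rk R.Y.pt (Set.empty_subset _) (by rw [h5]; exact Nat.zero_le _)).symm
  | 1, _ => exact h1
  | 2, _ => exact h2
  | 3, _ => exact hA
  | 4, _ => exact map_univ α
  | n + 5, h => omega

/-- Stacking. -/
theorem Tri.stack {N : ℕ} (R : Tri N) : Nonempty (Tri (N + 12)) := by
  have hne : ∀ j j' : Unit, Set.range (fun i => R.g i) = Set.range (fun i => R.g i) →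
      j = j' := fun j j' _ => rfl
  set B2 := simBlk 3 (by omega) with hB2
  obtain ⟨a', h⟩ := exists_glued R.Y B2.Y Unit (fun _ => R.g) B2.f (fun _ => R.hg) hne B2.hf
  have h6 : fc R.Y.a 3 (Set.range R.g) = 6 := R.hg.fc
  have hAne : ∀ j : Unit, ¬ Set.range R.g ⊆ R.A := by
    intro _ hs
    have h1 := R.hg.eq_of_sub R.rA hs
    rw [h1, R.fA] at h6
    omega
  have hBne : ∀ j : Unit, ¬ Set.range R.g ⊆ R.B := by
    intro _ hs
    have h1 := R.hg.eq_of_sub R.rB hs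
    rw [h1, R.fB] at h6
    omega
  have hCne : ∀ j : Unit, ¬ Set.range R.g ⊆ R.C := by
    intro _ hs
    have h1 := R.hg.eq_of_sub R.rC hs
    rw [h1, R.fC] at h6
    omega
  have hcnt : fc a' (3 + 1) Set.univ = N + 12 := by
    have h1 := glued_cnt h (fun _ => R.hg) hne B2.hf
    have h2 : fc R.Y.a (3 + 1) Set.univ = N := R.cnt
    have h3 : fc B2.Y.a (3 + 1) Set.univ = 24 := B2.cnt
    rw [h2, h3, Nat.card_unique, one_mul, one_mul] at h1
    have h4 : Nat.factorial 3 = 6 := rfl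
    omega
  have hinj : Injective (Sum.inl : R.Y.ι → GI R.Y B2.Y Unit B2.f) := Sum.inl_injective
  refine ⟨{
    Y := gluedC (by norm_num) h (fun _ => R.hg) B2.hf
    f := fun i => Sum.inl (R.f i)
    g := fun i => emb R.Y B2.Y Unit (fun _ => R.g) B2.f () (B2.g i)
    hf := glued_SF_inl h (fun _ => R.hg) R.hf (fun _ => R.ne.symm)
    hg := glued_SF_emb h (fun _ => R.hg) B2.hf () B2.hg B2.ne
    ne := ?_
    cnt := hcnt
    A := (Sum.inl '' R.A : Set (GI R.Y B2.Y Unit B2.f))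
    B := (Sum.inl '' R.B : Set (GI R.Y B2.Y Unit B2.f))
    C := (Sum.inl '' R.C : Set (GI R.Y B2.Y Unit B2.f))
    hA := (glued_face_inl h hAne).2 R.hA
    hB := (glued_face_inl h hBne).2 R.hB
    hC := (glued_face_inl h hCne).2 R.hC
    fA := (glued_fc_inl h 3 hAne).trans R.fA
    fB := (glued_fc_inl h 3 hBne).trans R.fB
    fC := (glued_fc_inl h 3 hCne).trans R.fC
    rA := (glued_rk_inl h R.A).trans R.rA
    rB := (glued_rk_inl h R.B).trans R.rB
    rC := (glued_rk_inl h R.C).trans R.rC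
    rAB := ?_
    rABC := ?_
    oth := ?_ }⟩
  · intro he
    have e1 : Set.range (fun i => (Sum.inl (R.f i) : GI R.Y B2.Y Unit B2.f)) =
        Sum.inl '' Set.range R.f := by
      rw [← Set.range_comp]
      rfl
    have e2 : Set.range (fun i => emb R.Y B2.Y Unit (fun _ => R.g) B2.f () (B2.g i)) =
        emb R.Y B2.Y Unit (fun _ => R.g) B2.f () '' Set.range B2.g := by
      rw [← Set.range_comp]
      rfl
    have he' : Set.range (fun i => (Sum.inl (R.f i) : GI R.Y B2.Y Unit B2.f)) =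
      Set.range (fun i => emb R.Y B2.Y Unit (fun _ => R.g) B2.f () (B2.g i)) := he
    rw [e1, e2] at he'
    exact inl_ne_emb h (fun _ => R.hg) B2.hf R.hf.rank
      (fun hs => R.ne.symm (R.hg.eq_of_sub R.hf.rank hs)) R.hf.face he'
  · show rk a' ((Sum.inl '' R.A : Set (GI R.Y B2.Y Unit B2.f)) ∩ Sum.inl '' R.B) = 2
    rw [← Set.image_inter hinj, glued_rk_inl h, R.rAB]
  · show rk a' ((Sum.inl '' R.A : Set (GI R.Y B2.Y Unit B2.f)) ∩ Sum.inl '' R.B ∩
      Sum.inl '' R.C) = 1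
    rw [← Set.image_inter hinj, ← Set.image_inter hinj, glued_rk_inl h, R.rABC]
  · intro T (hT : IsFace a' T) (hr : rk a' T = 3) hTA hTB hTC
    show fc a' 3 T = 6
    rcases glued_facet h hT hr with ⟨S, k1, k2, k3, rfl⟩ | ⟨j, S, k1, k2, k3, rfl⟩
    · rw [glued_fc_inl h 3 k3]
      apply R.oth S k1 k2
      · rintro rfl
        exact hTA rfl
      · rintro rfl
        exact hTB rfl
      · rintro rfl
        exact hTC rfl
    · rw [glued_fc_emb h (fun _ => R.hg) B2.hf j 3 k3]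
      exact sim_small (by omega) S k2

theorem RR_three (h : Core3S) : RR 3 := by
  obtain ⟨Y, f, g, A, B, C, hf, hg, hne, hA, hB, hC, fA, fB, fC, rA, rB, rC, rAB, rABC, oth⟩ := h
  have h0 : Tri (fc Y.a (3 + 1) Set.univ) :=
    ⟨⟨Y, f, g, hf, hg, hne, rfl⟩, A, B, C, hA, hB, hC, fA, fB, fC, rA, rB, rC, rAB, rABC, oth⟩
  intro Cb
  have hL : ∀ L : ℕ, Nonempty (Tri (fc Y.a (3 + 1) Set.univ + 12 * L)) := by
    intro L
    induction L with
    | zero => exact ⟨h0⟩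
    | succ L ih =>
      obtain ⟨R⟩ := ih
      exact R.stack
  obtain ⟨R⟩ := hL (Cb + 5)
  refine ⟨_, by omega, ⟨{ R.toBlk with rig := R.rig, small := ?_ }⟩⟩
  intro S hS hr
  have h1 : fc R.Y.a 3 S ≤ 12 := by
    by_cases hSA : S = R.A
    · rw [hSA, R.fA]
      norm_num
    · by_cases hSB : S = R.B
      · rw [hSB, R.fB]
      · by_cases hSC : S = R.C
        · rw [hSC, R.fC]
          norm_num
        · rw [R.oth S hS hr hSA hSB hSC]
          norm_num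
  show (3 + 1) * fc R.Y.a 3 S < _
  omega

end Run7.h739
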